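import Mathlib
import Pool.Agent.Helper208.Rainbow.LLL

set_option autoImplicit false

namespace Pool.Agent.Helper105

open scoped Classical

section
variable {Y : Type*} {k : ℕ}

/-- extend a map on `D` by `T₀`. -/
noncomputable def ext (D : Finset Y) (T₀ : Y → Fin k) (φ : {y // y ∈ D} → Fin k) : Y → Fin k :=
  fun y => if h : y ∈ D then φ ⟨y, h⟩ else T₀ y

/-- the finite set of the maps that agree with `T₀` outside `D`. -/
noncomputable def Tab (D : Finset Y) (T₀ : Y → Fin k) : Finset (Y → Fin k) :=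
  (Finset.univ : Finset ({y // y ∈ D} → Fin k)).image (ext D T₀)

theorem ext_inj (D : Finset Y) (T₀ : Y → Fin k) : Function.Injective (ext D T₀) := by
  intro φ ψ h
  funext ⟨y, hy⟩
  have := congrFun h y
  simpa [ext, hy] using this

theorem mem_Tab {D : Finset Y} {T₀ T : Y → Fin k} : T ∈ Tab D T₀ ↔ ∀ y, y ∉ D → T y = T₀ y := by
  constructor
  · intro h y hy
    simp only [Tab, Finset.mem_image, Finset.mem_univ, true_and] at h
    obtain ⟨φ, rfl⟩ := h
    simp [ext, hy]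
  · intro h
    simp only [Tab, Finset.mem_image, Finset.mem_univ, true_and]
    refine ⟨fun y => T y.1, ?_⟩
    funext y
    by_cases hy : y ∈ D
    · simp [ext, hy]
    · simp [ext, hy, h y hy]

theorem card_Tab (D : Finset Y) (T₀ : Y → Fin k) : (Tab D T₀).card = k ^ D.card := by
  rw [Tab, Finset.card_image_of_injective _ (ext_inj D T₀)]
  simp

theorem Tab_congr {D : Finset Y} {T₀ T₁ : Y → Fin k} (h : ∀ y, y ∉ D → T₀ y = T₁ y) :
    Tab D T₀ = Tab D T₁ := by
  ext T
  rw [mem_Tab, mem_Tab]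
  constructor
  · intro h1 y hy; rw [h1 y hy, h y hy]
  · intro h1 y hy; rw [h1 y hy, h y hy]

/-- fibre decomposition -/
theorem card_Tab_union {D₀ D₁ : Finset Y} (hd : Disjoint D₀ D₁) (T₀ : Y → Fin k)
    (E : (Y → Fin k) → Prop) :
    ((Tab (D₀ ∪ D₁) T₀).filter E).card = ∑ T ∈ Tab D₀ T₀, ((Tab D₁ T).filter E).card := by
  have hfib : ∀ T ∈ Tab D₀ T₀, ((Tab D₁ T).filter E) = ((Tab (D₀ ∪ D₁) T₀).filter E).filter
      (fun S => (fun y => if y ∈ D₀ then S y else T₀ y) = T) := by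
    intro T hT
    rw [mem_Tab] at hT
    ext S
    simp only [Finset.mem_filter, mem_Tab]
    constructor
    · rintro ⟨h1, h2⟩
      refine ⟨⟨fun y hy => ?_, h2⟩, ?_⟩
      · rw [Finset.mem_union, not_or] at hy
        rw [h1 y hy.2, hT y hy.1]
      · funext y
        by_cases hy : y ∈ D₀
        · rw [if_pos hy]
          exact h1 y (Finset.disjoint_left.1 hd hy)
        · rw [if_neg hy, hT y hy]
    · rintro ⟨⟨h1, h2⟩, h3⟩
      refine ⟨fun y hy => ?_, h2⟩
      rw [← h3]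
      by_cases hy0 : y ∈ D₀
      · simp [hy0]
      · simp only [hy0, if_false]
        exact h1 y (by simp [hy, hy0])
  rw [Finset.sum_congr rfl fun T hT => by rw [hfib T hT]]
  refine Finset.card_eq_sum_card_fiberwise
    (f := fun S : Y → Fin k => fun y => if y ∈ D₀ then S y else T₀ y)
    (t := Tab D₀ T₀) ?_
  intro S _
  simp only [Finset.mem_coe, mem_Tab]
  intro y hy
  simp [hy]

/-- if `E` only depends on the coordinates outside `K'`, the extra coordinates of `K'` multiply the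
count. -/
theorem card_Tab_extra {D K : Finset Y} (hDK : D ⊆ K) (T₀ : Y → Fin k)
    (E : (Y → Fin k) → Prop)
    (hE : ∀ T T' : Y → Fin k, (∀ y, y ∉ K \ D → T y = T' y) → (E T ↔ E T')) :
    ((Tab K T₀).filter E).card = ((Tab D T₀).filter E).card * k ^ (K.card - D.card) := by
  have hd : Disjoint (K \ D) D := Finset.sdiff_disjoint
  have hK : K \ D ∪ D = K := Finset.sdiff_union_of_subset hDK
  have h1 := card_Tab_union hd.symm T₀ E
  rw [Finset.union_comm, hK] at h1
  rw [h1]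
  have h2 : ∀ T ∈ Tab D T₀, ((Tab (K \ D) T).filter E).card =
      if E T then k ^ (K.card - D.card) else 0 := by
    intro T _
    split_ifs with h
    · rw [Finset.filter_true_of_mem, card_Tab, Finset.card_sdiff_of_subset hDK]
      intro S hS
      rw [mem_Tab] at hS
      exact (hE S T hS).2 h
    · rw [Finset.filter_false_of_mem, Finset.card_empty]
      intro S hS
      rw [mem_Tab] at hS
      exact fun h' => h ((hE S T hS).1 h')
  rw [Finset.sum_congr rfl h2, ← Finset.sum_filter, Finset.sum_const, smul_eq_mul]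

theorem card_Tab_union' {D D₀ D₁ : Finset Y} (h : ∀ y, y ∈ D ↔ y ∈ D₀ ∨ y ∈ D₁)
    (hd : ∀ y ∈ D₀, y ∉ D₁) (T₀ : Y → Fin k) (E : (Y → Fin k) → Prop) :
    ((Tab D T₀).filter E).card = ∑ T ∈ Tab D₀ T₀, ((Tab D₁ T).filter E).card := by
  have e : D = D₀ ∪ D₁ := by
    ext y; rw [h, Finset.mem_union]
  subst e
  exact card_Tab_union (Finset.disjoint_left.2 fun y hy => hd y hy) T₀ E

theorem card_Tab_extra' {D K : Finset Y} (hDK : D ⊆ K) (T₀ : Y → Fin k)
    (E : (Y → Fin k) → Prop)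
    (hE : ∀ T T' : Y → Fin k, (∀ y, (y ∈ K → y ∈ D) → T y = T' y) → (E T ↔ E T')) :
    ((Tab K T₀).filter E).card = ((Tab D T₀).filter E).card * k ^ (K.card - D.card) := by
  refine card_Tab_extra hDK T₀ E fun T T' h => hE T T' fun y hy => h y ?_
  rw [Finset.mem_sdiff, not_and, not_not]
  exact hy

open Pool.Agent.Helper208.Rainbow in
/-- the asymmetric local lemma, for maps that agree with `T₀` outside a finite set `K`. -/
theorem lll_Tab {V : Type*} (hk : 0 < k) (K : Finset Y) (T₀ : Y → Fin k) (I : Finset V)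
    (D : V → Finset Y) (Ev : V → (Y → Fin k) → Prop)
    (hloc : ∀ v T T', (∀ y ∈ D v, T y = T' y) → (Ev v T ↔ Ev v T')) (x : V → ℝ)
    (hx0 : ∀ v, 0 ≤ x v) (hx1 : ∀ v, x v < 1)
    (h : ∀ v ∈ I, (((Tab K T₀).filter (Ev v)).card : ℝ) ≤
      (x v * ∏ u ∈ I.filter (fun u => u ≠ v ∧ ¬ Disjoint (D v) (D u)), (1 - x u)) *
        (k : ℝ) ^ K.card) :
    ∃ T ∈ Tab K T₀, ∀ v ∈ I, ¬ Ev v T := by
  have : Nonempty ({y // y ∈ K} → Fin k) := ⟨fun _ => ⟨0, hk⟩⟩
  obtain ⟨A, hA⟩ : ∃ A : V → Finset ({y // y ∈ K} → Fin k), ∀ v φ, φ ∈ A v ↔ Ev v (ext K T₀ φ) :=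
    ⟨fun v => Finset.univ.filter fun φ => Ev v (ext K T₀ φ), fun v φ => by simp⟩
  obtain ⟨F, hF⟩ : ∃ F : V → Finset {y // y ∈ K}, ∀ v y, y ∈ F v ↔ y.1 ∈ D v :=
    ⟨fun v => Finset.univ.filter fun y => y.1 ∈ D v, fun v y => by simp⟩
  have hcard : ∀ v, (A v).card = ((Tab K T₀).filter (Ev v)).card := by
    intro v
    rw [← Finset.card_image_of_injective _ (ext_inj K T₀)]
    congr 1
    ext T
    simp only [Finset.mem_image, Finset.mem_filter, Tab, Finset.mem_univ, true_and, hA]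
    constructor
    · rintro ⟨φ, h1, rfl⟩
      exact ⟨⟨φ, rfl⟩, h1⟩
    · rintro ⟨⟨φ, rfl⟩, h1⟩
      exact ⟨φ, h1, rfl⟩
  obtain ⟨φ, hφ⟩ := lll I A F (by
    intro v φ φ' hk'
    rw [hA, hA]
    apply hloc
    intro y hy
    by_cases hyK : y ∈ K
    · simp only [ext, hyK, dif_pos]
      exact hk' ⟨y, hyK⟩ ((hF _ _).2 hy)
    · simp [ext, hyK]) x hx0 hx1 (by
    intro v hv
    rw [hcard]
    refine (h v hv).trans ?_
    have e1 : (Fintype.card ({y // y ∈ K} → Fin k) : ℝ) = (k : ℝ) ^ K.card := by simp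
    rw [e1]
    refine mul_le_mul_of_nonneg_right ?_ (by positivity)
    refine mul_le_mul_of_nonneg_left ?_ (hx0 v)
    have hsub : I.filter (fun j => j ≠ v ∧ ¬ Disjoint (F v) (F j)) ⊆
        I.filter (fun u => u ≠ v ∧ ¬ Disjoint (D v) (D u)) := by
      intro u hu
      simp only [Finset.mem_filter] at hu ⊢
      refine ⟨hu.1, hu.2.1, fun hd => hu.2.2 ?_⟩
      rw [Finset.disjoint_left] at hd ⊢
      intro y h1 h2
      exact hd ((hF _ _).1 h1) ((hF _ _).1 h2)
    rw [← Finset.prod_sdiff hsub]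
    refine mul_le_of_le_one_left (Finset.prod_nonneg fun j _ => by linarith [hx1 j]) ?_
    exact Finset.prod_le_one (fun j _ => by linarith [hx1 j]) (fun j _ => by linarith [hx0 j]))
  refine ⟨ext K T₀ φ, ?_, fun v hv hE => hφ v hv ((hA _ _).2 hE)⟩
  exact Finset.mem_image.2 ⟨φ, Finset.mem_univ _, rfl⟩

end

end Pool.Agent.Helper105
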