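import Mathlib
import Pool.Agent.Helper105_Tree.Enum
import Pool.Agent.Helper105_Tree.Fin
import Pool.Agent.Helper105_Sub.Tab

set_option autoImplicit false

namespace Pool.Agent.Helper105

open MeasureTheory Set
open scoped Classical

/-- the map given by a finite list of instructions. -/
noncomputable def hL {Y : Type*} {k : ℕ} (A : ℕ → Set Y) (a0 : Fin k) :
    List (ℕ × Fin k) → Y → Fin k
  | [] => fun _ => a0
  | (q :: L) => fun y => if y ∈ A q.1 then q.2 else hL A a0 L y

/-- a countable Borel family of maps that realises every finite map. -/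
theorem exists_family {Y : Type*} [MeasurableSpace Y] [StandardBorelSpace Y] {k : ℕ} (hk : 0 < k) :
    ∃ h : ℕ → Y → Fin k, (∀ j, Measurable (h j)) ∧
      ∀ (F : Finset Y) (φ : Y → Fin k), ∃ j, ∀ y ∈ F, h j y = φ y := by
  obtain ⟨A, hA1, hA2⟩ := exists_sep Y
  obtain ⟨e, he⟩ := exists_surjective_nat (List (ℕ × Fin k))
  refine ⟨fun j => hL A ⟨0, hk⟩ (e j), fun j => ?_, fun F φ => ?_⟩
  · beta_reduce
    generalize e j = L
    induction L with
    | nil => exact measurable_const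
    | cons q L ih => exact Measurable.ite (hA1 q.1) measurable_const ih
  · have key : ∃ L : List (ℕ × Fin k), ∀ y ∈ F, hL A ⟨0, hk⟩ L y = φ y := by
      induction F using Finset.induction_on with
      | empty => exact ⟨[], by simp⟩
      | @insert y F hy ih =>
        obtain ⟨L, hL'⟩ := ih
        obtain ⟨i, h1, h2⟩ := hA2 F y hy
        refine ⟨(i, φ y) :: L, fun z hz => ?_⟩
        rw [Finset.mem_insert] at hz
        rcases hz with rfl | hz
        · simp [hL, h1]
        · have : z ∉ A i := h2 z hz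
          simp only [hL, this, if_false]
          exact hL' z hz
    obtain ⟨L, hL'⟩ := key
    obtain ⟨j, rfl⟩ := he L
    exact ⟨j, hL'⟩

/-- One phase: a Borel map avoiding all the events, when the free coordinates that share an event
lie in a common finite class. -/
theorem onePhase {Y V : Type*} [MeasurableSpace Y] [StandardBorelSpace Y] [MeasurableSpace V]
    [StandardBorelSpace V] {k : ℕ} (hk : 0 < k) (D : V → Finset Y)
    (hD : MeasurableSet {p : V × Y | p.2 ∈ D p.1}) (hfin : ∀ y, {v | y ∈ D v}.Finite)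
    (U : Set Y) (hU : MeasurableSet U) (C : Y → Y → Prop) (hC : Equivalence C)
    (hCm : MeasurableSet {p : Y × Y | C p.1 p.2}) (hCf : ∀ y, {z | C y z}.Finite)
    (hCU : ∀ v, ∀ y ∈ D v, ∀ z ∈ D v, y ∈ U → z ∈ U → C y z)
    (Ev : V → (Y → Fin k) → Prop)
    (hloc : ∀ v T T', (∀ y ∈ D v, T y = T' y) → (Ev v T ↔ Ev v T'))
    (hEm : ∀ T, Measurable T → MeasurableSet {v | Ev v T})
    (T₀ : Y → Fin k) (hT₀ : Measurable T₀) (ω θ : V → ℝ) (hω0 : ∀ v, 0 ≤ ω v)
    (hω1 : ∀ v, ω v < 1) (hθ1 : ∀ v, θ v < 1)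
    (hθ : ∀ v, ∀ J : Finset V, (∀ u ∈ J, u ≠ v ∧ ¬ Disjoint (D v) (D u)) →
      θ v ≤ ω v * ∏ u ∈ J, (1 - ω u))
    (hprob : ∀ v, (((Tab ((D v).filter (· ∈ U)) T₀).filter (Ev v)).card : ℝ) ≤
      θ v * (k : ℝ) ^ ((D v).filter (· ∈ U)).card) :
    ∃ T : Y → Fin k, Measurable T ∧ (∀ y, y ∉ U → T y = T₀ y) ∧ ∀ v, ¬ Ev v T := by
  obtain ⟨h, hh1, hh2⟩ := exists_family (Y := Y) hk
  obtain ⟨TT, hTT⟩ : ∃ TT : ℕ → Y → Fin k, ∀ j y, TT j y = if y ∈ U then h j y else T₀ y :=
    ⟨_, fun _ _ => rfl⟩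
  have hTTm : ∀ j, Measurable (TT j) := by
    intro j
    have : TT j = fun y => if y ∈ U then h j y else T₀ y := funext (hTT j)
    rw [this]
    exact Measurable.ite hU (hh1 j) hT₀
  obtain ⟨Good, hGood⟩ : ∃ Good : ℕ → Y → Prop, ∀ j y, Good j y ↔
      ∀ v z, z ∈ D v → z ∈ U → C y z → ¬ Ev v (TT j) := ⟨_, fun _ _ => Iff.rfl⟩
  have hex : ∀ y, ∃ j, Good j y := by
    intro y
    obtain ⟨K, hK⟩ : ∃ K : Finset Y, ∀ z, z ∈ K ↔ C y z ∧ z ∈ U :=
      ⟨(hCf y).toFinset.filter (· ∈ U), fun z => by simp⟩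
    obtain ⟨I, hI⟩ : ∃ I : Finset V, ∀ v, v ∈ I ↔ ∃ z ∈ K, z ∈ D v :=
      ⟨K.biUnion fun z => (hfin z).toFinset, fun v => by simp⟩
    have hsub : ∀ v ∈ I, (D v).filter (· ∈ U) ⊆ K := by
      intro v hv y' hy'
      rw [Finset.mem_filter] at hy'
      obtain ⟨z, hz1, hz2⟩ := (hI v).1 hv
      rw [hK] at hz1 ⊢
      exact ⟨hC.trans hz1.1 (hCU v z hz2 y' hy'.1 hz1.2 hy'.2), hy'.2⟩
    obtain ⟨T, hT1, hT2⟩ := lll_Tab hk K T₀ I D Ev hloc ω hω0 hω1 (by
      intro v hv
      have h1 := card_Tab_extra (hsub v hv) T₀ (Ev v) (by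
        intro T T' hTT'
        apply hloc
        intro y' hy'
        apply hTT'
        rw [Finset.mem_sdiff, Finset.mem_filter, not_and, not_not]
        intro h2
        exact ⟨hy', ((hK y').1 h2).2⟩)
      have h3 := Finset.card_le_card (hsub v hv)
      rw [h1]
      push_cast
      calc (((Tab ((D v).filter (· ∈ U)) T₀).filter (Ev v)).card : ℝ) *
          (k : ℝ) ^ (K.card - ((D v).filter (· ∈ U)).card)
          ≤ (θ v * (k : ℝ) ^ ((D v).filter (· ∈ U)).card) *
          (k : ℝ) ^ (K.card - ((D v).filter (· ∈ U)).card) :=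
            mul_le_mul_of_nonneg_right (hprob v) (by positivity)
        _ = θ v * (k : ℝ) ^ K.card := by
            rw [mul_assoc, ← pow_add, Nat.add_sub_cancel' h3]
        _ ≤ _ := by
            refine mul_le_mul_of_nonneg_right (hθ v _ ?_) (by positivity)
            intro u hu
            exact (Finset.mem_filter.1 hu).2)
    obtain ⟨j, hj⟩ := hh2 K T
    refine ⟨j, (hGood j y).2 fun v z hz1 hz2 hz3 => ?_⟩
    have hvI : v ∈ I := (hI v).2 ⟨z, (hK z).2 ⟨hz3, hz2⟩, hz1⟩
    rw [hloc v (TT j) T]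
    · exact hT2 v hvI
    · intro y' hy'
      rw [hTT]
      split_ifs with hyU
      · exact hj y' (hsub v hvI (Finset.mem_filter.2 ⟨hy', hyU⟩))
      · exact (mem_Tab.1 hT1 y' fun hK' => hyU ((hK y').1 hK').2).symm
  have hGm : ∀ j, MeasurableSet {y | Good j y} := by
    intro j
    have e : {y | Good j y} = {y | ∃ q : V × Y, (y, q) ∈ {r : Y × (V × Y) |
        (r.2.2 ∈ D r.2.1 ∧ r.2.2 ∈ U) ∧ (C r.1 r.2.2 ∧ Ev r.2.1 (TT j))}}ᶜ := by
      ext y
      simp only [mem_ofPred_eq, mem_compl_iff, not_exists, hGood, Prod.forall]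
      constructor
      · intro h1 v z h2
        exact h1 v z h2.1.1 h2.1.2 h2.2.1 h2.2.2
      · intro h1 v z h2 h3 h4 h5
        exact h1 v z ⟨⟨h2, h3⟩, h4, h5⟩
    rw [e]
    refine MeasurableSet.compl (proj ?_ ?_)
    · refine MeasurableSet.inter (MeasurableSet.inter ?_ ?_) (MeasurableSet.inter ?_ ?_)
      · exact measurable_snd hD
      · exact (measurable_snd.comp measurable_snd) hU
      · exact (measurable_fst.prodMk (measurable_snd.comp measurable_snd)) hCm
      · exact (measurable_fst.comp measurable_snd) (hEm _ (hTTm j))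
    · intro y
      have hf : ({z | C y z} ×ˢ (⋃ z ∈ {z | C y z}, {v | z ∈ D v})).Finite :=
        (hCf y).prod ((hCf y).biUnion fun z _ => hfin z)
      refine ((hf.image Prod.swap).subset ?_).countable
      rintro ⟨v, z⟩ ⟨⟨h1, h2⟩, h3, h4⟩
      refine ⟨(z, v), ⟨h3, ?_⟩, rfl⟩
      simp only [mem_iUnion]
      exact ⟨z, h3, h1⟩
  have hjm := measurable_find hex hGm
  obtain ⟨jj, hjj⟩ : ∃ jj : Y → ℕ, jj = fun y => Nat.find (hex y) := ⟨_, rfl⟩
  rw [← hjj] at hjm
  have hj1 : ∀ y, Good (jj y) y := by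
    intro y; rw [hjj]; exact Nat.find_spec (hex y)
  have hj2 : ∀ y j, Good j y → jj y ≤ j := by
    intro y j hj; rw [hjj]; exact Nat.find_min' (hex y) hj
  have hGC : ∀ j y z, C y z → Good j y → Good j z := by
    intro j y z hyz hg
    rw [hGood] at hg ⊢
    intro v w h1 h2 h3
    exact hg v w h1 h2 (hC.trans hyz h3)
  have hjC : ∀ y z, C y z → jj y = jj z := by
    intro y z hyz
    exact le_antisymm (hj2 y _ (hGC _ _ _ (hC.symm hyz) (hj1 z)))
      (hj2 z _ (hGC _ _ _ hyz (hj1 y)))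
  refine ⟨fun y => TT (jj y) y, ?_, ?_, ?_⟩
  · exact measurable_glue (fun j : ℕ => {y | jj y = j})
      (fun j => measurableSet_eq_fun hjm measurable_const) (fun y => ⟨jj y, rfl⟩)
      (fun j => TT j) hTTm _ (by
        rintro j y hy
        simp only [mem_ofPred_eq] at hy
        simp only [hy])
  · intro y hy
    simp only [hTT, hy, if_false]
  · intro v
    by_cases hv : ∃ z ∈ D v, z ∈ U
    · obtain ⟨z, hz1, hz2⟩ := hv
      rw [hloc v _ (TT (jj z))]
      · exact (hGood _ _).1 (hj1 z) v z hz1 hz2 (hC.refl z)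
      · intro y hy
        beta_reduce
        by_cases hyU : y ∈ U
        · rw [hjC y z (hCU v y hy z hz1 hyU hz2)]
        · simp only [hTT, hyU, if_false]
    · push Not at hv
      have e : (D v).filter (· ∈ U) = ∅ := by
        rw [Finset.filter_eq_empty_iff]
        exact hv
      have h1 := hprob v
      rw [e] at h1
      simp only [Finset.card_empty, pow_zero, mul_one] at h1
      have h2 : (((Tab ∅ T₀).filter (Ev v)).card : ℝ) < 1 := h1.trans_lt (hθ1 v)
      have h3 : ((Tab ∅ T₀).filter (Ev v)).card = 0 := by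
        have : ((Tab ∅ T₀).filter (Ev v)).card < 1 := by exact_mod_cast h2
        omega
      rw [Finset.card_eq_zero, Finset.filter_eq_empty_iff] at h3
      have h4 : ¬ Ev v T₀ := h3 (mem_Tab.2 fun y _ => rfl)
      rw [hloc v _ T₀]
      · exact h4
      · intro y hy
        simp only [hTT, hv y hy, if_false]

end Pool.Agent.Helper105
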