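import Mathlib
import Pool.Agent.Helper105_Sub.One

set_option autoImplicit false

namespace Pool.Agent.Helper105

open MeasureTheory Set
open scoped Classical

theorem card_filter_congr {Y : Type*} {k : ℕ} {D₁ D : Finset Y} {T T' : Y → Fin k}
    (h : ∀ y ∈ D, y ∉ D₁ → T y = T' y) {E : (Y → Fin k) → Prop}
    (hE : ∀ S S', (∀ y ∈ D, S y = S' y) → (E S ↔ E S')) :
    ((Tab D₁ T).filter E).card = ((Tab D₁ T').filter E).card := by
  refine Finset.card_nbij' (fun S y => if y ∈ D₁ then S y else T' y)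
    (fun S y => if y ∈ D₁ then S y else T y) ?_ ?_ ?_ ?_
  · intro S hS
    simp only [Finset.coe_filter, mem_Tab, mem_ofPred_eq] at hS ⊢
    refine ⟨fun y hy => by simp [hy], (hE _ _ ?_).1 hS.2⟩
    intro y hy
    by_cases h1 : y ∈ D₁
    · simp [h1]
    · simp only [h1, if_false]
      rw [hS.1 y h1, h y hy h1]
  · intro S hS
    simp only [Finset.coe_filter, mem_Tab, mem_ofPred_eq] at hS ⊢
    refine ⟨fun y hy => by simp [hy], (hE _ _ ?_).1 hS.2⟩
    intro y hy
    by_cases h1 : y ∈ D₁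
    · simp [h1]
    · simp only [h1, if_false]
      rw [hS.1 y h1, h y hy h1]
  · intro S hS
    simp only [Finset.coe_filter, mem_Tab, mem_ofPred_eq] at hS
    funext y
    by_cases h1 : y ∈ D₁
    · simp [h1]
    · simp [h1, hS.1 y h1]
  · intro S hS
    simp only [Finset.coe_filter, mem_Tab, mem_ofPred_eq] at hS
    funext y
    by_cases h1 : y ∈ D₁
    · simp [h1]
    · simp [h1, hS.1 y h1]

/-- the number of bad extensions is a Borel function. -/
theorem count_meas {Y V : Type*} [MeasurableSpace Y] [StandardBorelSpace Y] [MeasurableSpace V]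
    [StandardBorelSpace V] {k : ℕ} (hk : 0 < k) (D : V → Finset Y)
    (hD : MeasurableSet {p : V × Y | p.2 ∈ D p.1}) (U : Set Y) (hU : MeasurableSet U)
    (Bad : V → (Y → Fin k) → Prop)
    (hloc : ∀ v T T', (∀ y ∈ D v, T y = T' y) → (Bad v T ↔ Bad v T'))
    (hBm : ∀ T, Measurable T → MeasurableSet {v | Bad v T})
    (T : Y → Fin k) (hT : Measurable T) :
    Measurable fun v => ((Tab ((D v).filter (· ∈ U)) T).filter (Bad v)).card := by
  obtain ⟨h, hh1, hh2⟩ := exists_family (Y := Y) hk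
  obtain ⟨TT, hTT⟩ : ∃ TT : ℕ → Y → Fin k, ∀ j y, TT j y = if y ∈ U then h j y else T y :=
    ⟨_, fun _ _ => rfl⟩
  have hTTm : ∀ j, Measurable (TT j) := by
    intro j
    have : TT j = fun y => if y ∈ U then h j y else T y := funext (hTT j)
    rw [this]
    exact Measurable.ite hU (hh1 j) hT
  have key : ∀ v m, m ≤ ((Tab ((D v).filter (· ∈ U)) T).filter (Bad v)).card ↔
      ∃ J : Finset ℕ, J.card = m ∧ (∀ i ∈ J, ∀ j ∈ J, i ≠ j →
        ∃ y, y ∈ D v ∧ y ∈ U ∧ h i y ≠ h j y) ∧ ∀ j ∈ J, Bad v (TT j) := by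
    intro v m
    constructor
    · intro hm
      obtain ⟨S, hS1, hS2⟩ := Finset.exists_subset_card_eq hm
      have hch : ∀ s : Y → Fin k, ∃ j, ∀ y ∈ (D v).filter (· ∈ U), h j y = s y := fun s => hh2 _ s
      choose c hc using hch
      refine ⟨S.image c, ?_, ?_, ?_⟩
      · rw [Finset.card_image_of_injOn, hS2]
        intro s hs s' hs' hcc
        have h1 := mem_Tab.1 (Finset.mem_filter.1 (hS1 hs)).1
        have h2 := mem_Tab.1 (Finset.mem_filter.1 (hS1 hs')).1
        funext y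
        by_cases hy : y ∈ (D v).filter (· ∈ U)
        · rw [← hc s y hy, ← hc s' y hy, hcc]
        · rw [h1 y hy, h2 y hy]
      · intro i hi j hj hij
        rw [Finset.mem_image] at hi hj
        obtain ⟨s, hs, rfl⟩ := hi
        obtain ⟨s', hs', rfl⟩ := hj
        by_contra hcon
        push Not at hcon
        apply hij
        have h1 := mem_Tab.1 (Finset.mem_filter.1 (hS1 hs)).1
        have h2 := mem_Tab.1 (Finset.mem_filter.1 (hS1 hs')).1
        have : s = s' := by
          funext y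
          by_cases hy : y ∈ (D v).filter (· ∈ U)
          · rw [← hc s y hy, ← hc s' y hy]
            exact hcon y (Finset.mem_filter.1 hy).1 (Finset.mem_filter.1 hy).2
          · rw [h1 y hy, h2 y hy]
        rw [this]
      · intro j hj
        rw [Finset.mem_image] at hj
        obtain ⟨s, hs, rfl⟩ := hj
        have h1 := Finset.mem_filter.1 (hS1 hs)
        refine (hloc v s (TT (c s)) ?_).1 h1.2
        intro y hy
        rw [hTT]
        split_ifs with hyU
        · exact (hc s y (Finset.mem_filter.2 ⟨hy, hyU⟩)).symm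
        · exact mem_Tab.1 h1.1 y (fun h => hyU (Finset.mem_filter.1 h).2)
    · rintro ⟨J, rfl, hJ1, hJ2⟩
      refine Finset.card_le_card_of_injOn
        (fun j y => if y ∈ (D v).filter (· ∈ U) then h j y else T y) ?_ ?_
      · intro j hj
        simp only [Finset.coe_filter, mem_Tab, mem_ofPred_eq]
        refine ⟨fun y hy => by
          have : ¬ (y ∈ D v ∧ y ∈ U) := fun h => hy (Finset.mem_filter.2 h)
          simp [this], (hloc v _ _ ?_).1 (hJ2 j hj)⟩
        intro y hy
        rw [hTT]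
        by_cases hyU : y ∈ U
        · simp [hyU, hy]
        · simp [hyU]
      · intro i hi j hj hij
        by_contra hne
        obtain ⟨y, h1, h2, h3⟩ := hJ1 i hi j hj hne
        apply h3
        have := congrFun hij y
        simpa [h1, h2] using this
  refine measurable_of_Ici fun m => ?_
  have e : (fun v => ((Tab ((D v).filter (· ∈ U)) T).filter (Bad v)).card) ⁻¹' Ici m =
      ⋃ J : Finset ℕ, {v | J.card = m ∧ (∀ i ∈ J, ∀ j ∈ J, i ≠ j →
        ∃ y, y ∈ D v ∧ y ∈ U ∧ h i y ≠ h j y) ∧ ∀ j ∈ J, Bad v (TT j)} := by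
    ext v
    simp only [mem_preimage, mem_Ici, mem_iUnion, mem_ofPred_eq, key]
  rw [e]
  refine MeasurableSet.iUnion fun J => ?_
  have e2 : {v | J.card = m ∧ (∀ i ∈ J, ∀ j ∈ J, i ≠ j →
        ∃ y, y ∈ D v ∧ y ∈ U ∧ h i y ≠ h j y) ∧ ∀ j ∈ J, Bad v (TT j)} =
      {v | J.card = m} ∩ ((⋂ i ∈ J, ⋂ j ∈ J, {v | i ≠ j →
        ∃ y, (v, y) ∈ {p : V × Y | p.2 ∈ D p.1 ∧ p.2 ∈ U ∧ h i p.2 ≠ h j p.2}}) ∩
        ⋂ j ∈ J, {v | Bad v (TT j)}) := by
    ext v
    simp only [mem_ofPred_eq, mem_inter_iff, mem_iInter]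
  rw [e2]
  refine (MeasurableSet.const _).inter (MeasurableSet.inter ?_ ?_)
  · refine Finset.measurableSet_biInter _ fun i _ => Finset.measurableSet_biInter _ fun j _ => ?_
    by_cases hij : i = j
    · simp [hij]
    · have e3 : {v | i ≠ j → ∃ y, (v, y) ∈ {p : V × Y | p.2 ∈ D p.1 ∧ p.2 ∈ U ∧
          h i p.2 ≠ h j p.2}} =
          {v | ∃ y, (v, y) ∈ {p : V × Y | p.2 ∈ D p.1 ∧ p.2 ∈ U ∧ h i p.2 ≠ h j p.2}} := by
        ext v
        simp only [mem_ofPred_eq]
        exact ⟨fun h => h hij, fun h _ => h⟩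
      rw [e3]
      refine proj ?_ ?_
      · refine hD.inter ((measurable_snd hU).inter ?_)
        exact (measurableSet_eq_fun ((hh1 i).comp measurable_snd)
          ((hh1 j).comp measurable_snd)).compl
      · intro v
        exact ((D v).finite_toSet.subset fun y hy => hy.1).countable
  · exact Finset.measurableSet_biInter _ fun j _ => hBm _ (hTTm j)

/-- Two phases: under the squared local lemma condition there is a Borel map avoiding all the
events. -/
theorem twoPhase {Y V : Type*} [MeasurableSpace Y] [StandardBorelSpace Y] [MeasurableSpace V]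
    [StandardBorelSpace V] {k : ℕ} (hk : 0 < k) (D : V → Finset Y)
    (hD : MeasurableSet {p : V × Y | p.2 ∈ D p.1}) (hfin : ∀ y, {v | y ∈ D v}.Finite)
    (U : Set Y) (hU : MeasurableSet U) (C : Y → Y → Prop) (hC : Equivalence C)
    (hCm : MeasurableSet {p : Y × Y | C p.1 p.2}) (hCf : ∀ y, {z | C y z}.Finite)
    (hCU : ∀ v, ∀ y ∈ D v, ∀ z ∈ D v, (y ∈ U ↔ z ∈ U) → C y z)
    (Bad : V → (Y → Fin k) → Prop)
    (hloc : ∀ v T T', (∀ y ∈ D v, T y = T' y) → (Bad v T ↔ Bad v T'))
    (hBm : ∀ T, Measurable T → MeasurableSet {v | Bad v T})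
    (ω θ : V → ℝ) (hω0 : ∀ v, 0 ≤ ω v)
    (hω1 : ∀ v, ω v < 1) (hθ0 : ∀ v, 0 < θ v) (hθ1 : ∀ v, θ v < 1) (hθm : Measurable θ)
    (hθ : ∀ v, ∀ J : Finset V, (∀ u ∈ J, u ≠ v ∧ ¬ Disjoint (D v) (D u)) →
      θ v ≤ ω v * ∏ u ∈ J, (1 - ω u))
    (hprob : ∀ v T, (((Tab (D v) T).filter (Bad v)).card : ℝ) ≤
      θ v ^ 2 * (k : ℝ) ^ (D v).card) :
    ∃ T : Y → Fin k, Measurable T ∧ ∀ v, ¬ Bad v T := by
  have hk' : (0 : ℝ) < k := by exact_mod_cast hk
  obtain ⟨W, hW, hWm⟩ : ∃ W : Set Y, (∀ y, y ∈ W ↔ y ∉ U) ∧ MeasurableSet W :=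
    ⟨Uᶜ, fun _ => Iff.rfl, hU.compl⟩
  obtain ⟨T₁, hT₁, -, hT₁'⟩ := onePhase hk D hD hfin U hU C hC hCm hCf
    (fun v y hy z hz h1 h2 => hCU v y hy z hz ⟨fun _ => h2, fun _ => h1⟩)
    (fun v T => θ v * (k : ℝ) ^ ((D v).filter (· ∈ W)).card <
      (((Tab ((D v).filter (· ∈ W)) T).filter (Bad v)).card : ℝ))
    (by
      intro v T T' hTT'
      rw [card_filter_congr (D := D v) (T := T) (T' := T') (fun y hy _ => hTT' y hy) (hloc v)])
    (by
      intro T hT
      refine measurableSet_lt (hθm.mul ?_) ?_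
      · have e : (fun v => (k : ℝ) ^ ((D v).filter (· ∈ W)).card) =
            fun v => ∏ y ∈ D v, if y ∈ W then (k : ℝ) else 1 := by
          funext v
          rw [Finset.prod_ite]
          simp
        rw [e]
        refine measurable_fprod D hD (fun _ y => if y ∈ W then (k : ℝ) else 1) ?_
        exact Measurable.ite (measurable_snd hWm) measurable_const measurable_const
      · have := count_meas hk D hD W hWm Bad hloc hBm T hT
        exact (measurable_of_countable (fun n : ℕ => (n : ℝ))).comp this)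
    (fun _ => ⟨0, hk⟩) measurable_const ω θ hω0 hω1 hθ1 hθ (by
      intro v
      have hdis : Disjoint ((D v).filter (· ∈ U)) ((D v).filter (· ∈ W)) := by
        rw [Finset.disjoint_left]
        intro y h1 h2
        exact (hW y).1 (Finset.mem_filter.1 h2).2 (Finset.mem_filter.1 h1).2
      have hun : (D v).filter (· ∈ U) ∪ (D v).filter (· ∈ W) = D v := by
        ext y
        simp only [Finset.mem_union, Finset.mem_filter, hW]
        tauto
      have h1 := card_Tab_union hdis (fun _ => (⟨0, hk⟩ : Fin k)) (Bad v)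
      have h2 := hprob v (fun _ => (⟨0, hk⟩ : Fin k))
      rw [hun] at h1
      rw [h1] at h2
      push_cast at h2
      have hcard : (D v).card = ((D v).filter (· ∈ U)).card + ((D v).filter (· ∈ W)).card := by
        rw [← Finset.card_union_of_disjoint hdis, hun]
      obtain ⟨a, ha⟩ : ∃ a : ℝ, a = (k : ℝ) ^ ((D v).filter (· ∈ U)).card := ⟨_, rfl⟩
      obtain ⟨b, hb⟩ : ∃ b : ℝ, b = (k : ℝ) ^ ((D v).filter (· ∈ W)).card := ⟨_, rfl⟩
      rw [hcard, pow_add, ← ha, ← hb] at h2
      rw [← ha, ← hb]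
      have hb0 : 0 < b := by rw [hb]; positivity
      have h3 : ((((Tab ((D v).filter (· ∈ U)) fun _ => (⟨0, hk⟩ : Fin k)).filter fun T => θ v * b <
          (((Tab ((D v).filter (· ∈ W)) T).filter (Bad v)).card : ℝ)).card : ℝ)) * (θ v * b) ≤
          θ v ^ 2 * (a * b) := by
        refine le_trans ?_ h2
        rw [← nsmul_eq_mul]
        refine le_trans (Finset.card_nsmul_le_sum _ (fun T =>
          (((Tab ((D v).filter (· ∈ W)) T).filter (Bad v)).card : ℝ)) _ ?_) ?_
        · intro T hT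
          exact (Finset.mem_filter.1 hT).2.le
        · exact Finset.sum_le_sum_of_subset_of_nonneg (Finset.filter_subset _ _)
            fun _ _ _ => Nat.cast_nonneg _
      have h4 : 0 < θ v * b := mul_pos (hθ0 v) hb0
      refine le_of_mul_le_mul_right ?_ h4
      refine h3.trans (le_of_eq ?_)
      ring)
  obtain ⟨T₂, hT₂, -, hT₂'⟩ := onePhase hk D hD hfin W hWm C hC hCm hCf
    (fun v y hy z hz h1 h2 => hCU v y hy z hz
      ⟨fun h => absurd h ((hW _).1 h1), fun h => absurd h ((hW _).1 h2)⟩)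
    Bad hloc hBm T₁ hT₁ ω θ hω0 hω1 hθ1 hθ (by
      intro v
      exact not_lt.1 (hT₁' v))
  exact ⟨T₂, hT₂, hT₂'⟩

end Pool.Agent.Helper105
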