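import Mathlib

set_option autoImplicit false

namespace Pool.Agent.Helper105

open scoped Classical

section
variable {X V : Type*} {k : ℕ} (dm : V → Finset X) (viol : V → (X → Fin k) → Prop)

/-- the indicator of the domain of `w`. -/
noncomputable def ix (w : V) (x : X) : ℕ := if x ∈ dm w then 1 else 0

/-- the number of members of the list whose domain contains `x`. -/
noncomputable def cnt' : List V → X → ℕ
  | [], _ => 0
  | w :: l, x => ix dm w x + cnt' l x

/-- the table after a resampling of `w`. -/
noncomputable def sh (w : V) (T : X × ℕ → Fin k) : X × ℕ → Fin k :=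
  fun c => T (c.1, c.2 + ix dm w c.1)

/-- the table after the resamplings of the list. -/
noncomputable def shl (l : List V) (T : X × ℕ → Fin k) : X × ℕ → Fin k :=
  fun c => T (c.1, c.2 + cnt' dm l c.1)

/-- the list (earliest first) is a legal sequence of resamplings for the table `T`. -/
def Cons : List V → (X × ℕ → Fin k) → Prop
  | [], _ => True
  | w :: l, T => viol w (fun x => T (x, 0)) ∧ Cons l (sh dm w T)

/-- the domains of `u` and `w` intersect. -/
def meets (u w : V) : Prop := ∃ x ∈ dm u, x ∈ dm w

/-- causal past of the members satisfying `K`. -/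
noncomputable def past (K : V → Prop) : List V → List V
  | [] => []
  | w :: l => if K w ∨ ∃ u ∈ past K l, meets dm w u then w :: past K l else past K l

/-- `l` (earliest first) ends with `v`, and every other member meets a later one. -/
def Pyr (v : V) : List V → Prop
  | [] => False
  | w :: l => (l = [] ∧ w = v) ∨ (Pyr v l ∧ ∃ u ∈ l, meets dm w u)

variable {dm viol}

theorem meets_symm {u w : V} (h : meets dm u w) : meets dm w u := by
  obtain ⟨x, h1, h2⟩ := h
  exact ⟨x, h2, h1⟩

theorem meets_refl {u : V} (h : (dm u).Nonempty) : meets dm u u := by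
  obtain ⟨x, h1⟩ := h
  exact ⟨x, h1, h1⟩

theorem shl_cons (w : V) (l : List V) (T : X × ℕ → Fin k) :
    shl dm (w :: l) T = shl dm l (sh dm w T) := by
  funext c
  simp only [shl, sh, cnt']
  congr 2
  ring

theorem cnt_append (l₁ l₂ : List V) (x : X) :
    cnt' dm (l₁ ++ l₂) x = cnt' dm l₁ x + cnt' dm l₂ x := by
  induction l₁ with
  | nil => simp [cnt']
  | cons w l ih => simp only [List.cons_append, cnt', ih]; ring

theorem cons_append (l₁ l₂ : List V) (T : X × ℕ → Fin k) :
    Cons dm viol (l₁ ++ l₂) T ↔ Cons dm viol l₁ T ∧ Cons dm viol l₂ (shl dm l₁ T) := by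
  induction l₁ generalizing T with
  | nil =>
    have : shl dm ([] : List V) T = T := by
      funext c; simp [shl, cnt']
    simp [Cons, this]
  | cons w l ih =>
    simp only [List.cons_append, Cons, ih, shl_cons, and_assoc]

theorem cnt_pos {l : List V} {x : X} (h : 0 < cnt' dm l x) : ∃ u ∈ l, x ∈ dm u := by
  induction l with
  | nil => simp [cnt'] at h
  | cons w l ih =>
    by_cases hx : x ∈ dm w
    · exact ⟨w, by simp, hx⟩
    · simp only [cnt', ix, hx, if_false, zero_add] at h
      obtain ⟨u, h1, h2⟩ := ih h
      exact ⟨u, List.mem_cons_of_mem _ h1, h2⟩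

theorem cnt_le (l : List V) (x : X) : cnt' dm l x ≤ l.length := by
  induction l with
  | nil => simp [cnt']
  | cons w l ih =>
    simp only [cnt', List.length_cons, ix]
    split_ifs <;> omega

variable (hloc : ∀ v f g, (∀ x ∈ dm v, f x = g x) → (viol v f ↔ viol v g))
include hloc

theorem cons_congr {l : List V} {T T' : X × ℕ → Fin k}
    (h : ∀ x r, r < cnt' dm l x → T (x, r) = T' (x, r)) :
    Cons dm viol l T ↔ Cons dm viol l T' := by
  induction l generalizing T T' with
  | nil => simp [Cons]
  | cons w l ih =>
    simp only [Cons]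
    refine and_congr (hloc _ _ _ fun x hx => h x 0 ?_) (ih fun x r hr => ?_)
    · simp [cnt', ix, hx]
    · simp only [sh]
      apply h
      simp only [cnt']
      omega

theorem cons_past {K : V → Prop} {l : List V} {T : X × ℕ → Fin k} (h : Cons dm viol l T) :
    Cons dm viol (past dm K l) T := by
  induction l generalizing T with
  | nil => simp [past, Cons]
  | cons w l ih =>
    simp only [Cons] at h
    simp only [past]
    split_ifs with hw
    · exact ⟨h.1, ih h.2⟩
    · rw [not_or] at hw
      refine (cons_congr hloc ?_).1 (ih h.2)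
      intro x r hr
      obtain ⟨u, h1, h2⟩ := cnt_pos (lt_of_le_of_lt (Nat.zero_le r) hr)
      have : x ∉ dm w := fun hx => hw.2 ⟨u, h1, x, hx, h2⟩
      simp [sh, ix, this]

omit hloc

theorem past_sub (K : V → Prop) (l : List V) : (past dm K l).Sublist l := by
  induction l with
  | nil => simp [past]
  | cons w l ih =>
    simp only [past]
    split_ifs
    · exact List.Sublist.cons₂ _ ih
    · exact List.Sublist.cons _ ih

theorem pyr_mem {v : V} {l : List V} (h : Pyr dm v l) : v ∈ l := by
  induction l with
  | nil => exact h.elim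
  | cons w l ih =>
    rcases h with ⟨-, rfl⟩ | ⟨h1, -⟩
    · simp
    · exact List.mem_cons_of_mem _ (ih h1)

theorem pyr_ne {v : V} {l : List V} (h : Pyr dm v l) : l ≠ [] := by
  rintro rfl
  exact h.elim

theorem past_pyr {v : V} (hv : (dm v).Nonempty) {l : List V}
    (h : past dm (· = v) l ≠ []) : Pyr dm v (past dm (· = v) l) := by
  induction l with
  | nil => simp [past] at h
  | cons w l ih =>
    by_cases he : past dm (· = v) l = []
    · by_cases hw : w = v
      · simp only [past, hw, true_or, if_true, he]
        exact Or.inl ⟨rfl, rfl⟩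
      · simp [past, he, hw] at h
    · have h1 := ih he
      simp only [past]
      split_ifs with hw
      · refine Or.inr ⟨h1, ?_⟩
        rcases hw with rfl | hw
        · exact ⟨w, pyr_mem h1, meets_refl hv⟩
        · exact hw
      · exact h1

theorem past_ne {v : V} {l : List V} (h : v ∈ l) : past dm (· = v) l ≠ [] := by
  induction l with
  | nil => simp at h
  | cons w l ih =>
    simp only [past]
    split_ifs with hw
    · simp
    · rw [List.mem_cons] at h
      rcases h with rfl | h
      · simp at hw
      · exact ih h

/-- the causal past of a union of seeds is covered by the causal pasts of the seeds. -/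
theorem past_union (U : Finset V) (K : V → Prop) (l : List V) (hU : ∀ w ∈ l, K w → w ∈ U) :
    (past dm K l).length ≤ ∑ i ∈ U, (past dm (· = i) l).length ∧
      ∀ u ∈ past dm K l, ∃ i ∈ U, u ∈ past dm (· = i) l := by
  induction l with
  | nil => simp [past]
  | cons w l ih =>
    obtain ⟨ih1, ih2⟩ := ih fun w' hw' => hU w' (List.mem_cons_of_mem _ hw')
    have hmono : ∀ i, (past dm (· = i) l).length ≤ (past dm (· = i) (w :: l)).length := by
      intro i
      simp only [past]
      split_ifs
      · simp
      · exact le_rfl
    have hmem : ∀ i u, u ∈ past dm (· = i) l → u ∈ past dm (· = i) (w :: l) := by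
      intro i u hu
      simp only [past]
      split_ifs
      · exact List.mem_cons_of_mem _ hu
      · exact hu
    by_cases hw : K w ∨ ∃ u ∈ past dm K l, meets dm w u
    · have hi : ∃ i ∈ U, past dm (· = i) (w :: l) = w :: past dm (· = i) l := by
        rcases hw with hw | ⟨u, h1, h2⟩
        · refine ⟨w, hU w (by simp) hw, ?_⟩
          simp [past]
        · obtain ⟨i, h3, h4⟩ := ih2 u h1
          refine ⟨i, h3, ?_⟩
          have : w = i ∨ ∃ u ∈ past dm (· = i) l, meets dm w u := Or.inr ⟨u, h4, h2⟩
          simp only [past, this, if_true]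
      obtain ⟨i, hi1, hi2⟩ := hi
      have e : past dm K (w :: l) = w :: past dm K l := by
        simp only [past, hw, if_true]
      rw [e]
      constructor
      · rw [List.length_cons]
        calc (past dm K l).length + 1 ≤ (∑ i ∈ U, (past dm (· = i) l).length) + 1 := by omega
          _ ≤ _ := by
            rw [← Finset.add_sum_erase U _ hi1, ← Finset.add_sum_erase U (fun i =>
              (past dm (· = i) (w :: l)).length) hi1, hi2, List.length_cons]
            have := Finset.sum_le_sum (s := U.erase i) fun j _ => hmono j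
            omega
      · intro u hu
        rw [List.mem_cons] at hu
        rcases hu with rfl | hu
        · exact ⟨i, hi1, by rw [hi2]; simp⟩
        · obtain ⟨j, h1, h2⟩ := ih2 u hu
          exact ⟨j, h1, hmem j u h2⟩
    · have e : past dm K (w :: l) = past dm K l := by
        simp only [past, hw, if_false]
      rw [e]
      constructor
      · exact ih1.trans (Finset.sum_le_sum fun i _ => hmono i)
      · intro u hu
        obtain ⟨j, h1, h2⟩ := ih2 u hu
        exact ⟨j, h1, hmem j u h2⟩

/-- removal of the apex. -/
theorem pyr_split {v : V} {l : List V} (h : Pyr dm v l) :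
    ∃ l', l = l' ++ [v] ∧ past dm (fun w => meets dm w v) l' = l' := by
  induction l with
  | nil => exact h.elim
  | cons w l ih =>
    rcases h with ⟨rfl, rfl⟩ | ⟨h1, u, hu, hwu⟩
    · exact ⟨[], by simp, by simp [past]⟩
    · obtain ⟨l', rfl, h2⟩ := ih h1
      refine ⟨w :: l', by simp, ?_⟩
      have : meets dm w v ∨ ∃ u ∈ past dm (fun w => meets dm w v) l', meets dm w u := by
        rw [List.mem_append, List.mem_singleton] at hu
        rcases hu with hu | rfl
        · rw [h2]; exact Or.inr ⟨u, hu, hwu⟩
        · exact Or.inl hwu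
      simp only [past]
      rw [if_pos this, h2]

include hloc

/-- If there is no legal pyramid whose size lies in the window of its apex, then all legal
pyramids are small. -/
theorem local_to_global {𝓑 : Set V} (hne : ∀ v ∈ 𝓑, (dm v).Nonempty) {T : X × ℕ → Fin k}
    (N : V → ℕ) {d : ℕ} (hN16 : ∀ v ∈ 𝓑, 16 ≤ N v)
    (hnb : ∀ v ∈ 𝓑, ∃ U : Finset V, U.card ≤ d + 1 ∧ (∀ w ∈ 𝓑, meets dm w v → w ∈ U) ∧
      ∀ w ∈ U, w ∈ 𝓑 ∧ N w ≤ N v + 1)
    (hT : ∀ v l, Pyr dm v l → (∀ u ∈ l, u ∈ 𝓑) → Cons dm viol l T →
      ¬ (N v ≤ 5 * (d + 1) * l.length ∧ 4 * l.length ≤ N v)) :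
    ∀ v l, Pyr dm v l → (∀ u ∈ l, u ∈ 𝓑) → Cons dm viol l T →
      5 * (d + 1) * l.length < N v := by
  have key : ∀ m : ℕ, ∀ v l, l.length = m → Pyr dm v l → (∀ u ∈ l, u ∈ 𝓑) →
      Cons dm viol l T → 5 * (d + 1) * l.length < N v := by
    intro m
    induction m using Nat.strong_induction_on with
    | _ m ih =>
      intro v l hlm hP hB hC
      by_contra hcon
      push Not at hcon
      have hw := hT v l hP hB hC
      have h8 : N v < 4 * l.length := by
        by_contra h
        exact hw ⟨hcon, not_lt.1 h⟩
      obtain ⟨l', rfl, hl'⟩ := pyr_split hP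
      have hvB : v ∈ 𝓑 := hB v (by simp)
      obtain ⟨U, hU1, hU2, hU3⟩ := hnb v hvB
      have hB' : ∀ u ∈ l', u ∈ 𝓑 := fun u hu => hB u (by simp [hu])
      have hu := (past_union (dm := dm) U (fun w => meets dm w v) l'
        (fun w hw h => hU2 w (hB' w hw) h)).1
      rw [hl'] at hu
      have hC' := ((cons_append _ _ _).1 hC).1
      have hlen : (l' ++ [v]).length = l'.length + 1 := by simp
      rw [hlen] at hcon h8 hlm
      have hterm : ∀ i ∈ U, 5 * (d + 1) * (past dm (· = i) l').length ≤ N v := by
        intro i hi
        by_cases he : past dm (· = i) l' = []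
        · rw [he]; simp
        · have h1 := past_pyr (hne i (hU3 i hi).1) he
          have h2 : (past dm (· = i) l').length ≤ l'.length := (past_sub _ _).length_le
          have h3 := ih (past dm (· = i) l').length (by omega) i _ rfl h1
            (fun u hu => hB' u ((past_sub _ _).subset hu)) (cons_past hloc hC')
          have h4 := (hU3 i hi).2
          omega
      have hsum : 5 * (d + 1) * l'.length ≤ (d + 1) * N v := by
        calc 5 * (d + 1) * l'.length
            ≤ 5 * (d + 1) * ∑ i ∈ U, (past dm (· = i) l').length := Nat.mul_le_mul_left _ hu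
          _ = ∑ i ∈ U, 5 * (d + 1) * (past dm (· = i) l').length := by rw [Finset.mul_sum]
          _ ≤ ∑ i ∈ U, N v := Finset.sum_le_sum hterm
          _ = U.card * N v := by rw [Finset.sum_const, smul_eq_mul]
          _ ≤ (d + 1) * N v := Nat.mul_le_mul_right _ hU1
      have h16 : 5 * l'.length ≤ N v := by
        have : (d + 1) * (5 * l'.length) ≤ (d + 1) * N v := by
          calc (d + 1) * (5 * l'.length) = 5 * (d + 1) * l'.length := by ring
            _ ≤ _ := hsum
        exact Nat.le_of_mul_le_mul_left this (by omega)
      have := hN16 v hvB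
      omega
  intro v l
  exact key l.length v l rfl

end

end Pool.Agent.Helper105
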