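import Mathlib
import Pool.Agent.Helper105_Sub.Tab
import Pool.Agent.Helper105_Sub.Pyr

set_option autoImplicit false

namespace Pool.Agent.Helper105

open scoped Classical

section
variable {X V : Type*} {k : ℕ} (dm : V → Finset X) (viol : V → (X → Fin k) → Prop)

/-- the cells used by a sequence of resamplings. -/
noncomputable def cells : List V → Finset (X × ℕ)
  | [] => ∅
  | w :: l => (dm w).image (fun x => (x, 0)) ∪ (cells l).image (fun c => (c.1, c.2 + ix dm w c.1))

/-- the layered structure of a sequence. -/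
noncomputable def Lay : List V → Finset (ℕ × V)
  | [] => ∅
  | w :: l => insert (((Lay l).filter (fun q => meets dm w q.2)).sup (fun q => q.1 + 1), w) (Lay l)

/-- consistency of a layered structure with a table. -/
def LCons (S : Finset (ℕ × V)) (T : X × ℕ → Fin k) : Prop :=
  ∀ q ∈ S, viol q.2 (fun x => T (x, (S.filter (fun q' => q.1 < q'.1 ∧ x ∈ dm q'.2)).card))

variable {dm viol}

theorem mem_cells {l : List V} {c : X × ℕ} : c ∈ cells dm l ↔ c.2 < cnt' dm l c.1 := by
  induction l generalizing c with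
  | nil => simp [cells, cnt']
  | cons w l ih =>
    obtain ⟨x, r⟩ := c
    simp only [cells, Finset.mem_union, Finset.mem_image, Prod.mk.injEq, cnt', ix, ih,
      Prod.exists]
    constructor
    · rintro (⟨y, hy, rfl, rfl⟩ | ⟨y, s, hs, rfl, rfl⟩)
      · simp [hy]
      · omega
    · intro h
      by_cases hx : x ∈ dm w
      · simp only [hx, if_true] at h
        rcases Nat.eq_zero_or_pos r with rfl | hr
        · exact Or.inl ⟨x, hx, rfl, rfl⟩
        · refine Or.inr ⟨x, r - 1, by omega, rfl, ?_⟩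
          simp only [hx, if_true]; omega
      · simp only [hx, if_false, zero_add] at h
        exact Or.inr ⟨x, r, h, rfl, by simp [hx]⟩

theorem cells_disj (w : V) (S : Finset (X × ℕ)) : Disjoint ((dm w).image (fun x => (x, 0)))
    (S.image (fun c => (c.1, c.2 + ix dm w c.1))) := by
  rw [Finset.disjoint_left]
  rintro ⟨x, r⟩ h1 h2
  simp only [Finset.mem_image, Prod.mk.injEq] at h1 h2
  obtain ⟨y, hy, rfl, rfl⟩ := h1
  obtain ⟨c, hc, h3, h4⟩ := h2
  rw [h3] at h4
  simp only [ix, hy, if_true] at h4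
  omega

theorem shift_inj (w : V) : Function.Injective (fun c : X × ℕ => (c.1, c.2 + ix dm w c.1)) := by
  rintro ⟨x, r⟩ ⟨y, s⟩ h
  simp only [Prod.mk.injEq] at h
  obtain ⟨rfl, h2⟩ := h
  simp only [Prod.mk.injEq, true_and]
  omega

theorem card_cells_cons (w : V) (l : List V) :
    (cells dm (w :: l)).card = (dm w).card + (cells dm l).card := by
  rw [cells, Finset.card_union_of_disjoint (cells_disj w _),
    Finset.card_image_of_injective _ (shift_inj w), Finset.card_image_of_injective]
  intro x y h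
  simpa using h

theorem cons_card {𝓑 : Set V} {p : ℝ} (hp : 0 ≤ p)
    (hviol : ∀ w ∈ 𝓑, ∀ f₀, (((Tab (dm w) f₀).filter (viol w)).card : ℝ) ≤
      p * (k : ℝ) ^ (dm w).card) (l : List V) (hl : ∀ w ∈ l, w ∈ 𝓑) (T₀ : X × ℕ → Fin k) :
    (((Tab (cells dm l) T₀).filter (Cons dm viol l)).card : ℝ) ≤
      p ^ l.length * (k : ℝ) ^ (cells dm l).card := by
  induction l generalizing T₀ with
  | nil =>
    simp only [List.length_nil, pow_zero, one_mul]
    refine le_trans (Nat.cast_le.2 (Finset.card_filter_le _ _)) ?_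
    rw [card_Tab]; simp
  | cons w l ih =>
    obtain ⟨B, hB⟩ : ∃ B, B = (cells dm l).image (fun c => (c.1, c.2 + ix dm w c.1)) := ⟨_, rfl⟩
    have hA := card_Tab_union' (D := cells dm (w :: l)) (D₀ := B)
      (D₁ := (dm w).image (fun x => (x, 0))) (fun y => by
        rw [cells, Finset.mem_union, ← hB, or_comm])
      (fun y hy hy' => by
        rw [hB] at hy
        exact Finset.disjoint_left.1 (cells_disj w _) hy' hy) T₀
      (Cons dm viol (w :: l))
    rw [card_cells_cons, hA]
    push_cast
    have h1 : ∀ T ∈ Tab B T₀, (((Tab ((dm w).image (fun x => (x, 0))) T).filter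
        (Cons dm viol (w :: l))).card : ℝ) ≤
        if Cons dm viol l (sh dm w T) then p * (k : ℝ) ^ (dm w).card else 0 := by
      intro T _
      have hsh : ∀ S ∈ Tab ((dm w).image (fun x => (x, 0))) T, sh dm w S = sh dm w T := by
        intro S hS
        funext c
        simp only [sh]
        apply mem_Tab.1 hS
        simp only [Finset.mem_image, Prod.mk.injEq, not_exists, not_and]
        rintro y hy rfl
        simp only [ix, hy, if_true]
        omega
      split_ifs with hc
      · refine le_trans ?_ (hviol w (hl w (by simp)) fun x => T (x, 0))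
        rw [Nat.cast_le]
        refine Finset.card_le_card_of_injOn (fun S x => S (x, 0)) ?_ ?_
        · intro S hS
          simp only [Finset.coe_filter, Set.mem_ofPred_eq] at hS ⊢
          refine ⟨mem_Tab.2 fun y hy => mem_Tab.1 hS.1 (y, 0) ?_, hS.2.1⟩
          simpa using hy
        · intro S hS S' hS' h
          simp only [Finset.coe_filter, Set.mem_ofPred_eq] at hS hS'
          funext c
          by_cases hcm : c ∈ (dm w).image (fun x => (x, 0))
          · simp only [Finset.mem_image] at hcm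
            obtain ⟨y, hy, rfl⟩ := hcm
            exact congrFun h y
          · rw [mem_Tab.1 hS.1 c hcm, mem_Tab.1 hS'.1 c hcm]
      · rw [Finset.filter_false_of_mem]
        · simp
        · intro S hS hcon
          apply hc
          rw [← hsh S hS]
          exact hcon.2
    refine (Finset.sum_le_sum h1).trans ?_
    rw [← Finset.sum_filter, Finset.sum_const, nsmul_eq_mul]
    have h2 : (((Tab B T₀).filter fun T => Cons dm viol l (sh dm w T)).card : ℝ) ≤
        p ^ l.length * (k : ℝ) ^ (cells dm l).card := by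
      refine le_trans ?_ (ih (fun u hu => hl u (List.mem_cons_of_mem _ hu)) (sh dm w T₀))
      rw [Nat.cast_le]
      refine Finset.card_le_card_of_injOn (fun T => sh dm w T) ?_ ?_
      · intro T hT
        simp only [Finset.coe_filter, Set.mem_ofPred_eq] at hT ⊢
        refine ⟨mem_Tab.2 fun c hc => ?_, hT.2⟩
        simp only [sh]
        apply mem_Tab.1 hT.1
        rw [hB, Finset.mem_image]
        rintro ⟨c', hc', h3⟩
        exact hc ((shift_inj w h3) ▸ hc')
      · intro T hT T' hT' h
        simp only [Finset.coe_filter, Set.mem_ofPred_eq] at hT hT'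
        funext c
        by_cases hcm : c ∈ B
        · rw [hB, Finset.mem_image] at hcm
          obtain ⟨c', hc', rfl⟩ := hcm
          exact congrFun h c'
        · rw [mem_Tab.1 hT.1 c hcm, mem_Tab.1 hT'.1 c hcm]
    calc _ ≤ (p ^ l.length * (k : ℝ) ^ (cells dm l).card) * (p * (k : ℝ) ^ (dm w).card) :=
          mul_le_mul_of_nonneg_right h2 (by positivity)
      _ = _ := by rw [List.length_cons, pow_succ, pow_add]; ring

theorem lay_lt {w : V} {l : List V} {q : ℕ × V} (hq : q ∈ Lay dm l) (hm : meets dm w q.2) :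
    q.1 < ((Lay dm l).filter (fun q => meets dm w q.2)).sup (fun q => q.1 + 1) := by
  have h1 : q ∈ (Lay dm l).filter (fun q => meets dm w q.2) := Finset.mem_filter.2 ⟨hq, hm⟩
  exact Finset.le_sup (f := fun q : ℕ × V => q.1 + 1) h1

theorem lay_notMem {w : V} (hw : (dm w).Nonempty) (l : List V) :
    (((Lay dm l).filter (fun q => meets dm w q.2)).sup (fun q => q.1 + 1), w) ∉ Lay dm l := by
  intro h
  exact lt_irrefl _ (lay_lt h (meets_refl hw))

theorem lay_card {l : List V} (hne : ∀ u ∈ l, (dm u).Nonempty) :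
    (Lay dm l).card = l.length := by
  induction l with
  | nil => simp [Lay]
  | cons w l ih =>
    rw [Lay, Finset.card_insert_of_notMem (lay_notMem (hne w (by simp)) l),
      ih fun u hu => hne u (List.mem_cons_of_mem _ hu), List.length_cons]

theorem lay_mem {l : List V} {q : ℕ × V} (hq : q ∈ Lay dm l) : q.2 ∈ l := by
  induction l with
  | nil => simp [Lay] at hq
  | cons w l ih =>
    rw [Lay, Finset.mem_insert] at hq
    rcases hq with rfl | hq
    · simp
    · exact List.mem_cons_of_mem _ (ih hq)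

theorem mem_lay {l : List V} {u : V} (hu : u ∈ l) : ∃ j, (j, u) ∈ Lay dm l := by
  induction l with
  | nil => simp at hu
  | cons w l ih =>
    rw [List.mem_cons] at hu
    rcases hu with rfl | hu
    · exact ⟨_, Finset.mem_insert_self _ _⟩
    · obtain ⟨j, hj⟩ := ih hu
      exact ⟨j, Finset.mem_insert_of_mem hj⟩

theorem lay_fst {l : List V} {q : ℕ × V} (hq : q ∈ Lay dm l) : q.1 < l.length := by
  induction l generalizing q with
  | nil => simp [Lay] at hq
  | cons w l ih =>
    rw [Lay, Finset.mem_insert] at hq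
    rw [List.length_cons]
    rcases hq with rfl | hq
    · refine Nat.lt_succ_of_le (Finset.sup_le fun q hq => ?_)
      exact ih (Finset.mem_filter.1 hq).1
    · exact (ih hq).trans (Nat.lt_succ_self _)

theorem lay_zero {v : V} {l : List V} (h : Pyr dm v l) (u : V) :
    (0, u) ∈ Lay dm l ↔ u = v := by
  induction l with
  | nil => exact h.elim
  | cons w l ih =>
    rw [Lay, Finset.mem_insert]
    rcases h with ⟨rfl, rfl⟩ | ⟨h1, u', hu', hm⟩
    · simp [Lay]
    · rw [ih h1]
      constructor
      · rintro (h2 | h2)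
        · exfalso
          rw [Prod.mk.injEq] at h2
          obtain ⟨j, hj⟩ := mem_lay (dm := dm) hu'
          have := lay_lt hj hm
          rw [← h2.1] at this
          omega
        · exact h2
      · exact Or.inr

theorem lay_succ {l : List V} {j : ℕ} {u : V} (hu : (j + 1, u) ∈ Lay dm l) :
    ∃ u', (j, u') ∈ Lay dm l ∧ meets dm u u' := by
  induction l with
  | nil => simp [Lay] at hu
  | cons w l ih =>
    rw [Lay, Finset.mem_insert] at hu
    rcases hu with hu | hu
    · rw [Prod.mk.injEq] at hu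
      obtain ⟨h1, rfl⟩ := hu
      have hne : ((Lay dm l).filter (fun q => meets dm u q.2)).Nonempty := by
        by_contra hcon
        rw [Finset.not_nonempty_iff_eq_empty] at hcon
        rw [hcon] at h1
        simp at h1
      obtain ⟨q, hq, hq2⟩ := Finset.exists_mem_eq_sup _ hne (fun q : ℕ × V => q.1 + 1)
      rw [hq2] at h1
      rw [Finset.mem_filter] at hq
      refine ⟨q.2, Finset.mem_insert_of_mem ?_, hq.2⟩
      have : j = q.1 := by omega
      rw [this]; exact hq.1
    · obtain ⟨u', h1, h2⟩ := ih hu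
      exact ⟨u', Finset.mem_insert_of_mem h1, h2⟩

theorem cons_iff_lcons (hloc : ∀ v f g, (∀ x ∈ dm v, f x = g x) → (viol v f ↔ viol v g))
    {l : List V} (hne : ∀ u ∈ l, (dm u).Nonempty) (T : X × ℕ → Fin k) :
    Cons dm viol l T ↔ LCons dm viol (Lay dm l) T := by
  induction l generalizing T with
  | nil => simp [Cons, LCons, Lay]
  | cons w l ih =>
    have hne' : ∀ u ∈ l, (dm u).Nonempty := fun u hu => hne u (List.mem_cons_of_mem _ hu)
    obtain ⟨h, hh⟩ : ∃ h, h = ((Lay dm l).filter (fun q => meets dm w q.2)).sup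
        (fun q => q.1 + 1) := ⟨_, rfl⟩
    have hlt : ∀ q ∈ Lay dm l, meets dm w q.2 → q.1 < h := by
      intro q hq hm
      rw [hh]; exact lay_lt hq hm
    have hnm : (h, w) ∉ Lay dm l := by
      rw [hh]; exact lay_notMem (hne w (by simp)) l
    have e : Lay dm (w :: l) = insert (h, w) (Lay dm l) := by rw [Lay, hh]
    rw [e]
    simp only [Cons, ih hne', LCons, Finset.forall_mem_insert]
    refine and_congr (hloc _ _ _ fun x hx => ?_) (forall₂_congr fun q hq =>
      hloc _ _ _ fun x hx => ?_)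
    · have : (insert (h, w) (Lay dm l)).filter (fun q' => h < q'.1 ∧ x ∈ dm q'.2) = ∅ := by
        rw [Finset.filter_eq_empty_iff]
        intro q hq
        rw [Finset.mem_insert] at hq
        rintro ⟨h1, h2⟩
        rcases hq with rfl | hq
        · exact lt_irrefl _ h1
        · exact lt_asymm h1 (hlt q hq ⟨x, hx, h2⟩)
      simp only [this, Finset.card_empty]
    · simp only [sh]
      congr 2
      rw [Finset.filter_insert]
      by_cases hxw : x ∈ dm w
      · have h1 : q.1 < h := hlt q hq ⟨x, hxw, hx⟩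
        rw [if_pos ⟨h1, hxw⟩, Finset.card_insert_of_notMem]
        · simp [ix, hxw]
        · intro hc
          exact hnm (Finset.mem_filter.1 hc).1
      · rw [if_neg fun hc => hxw hc.2]
        simp [ix, hxw]

/-- the structure one layer down. -/
noncomputable def dn (S : Finset (ℕ × V)) : Finset (ℕ × V) :=
  (S.filter (fun q => q.1 ≠ 0)).image (fun q => (q.1 - 1, q.2))

theorem mem_dn {S : Finset (ℕ × V)} {j : ℕ} {u : V} : (j, u) ∈ dn S ↔ (j + 1, u) ∈ S := by
  simp only [dn, Finset.mem_image, Finset.mem_filter, Prod.mk.injEq, Prod.exists]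
  constructor
  · rintro ⟨i, w, ⟨h1, h2⟩, h3, rfl⟩
    have : j + 1 = i := by omega
    rw [this]; exact h1
  · intro h
    exact ⟨j + 1, u, ⟨h, by omega⟩, by omega, rfl⟩

theorem card_dn {S : Finset (ℕ × V)} {I : Finset V} (hI : ∀ u, (0, u) ∈ S ↔ u ∈ I) :
    S.card = I.card + (dn S).card := by
  have h1 : S.filter (fun q => q.1 = 0) = I.image (fun u => (0, u)) := by
    ext ⟨j, u⟩
    simp only [Finset.mem_filter, Finset.mem_image, Prod.mk.injEq]
    constructor
    · rintro ⟨h1, rfl⟩
      exact ⟨u, (hI u).1 h1, rfl, rfl⟩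
    · rintro ⟨u', h1, rfl, rfl⟩
      exact ⟨(hI u').2 h1, rfl⟩
  have h2 : (dn S).card = (S.filter (fun q => q.1 ≠ 0)).card := by
    rw [dn, Finset.card_image_of_injOn]
    rintro ⟨i, u⟩ h1 ⟨j, w⟩ h2 h3
    simp only [Finset.coe_filter, Set.mem_ofPred_eq, Prod.mk.injEq] at h1 h2 h3 ⊢
    exact ⟨by omega, h3.2⟩
  have h3 : I.card = (S.filter (fun q => q.1 = 0)).card := by
    rw [h1, Finset.card_image_of_injective]
    intro x y h
    simpa using h
  rw [h2, h3, Finset.card_filter_add_card_filter_not]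

/-- the weighted count of layered structures. -/
theorem lay_sum {𝓑 : Set V} {d : ℕ}
    (hdeg : ∀ I : Finset V, (∀ v ∈ I, v ∈ 𝓑) → ∃ J : Finset V, J.card ≤ (d + 1) * I.card ∧
      ∀ w ∈ 𝓑, ∀ v ∈ I, meets dm w v → w ∈ J) {w s : ℝ} (hw : 0 ≤ w) (hs : 0 ≤ s)
    (hws : w * (1 + s) ^ (d + 1) ≤ s) (h : ℕ) (I : Finset V) (hI : ∀ v ∈ I, v ∈ 𝓑)
    (𝓢 : Finset (Finset (ℕ × V))) (h1 : ∀ S ∈ 𝓢, ∀ u, (0, u) ∈ S ↔ u ∈ I)
    (h2 : ∀ S ∈ 𝓢, ∀ q ∈ S, q.1 ≤ h) (h3 : ∀ S ∈ 𝓢, ∀ q ∈ S, q.2 ∈ 𝓑)
    (h4 : ∀ S ∈ 𝓢, ∀ j u, (j + 1, u) ∈ S → ∃ u', (j, u') ∈ S ∧ meets dm u u') :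
    ∑ S ∈ 𝓢, w ^ S.card ≤ s ^ I.card := by
  have hws' : w ≤ s := by
    refine le_trans (le_mul_of_one_le_right hw ?_) hws
    exact one_le_pow₀ (by linarith)
  induction h generalizing I 𝓢 with
  | zero =>
    have hS : ∀ S ∈ 𝓢, S = I.image (fun u => (0, u)) := by
      intro S hS
      ext ⟨j, u⟩
      simp only [Finset.mem_image, Prod.mk.injEq]
      constructor
      · intro h
        have : j = 0 := by
          have := h2 S hS _ h
          simpa using this
        subst this
        exact ⟨u, (h1 S hS u).1 h, rfl, rfl⟩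
      · rintro ⟨u', h, rfl, rfl⟩
        exact (h1 S hS u').2 h
    have hsub : 𝓢 ⊆ {I.image (fun u => (0, u))} := by
      intro S hS'
      rw [Finset.mem_singleton]
      exact hS S hS'
    calc ∑ S ∈ 𝓢, w ^ S.card ≤ ∑ S ∈ {I.image (fun u => ((0 : ℕ), u))}, w ^ S.card :=
          Finset.sum_le_sum_of_subset_of_nonneg hsub fun _ _ _ => by positivity
      _ = w ^ I.card := by
          rw [Finset.sum_singleton, Finset.card_image_of_injective]
          intro x y h
          simpa using h
      _ ≤ s ^ I.card := pow_le_pow_left₀ hw hws' _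
  | succ h ih =>
    obtain ⟨J, hJ1, hJ2⟩ := hdeg I hI
    obtain ⟨top, htop⟩ : ∃ top : Finset (ℕ × V) → Finset V, ∀ S u, u ∈ top S ↔ (1, u) ∈ S :=
      ⟨fun S => (S.filter (fun q => q.1 = 1)).image Prod.snd, fun S u => by
        simp only [Finset.mem_image, Finset.mem_filter, Prod.exists]
        constructor
        · rintro ⟨a, b, ⟨h1, rfl⟩, rfl⟩; exact h1
        · intro h; exact ⟨1, u, ⟨h, rfl⟩, rfl⟩⟩
    have hmaps : ∀ S ∈ 𝓢, top S ∈ J.powerset := by
      intro S hS
      rw [Finset.mem_powerset]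
      intro u hu
      rw [htop] at hu
      obtain ⟨u', h5, h6⟩ := h4 S hS 0 u hu
      exact hJ2 u (h3 S hS _ hu) u' ((h1 S hS u').1 h5) h6
    rw [← Finset.sum_fiberwise_of_maps_to hmaps]
    have hfib : ∀ t ∈ J.powerset, ∑ S ∈ 𝓢.filter (fun S => top S = t), w ^ S.card ≤
        w ^ I.card * s ^ t.card := by
      intro t _
      by_cases hemp : 𝓢.filter (fun S => top S = t) = ∅
      · rw [hemp, Finset.sum_empty]; positivity
      have htB : ∀ v ∈ t, v ∈ 𝓑 := by
        obtain ⟨S, hS⟩ := Finset.nonempty_iff_ne_empty.2 hemp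
        rw [Finset.mem_filter] at hS
        intro v hv
        rw [← hS.2, htop] at hv
        exact h3 S hS.1 _ hv
      have hinj : Set.InjOn dn ((𝓢.filter (fun S => top S = t) : Finset _) :
          Set (Finset (ℕ × V))) := by
        intro S hS S' hS' hdn
        simp only [Finset.coe_filter, Set.mem_ofPred_eq] at hS hS'
        ext ⟨j, u⟩
        rcases j with _ | j
        · rw [h1 S hS.1, h1 S' hS'.1]
        · rw [← mem_dn, ← mem_dn, hdn]
      have e1 : ∑ S ∈ 𝓢.filter (fun S => top S = t), w ^ S.card =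
          w ^ I.card * ∑ S' ∈ (𝓢.filter (fun S => top S = t)).image dn, w ^ S'.card := by
        rw [Finset.sum_image hinj, Finset.mul_sum]
        refine Finset.sum_congr rfl fun S hS => ?_
        rw [Finset.mem_filter] at hS
        rw [card_dn (h1 S hS.1), pow_add]
      rw [e1]
      refine mul_le_mul_of_nonneg_left ?_ (by positivity)
      refine ih t htB _ ?_ ?_ ?_ ?_
      · intro S' hS' u
        rw [Finset.mem_image] at hS'
        obtain ⟨S, hS, rfl⟩ := hS'
        rw [Finset.mem_filter] at hS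
        rw [mem_dn, ← hS.2, htop]
      · rintro S' hS' ⟨j, u⟩ hq
        rw [Finset.mem_image] at hS'
        obtain ⟨S, hS, rfl⟩ := hS'
        rw [Finset.mem_filter] at hS
        rw [mem_dn] at hq
        have := h2 S hS.1 _ hq
        simpa using this
      · rintro S' hS' ⟨j, u⟩ hq
        rw [Finset.mem_image] at hS'
        obtain ⟨S, hS, rfl⟩ := hS'
        rw [Finset.mem_filter] at hS
        rw [mem_dn] at hq
        exact h3 S hS.1 (j + 1, u) hq
      · intro S' hS' j u hu
        rw [Finset.mem_image] at hS'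
        obtain ⟨S, hS, rfl⟩ := hS'
        rw [Finset.mem_filter] at hS
        rw [mem_dn] at hu
        obtain ⟨u', h5, h6⟩ := h4 S hS.1 (j + 1) u hu
        exact ⟨u', mem_dn.2 h5, h6⟩
    calc _ ≤ ∑ t ∈ J.powerset, w ^ I.card * s ^ t.card := Finset.sum_le_sum hfib
      _ = w ^ I.card * (1 + s) ^ J.card := by
          rw [← Finset.mul_sum]
          congr 1
          have := Finset.sum_pow_mul_eq_add_pow s 1 J
          simp only [one_pow, mul_one] at this
          rw [this, add_comm]
      _ ≤ w ^ I.card * (1 + s) ^ ((d + 1) * I.card) := by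
          refine mul_le_mul_of_nonneg_left ?_ (by positivity)
          exact pow_le_pow_right₀ (by linarith) hJ1
      _ = (w * (1 + s) ^ (d + 1)) ^ I.card := by rw [pow_mul, mul_pow]
      _ ≤ s ^ I.card := pow_le_pow_left₀ (by positivity) hws _

/-- The probability that there is a legal pyramid among a finite set of long ones. -/
theorem pyr_prob (hloc : ∀ v f g, (∀ x ∈ dm v, f x = g x) → (viol v f ↔ viol v g))
    {𝓑 : Set V} (hne : ∀ v ∈ 𝓑, (dm v).Nonempty) {d : ℕ}
    (hdeg : ∀ I : Finset V, (∀ v ∈ I, v ∈ 𝓑) → ∃ J : Finset V, J.card ≤ (d + 1) * I.card ∧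
      ∀ w ∈ 𝓑, ∀ v ∈ I, meets dm w v → w ∈ J) {w s p g : ℝ} (hw : 0 ≤ w) (hs : 0 ≤ s)
    (hp : 0 ≤ p) (hg0 : 0 ≤ g) (hg1 : g ≤ 1)
    (hws : w * (1 + s) ^ (d + 1) ≤ s) (A N : ℕ) (hpw : p ≤ w * g ^ A)
    (hviol : ∀ w ∈ 𝓑, ∀ f₀, (((Tab (dm w) f₀).filter (viol w)).card : ℝ) ≤
      p * (k : ℝ) ^ (dm w).card) (v : V) (hv : v ∈ 𝓑) (L : Finset (List V))
    (D : Finset (X × ℕ))
    (hL : ∀ l ∈ L, Pyr dm v l ∧ (∀ u ∈ l, u ∈ 𝓑) ∧ N ≤ A * l.length ∧ cells dm l ⊆ D)
    (T₀ : X × ℕ → Fin k) :
    (((Tab D T₀).filter fun T => ∃ l ∈ L, Cons dm viol l T).card : ℝ) ≤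
      (s * g ^ N) * (k : ℝ) ^ D.card := by
  have hsub : (Tab D T₀).filter (fun T => ∃ l ∈ L, Cons dm viol l T) ⊆
      (L.image (Lay dm)).biUnion fun S => (Tab D T₀).filter fun T => LCons dm viol S T := by
    intro T hT
    rw [Finset.mem_filter] at hT
    obtain ⟨h1, l, h2, h3⟩ := hT
    rw [Finset.mem_biUnion]
    refine ⟨Lay dm l, Finset.mem_image_of_mem _ h2, Finset.mem_filter.2 ⟨h1, ?_⟩⟩
    exact (cons_iff_lcons hloc (fun u hu => hne u ((hL l h2).2.1 u hu)) T).1 h3
  have hone : ∀ S ∈ L.image (Lay dm), (((Tab D T₀).filter fun T => LCons dm viol S T).card : ℝ) ≤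
      (w ^ S.card * g ^ N) * (k : ℝ) ^ D.card := by
    intro S hS
    rw [Finset.mem_image] at hS
    obtain ⟨l, hl, rfl⟩ := hS
    obtain ⟨h1, h2, h3, h4⟩ := hL l hl
    have hnel : ∀ u ∈ l, (dm u).Nonempty := fun u hu => hne u (h2 u hu)
    have e1 : (Tab D T₀).filter (fun T => LCons dm viol (Lay dm l) T) =
        (Tab D T₀).filter (Cons dm viol l) := by
      apply Finset.filter_congr
      intro T _
      exact (cons_iff_lcons hloc hnel T).symm
    rw [e1, card_Tab_extra' h4 T₀ (Cons dm viol l), lay_card hnel]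
    · push_cast
      have h5 := cons_card hp hviol l h2 T₀
      have h6 : p ^ l.length ≤ w ^ l.length * g ^ N := by
        calc p ^ l.length ≤ (w * g ^ A) ^ l.length := pow_le_pow_left₀ hp hpw _
          _ = w ^ l.length * g ^ (A * l.length) := by rw [mul_pow, pow_mul]
          _ ≤ w ^ l.length * g ^ N :=
            mul_le_mul_of_nonneg_left (pow_le_pow_of_le_one hg0 hg1 h3) (by positivity)
      calc (((Tab (cells dm l) T₀).filter (Cons dm viol l)).card : ℝ) *
            (k : ℝ) ^ (D.card - (cells dm l).card)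
          ≤ (p ^ l.length * (k : ℝ) ^ (cells dm l).card) *
            (k : ℝ) ^ (D.card - (cells dm l).card) :=
            mul_le_mul_of_nonneg_right h5 (by positivity)
        _ = p ^ l.length * (k : ℝ) ^ D.card := by
            rw [mul_assoc, ← pow_add, Nat.add_sub_cancel' (Finset.card_le_card h4)]
        _ ≤ _ := mul_le_mul_of_nonneg_right h6 (by positivity)
    · intro T T' hTT'
      apply cons_congr hloc
      intro x r hr
      exact hTT' _ fun _ => mem_cells.2 hr
  have hsum : ∑ S ∈ L.image (Lay dm), w ^ S.card ≤ s := by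
    have := lay_sum hdeg hw hs hws (L.sup fun l => l.length) {v} (by simpa using hv)
      (L.image (Lay dm)) ?_ ?_ ?_ ?_
    · simpa using this
    · intro S hS u
      rw [Finset.mem_image] at hS
      obtain ⟨l, hl, rfl⟩ := hS
      rw [lay_zero (hL l hl).1, Finset.mem_singleton]
    · intro S hS q hq
      rw [Finset.mem_image] at hS
      obtain ⟨l, hl, rfl⟩ := hS
      exact (lay_fst hq).le.trans (Finset.le_sup (f := fun l : List V => l.length) hl)
    · intro S hS q hq
      rw [Finset.mem_image] at hS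
      obtain ⟨l, hl, rfl⟩ := hS
      exact (hL l hl).2.1 _ (lay_mem hq)
    · intro S hS j u hu
      rw [Finset.mem_image] at hS
      obtain ⟨l, hl, rfl⟩ := hS
      exact lay_succ hu
  calc (((Tab D T₀).filter fun T => ∃ l ∈ L, Cons dm viol l T).card : ℝ)
      ≤ (((L.image (Lay dm)).biUnion fun S =>
        (Tab D T₀).filter fun T => LCons dm viol S T).card : ℝ) :=
        Nat.cast_le.2 (Finset.card_le_card hsub)
    _ ≤ ∑ S ∈ L.image (Lay dm), (((Tab D T₀).filter fun T => LCons dm viol S T).card : ℝ) := by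
        exact_mod_cast Finset.card_biUnion_le
    _ ≤ ∑ S ∈ L.image (Lay dm), (w ^ S.card * g ^ N) * (k : ℝ) ^ D.card :=
        Finset.sum_le_sum hone
    _ = (∑ S ∈ L.image (Lay dm), w ^ S.card) * g ^ N * (k : ℝ) ^ D.card := by
        rw [← Finset.sum_mul, ← Finset.sum_mul]
    _ ≤ _ := by
        refine mul_le_mul_of_nonneg_right (mul_le_mul_of_nonneg_right hsum ?_) ?_ <;> positivity

end

end Pool.Agent.Helper105
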