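import Mathlib
import Pool.Agent.Helper105_Tree.Enum
import Pool.Agent.Helper105_Tree.Fin
import Pool.Agent.Helper105_Sub.Pyr

set_option autoImplicit false

namespace Pool.Agent.Helper105

open MeasureTheory Set
open scoped Classical

section comb
variable {X V : Type*} {k : ℕ} {dm : V → Finset X} {viol : V → (X → Fin k) → Prop}

/-- rows of the run: at step `t` all violated members of `𝓑` of colour `σ t` are resampled. -/
noncomputable def rows (dm : V → Finset X) (viol : V → (X → Fin k) → Prop) (𝓑 : Set V)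
    (c : V → ℕ) (T : X × ℕ → Fin k) : ℕ → X → ℕ
  | 0 => fun _ => 0
  | t + 1 => fun x => rows dm viol 𝓑 c T t x +
      if ∃ v, (v ∈ 𝓑 ∧ x ∈ dm v) ∧ c v = (Nat.unpair t).1 ∧
        viol v (fun y => T (y, rows dm viol 𝓑 c T t y)) then 1 else 0

variable (hloc : ∀ v f g, (∀ x ∈ dm v, f x = g x) → (viol v f ↔ viol v g))

include hloc in
theorem cons_disjoint {m : List V} (hm : m.Pairwise fun u w => ¬ meets dm u w)
    {S : X × ℕ → Fin k} (hS : ∀ u ∈ m, viol u (fun x => S (x, 0))) : Cons dm viol m S := by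
  induction m generalizing S with
  | nil => simp [Cons]
  | cons w m ih =>
    rw [List.pairwise_cons] at hm
    refine ⟨hS w (by simp), ih hm.2 fun u hu => ?_⟩
    refine (hloc u _ _ fun x hx => ?_).1 (hS u (List.mem_cons_of_mem _ hu))
    have : x ∉ dm w := fun hxw => hm.1 u hu ⟨x, hxw, hx⟩
    simp [sh, ix, this]

theorem cnt_disjoint {m : List V} (hm : m.Pairwise fun u w => ¬ meets dm u w) (x : X) :
    cnt' dm m x = if ∃ u ∈ m, x ∈ dm u then 1 else 0 := by
  induction m with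
  | nil => simp [cnt']
  | cons w m ih =>
    rw [List.pairwise_cons] at hm
    simp only [cnt', ih hm.2, ix]
    by_cases hx : x ∈ dm w
    · have h1 : ¬ ∃ u ∈ m, x ∈ dm u := by
        rintro ⟨u, hu, hxu⟩
        exact hm.1 u hu ⟨x, hx, hxu⟩
      have h2 : ∃ u ∈ w :: m, x ∈ dm u := ⟨w, by simp, hx⟩
      rw [if_pos hx, if_neg h1, if_pos h2]
    · by_cases h1 : ∃ u ∈ m, x ∈ dm u
      · have h2 : ∃ u ∈ w :: m, x ∈ dm u := by
          obtain ⟨u, hu, hxu⟩ := h1
          exact ⟨u, List.mem_cons_of_mem _ hu, hxu⟩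
        rw [if_neg hx, if_pos h1, if_pos h2]
      · have h2 : ¬ ∃ u ∈ w :: m, x ∈ dm u := by
          rintro ⟨u, hu, hxu⟩
          rw [List.mem_cons] at hu
          rcases hu with rfl | hu
          · exact hx hxu
          · exact h1 ⟨u, hu, hxu⟩
        rw [if_neg hx, if_neg h1, if_neg h2]

include hloc in
theorem exists_log {𝓑 : Set V} (hfin : ∀ x, {v | v ∈ 𝓑 ∧ x ∈ dm v}.Finite) {c : V → ℕ}
    (hc : ∀ u ∈ 𝓑, ∀ v ∈ 𝓑, u ≠ v → meets dm u v → c u ≠ c v) (T : X × ℕ → Fin k) (t : ℕ)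
    (A : Finset X) : ∃ l : List V, (∀ u ∈ l, u ∈ 𝓑) ∧ Cons dm viol l T ∧
      ∀ x ∈ A, cnt' dm l x = rows dm viol 𝓑 c T t x := by
  induction t generalizing A with
  | zero => exact ⟨[], by simp, by simp [Cons], fun x _ => by simp [cnt', rows]⟩
  | succ t ih =>
    obtain ⟨ft, hft⟩ : ∃ ft : X → Fin k, ft = fun y => T (y, rows dm viol 𝓑 c T t y) := ⟨_, rfl⟩
    have hEf : {u | (u ∈ 𝓑 ∧ c u = (Nat.unpair t).1 ∧ viol u ft) ∧ ∃ x ∈ A, x ∈ dm u}.Finite := by
      refine (A.finite_toSet.biUnion (t := fun x => {v | v ∈ 𝓑 ∧ x ∈ dm v})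
        fun x _ => hfin x).subset ?_
      rintro u ⟨h1, x, h2, h3⟩
      simp only [mem_iUnion]
      exact ⟨x, h2, h1.1, h3⟩
    obtain ⟨E, hE⟩ : ∃ E : Finset V, ∀ u, u ∈ E ↔
        (u ∈ 𝓑 ∧ c u = (Nat.unpair t).1 ∧ viol u ft) ∧ ∃ x ∈ A, x ∈ dm u :=
      ⟨hEf.toFinset, fun u => by simp⟩
    obtain ⟨l', h1, h2, h3⟩ := ih (A ∪ E.biUnion dm)
    have hpw : E.toList.Pairwise fun u w => ¬ meets dm u w := by
      have hnd := E.nodup_toList
      refine List.Pairwise.imp_of_mem ?_ hnd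
      intro u w hu hw hne hm
      rw [Finset.mem_toList, hE] at hu hw
      exact hc u hu.1.1 w hw.1.1 hne hm (hu.1.2.1.trans hw.1.2.1.symm)
    refine ⟨l' ++ E.toList, ?_, ?_, ?_⟩
    · intro u hu
      rw [List.mem_append] at hu
      rcases hu with hu | hu
      · exact h1 u hu
      · rw [Finset.mem_toList, hE] at hu
        exact hu.1.1
    · rw [cons_append]
      refine ⟨h2, cons_disjoint hloc hpw fun u hu => ?_⟩
      rw [Finset.mem_toList] at hu
      refine (hloc u ft _ fun x hx => ?_).1 ((hE u).1 hu).1.2.2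
      simp only [shl, zero_add, hft]
      rw [h3 x (Finset.mem_union_right _ (Finset.mem_biUnion.2 ⟨u, hu, hx⟩))]
    · intro x hx
      rw [cnt_append, h3 x (Finset.mem_union_left _ hx), cnt_disjoint hpw]
      simp only [rows, ← hft]
      congr 1
      refine if_congr ?_ rfl rfl
      constructor
      · rintro ⟨u, hu, hxu⟩
        rw [Finset.mem_toList, hE] at hu
        exact ⟨u, ⟨hu.1.1, hxu⟩, hu.1.2⟩
      · rintro ⟨v, ⟨hv1, hv2⟩, hv3⟩
        refine ⟨v, ?_, hv2⟩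
        rw [Finset.mem_toList, hE]
        exact ⟨⟨hv1, hv3⟩, x, hx, hv2⟩

theorem cnt_past {v : V} {x : X} (hx : x ∈ dm v) (l : List V) :
    v ∈ past dm (· = v) (l ++ [v]) ∧
      cnt' dm (past dm (· = v) (l ++ [v])) x = cnt' dm (l ++ [v]) x := by
  induction l with
  | nil => simp [past]
  | cons w l ih =>
    rw [List.cons_append, past]
    split_ifs with hw
    · refine ⟨List.mem_cons_of_mem _ ih.1, ?_⟩
      simp only [cnt', ih.2]
    · refine ⟨ih.1, ?_⟩
      rw [not_or] at hw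
      have : x ∉ dm w := fun hxw => hw.2 ⟨v, ih.1, x, hxw, hx⟩
      simp only [cnt', ix, this, if_false, zero_add, ih.2]

include hloc in
theorem run_bound {𝓑 : Set V} (hne : ∀ v ∈ 𝓑, (dm v).Nonempty)
    (hfin : ∀ x, {v | v ∈ 𝓑 ∧ x ∈ dm v}.Finite) {c : V → ℕ}
    (hc : ∀ u ∈ 𝓑, ∀ v ∈ 𝓑, u ≠ v → meets dm u v → c u ≠ c v) (T : X × ℕ → Fin k) (t : ℕ)
    {v : V} (hv : v ∈ 𝓑) (hviol : viol v (fun y => T (y, rows dm viol 𝓑 c T t y))) :
    ∃ l : List V, Pyr dm v l ∧ (∀ u ∈ l, u ∈ 𝓑) ∧ Cons dm viol l T ∧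
      ∀ x ∈ dm v, rows dm viol 𝓑 c T t x + 1 ≤ l.length := by
  obtain ⟨l, h1, h2, h3⟩ := exists_log hloc hfin hc T t (dm v)
  have hC : Cons dm viol (l ++ [v]) T := by
    rw [cons_append]
    refine ⟨h2, ?_, trivial⟩
    refine (hloc v _ _ fun x hx => ?_).1 hviol
    simp only [shl, zero_add, h3 x hx]
  refine ⟨past dm (· = v) (l ++ [v]), past_pyr (hne v hv) (past_ne (by simp)), ?_,
    cons_past hloc hC, ?_⟩
  · intro u hu
    have := (past_sub (dm := dm) (· = v) (l ++ [v])).subset hu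
    rw [List.mem_append, List.mem_singleton] at this
    rcases this with h | rfl
    · exact h1 u h
    · exact hv
  · intro x hx
    have h4 := (cnt_past hx l).2
    have h5 := cnt_le (dm := dm) (past dm (· = v) (l ++ [v])) x
    rw [h4, cnt_append, h3 x hx] at h5
    simpa [cnt', ix, hx] using h5

end comb

section meas
variable {X V : Type*} [MeasurableSpace X] [StandardBorelSpace X] [MeasurableSpace V]
  [StandardBorelSpace V] {k : ℕ} {dm : V → Finset X} {viol : V → (X → Fin k) → Prop}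

theorem meets_meas (hdm : MeasurableSet {p : V × X | p.2 ∈ dm p.1}) :
    MeasurableSet {p : V × V | meets dm p.1 p.2} := by
  have e : {p : V × V | meets dm p.1 p.2} = {p | ∃ x, (p, x) ∈ {r : (V × V) × X |
      r.2 ∈ dm r.1.1 ∧ r.2 ∈ dm r.1.2}} := by
    ext ⟨u, v⟩
    rfl
  rw [e]
  refine proj (MeasurableSet.inter ?_ ?_) ?_
  · exact (by fun_prop : Measurable fun r : (V × V) × X => (r.1.1, r.2)) hdm
  · exact (by fun_prop : Measurable fun r : (V × V) × X => (r.1.2, r.2)) hdm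
  · rintro ⟨u, v⟩
    exact ((dm u).finite_toSet.subset fun x hx => hx.1).countable

theorem exists_evcolor {𝓑 : Set V} (h𝓑 : MeasurableSet 𝓑)
    (hdm : MeasurableSet {p : V × X | p.2 ∈ dm p.1})
    (hfin : ∀ x, {v | v ∈ 𝓑 ∧ x ∈ dm v}.Finite) :
    ∃ c : V → ℕ, Measurable c ∧ ∀ u ∈ 𝓑, ∀ v ∈ 𝓑, u ≠ v → meets dm u v → c u ≠ c v := by
  obtain ⟨A, hA1, hA2⟩ := exists_sep V
  obtain ⟨W, hW⟩ : ∃ W : V → V → Prop, ∀ u v, W u v ↔
      (meets dm u v ∧ v ∈ 𝓑) ∧ u ≠ v := ⟨_, fun _ _ => Iff.rfl⟩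
  have hWf : ∀ u, {v | W u v}.Finite := by
    intro u
    refine ((dm u).finite_toSet.biUnion (t := fun x => {v | v ∈ 𝓑 ∧ x ∈ dm v})
      fun x _ => hfin x).subset ?_
    intro v hv
    obtain ⟨⟨⟨x, h1, h2⟩, h3⟩, -⟩ := (hW u v).1 hv
    simp only [mem_iUnion]
    exact ⟨x, h1, h3, h2⟩
  have hWm : MeasurableSet {p : V × V | W p.1 p.2} := by
    have e : {p : V × V | W p.1 p.2} = ({p : V × V | meets dm p.1 p.2} ∩ Prod.snd ⁻¹' 𝓑) ∩
        {p : V × V | p.1 = p.2}ᶜ := by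
      ext ⟨u, v⟩
      simp only [mem_ofPred_eq, hW, mem_inter_iff, mem_preimage, mem_compl_iff]
    rw [e]
    exact ((meets_meas hdm).inter (measurable_snd h𝓑)).inter
      (measurableSet_eq_fun measurable_fst measurable_snd).compl
  have hex : ∀ u, ∃ i, u ∈ A i ∧ ∀ v, W u v → v ∉ A i := by
    intro u
    obtain ⟨i, h1, h2⟩ := hA2 (hWf u).toFinset u (by
      simp only [Finite.mem_toFinset, mem_ofPred_eq]
      intro h
      exact ((hW u u).1 h).2 rfl)
    exact ⟨i, h1, fun v hv => h2 v (by simpa using hv)⟩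
  refine ⟨fun u => Nat.find (hex u), measurable_find hex fun i => ?_, ?_⟩
  · have e : {u | u ∈ A i ∧ ∀ v, W u v → v ∉ A i} =
        A i ∩ {u | ∃ v, (u, v) ∈ {p : V × V | W p.1 p.2 ∧ p.2 ∈ A i}}ᶜ := by
      ext u
      simp only [mem_ofPred_eq, mem_inter_iff, mem_compl_iff, not_exists, not_and]
    rw [e]
    refine (hA1 i).inter (MeasurableSet.compl (proj ?_ ?_))
    · exact hWm.inter (measurable_snd (hA1 i))
    · intro u
      exact ((hWf u).subset fun v hv => hv.1).countable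
  · intro u hu v hv hne hm hcc
    simp only at hcc
    have h1 := Nat.find_spec (hex u)
    have h2 := Nat.find_spec (hex v)
    rw [hcc] at h1
    exact h1.2 v ((hW u v).2 ⟨⟨hm, hv⟩, hne⟩) h2.1

theorem rows_meas {𝓑 : Set V} (h𝓑 : MeasurableSet 𝓑)
    (hdm : MeasurableSet {p : V × X | p.2 ∈ dm p.1})
    (hfin : ∀ x, {v | v ∈ 𝓑 ∧ x ∈ dm v}.Finite)
    (hvm : ∀ f : X → Fin k, Measurable f → MeasurableSet {v | v ∈ 𝓑 ∧ viol v f})
    {c : V → ℕ} (hc : Measurable c) {T : X × ℕ → Fin k} (hT : Measurable T) (t : ℕ) :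
    Measurable (rows dm viol 𝓑 c T t) := by
  induction t with
  | zero => exact measurable_const
  | succ t ih =>
    obtain ⟨ft, hft⟩ : ∃ ft : X → Fin k, ft = fun y => T (y, rows dm viol 𝓑 c T t y) := ⟨_, rfl⟩
    have hftm : Measurable ft := by
      rw [hft]; exact hT.comp (measurable_id.prodMk ih)
    have e : rows dm viol 𝓑 c T (t + 1) = fun x => rows dm viol 𝓑 c T t x +
      if ∃ v, (v ∈ 𝓑 ∧ x ∈ dm v) ∧ c v = (Nat.unpair t).1 ∧ viol v ft then 1 else 0 := by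
      funext x
      simp only [rows, hft]
    rw [e]
    refine ih.add (Measurable.ite ?_ measurable_const measurable_const)
    have e2 : {x | ∃ v, (v ∈ 𝓑 ∧ x ∈ dm v) ∧ c v = (Nat.unpair t).1 ∧ viol v ft} =
        {x | ∃ v, (x, v) ∈ {p : X × V | (p.2 ∈ 𝓑 ∧ viol p.2 ft) ∧ p.1 ∈ dm p.2 ∧
          c p.2 = (Nat.unpair t).1}} := by
      ext x
      simp only [mem_ofPred_eq]
      constructor
      · rintro ⟨v, ⟨h1, h2⟩, h3, h4⟩
        exact ⟨v, ⟨h1, h4⟩, h2, h3⟩
      · rintro ⟨v, ⟨h1, h4⟩, h2, h3⟩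
        exact ⟨v, ⟨h1, h2⟩, h3, h4⟩
    rw [e2]
    refine proj (MeasurableSet.inter ?_ (MeasurableSet.inter ?_ ?_)) fun x => ?_
    · exact measurable_snd (hvm ft hftm)
    · exact measurable_swap hdm
    · exact measurableSet_eq_fun (hc.comp measurable_snd) measurable_const
    · exact ((hfin x).subset fun v hv => ⟨hv.1.1, hv.2.1⟩).countable

/-- The Borel run of the resampling algorithm converges when all legal pyramids are bounded. -/
theorem run {𝓑 : Set V} (h𝓑 : MeasurableSet 𝓑)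
    (hdm : MeasurableSet {p : V × X | p.2 ∈ dm p.1})
    (hfin : ∀ x, {v | v ∈ 𝓑 ∧ x ∈ dm v}.Finite)
    (hvm : ∀ f : X → Fin k, Measurable f → MeasurableSet {v | v ∈ 𝓑 ∧ viol v f})
    (hloc : ∀ v f g, (∀ x ∈ dm v, f x = g x) → (viol v f ↔ viol v g))
    (hne : ∀ v ∈ 𝓑, (dm v).Nonempty) {T : X × ℕ → Fin k} (hT : Measurable T) (N : V → ℕ)
    (hN : ∀ v l, Pyr dm v l → (∀ u ∈ l, u ∈ 𝓑) → Cons dm viol l T → l.length ≤ N v) :
    ∃ f : X → Fin k, Measurable f ∧ ∀ v ∈ 𝓑, ¬ viol v f := by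
  obtain ⟨c, hcm, hc⟩ := exists_evcolor h𝓑 hdm hfin
  have hrm := rows_meas h𝓑 hdm hfin hvm hcm hT
  obtain ⟨r, hr⟩ : ∃ r, r = rows dm viol 𝓑 c T := ⟨_, rfl⟩
  have hstep : ∀ t x, r (t + 1) x = r t x + if ∃ v, (v ∈ 𝓑 ∧ x ∈ dm v) ∧
      c v = (Nat.unpair t).1 ∧ viol v (fun y => T (y, r t y)) then 1 else 0 := by
    intro t x
    simp only [hr, rows]
  have hb : ∀ t, ∀ v ∈ 𝓑, viol v (fun y => T (y, r t y)) → ∀ x ∈ dm v, r t x + 1 ≤ N v := by
    intro t v hv hvi x hx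
    rw [hr] at hvi
    obtain ⟨l, h1, h2, h3, h4⟩ := run_bound hloc hne hfin hc T t hv hvi
    rw [hr]
    exact (h4 x hx).trans (hN v l h1 h2 h3)
  rw [← hr] at hrm
  have hbd : ∀ x, ∃ M, ∀ t, r t x ≤ M := by
    intro x
    refine ⟨(hfin x).toFinset.sup N, fun t => ?_⟩
    induction t with
    | zero => rw [hr]; simp [rows]
    | succ t ih =>
      rw [hstep]
      split_ifs with h
      · obtain ⟨v, ⟨h1, h2⟩, -, h4⟩ := h
        have h5 := hb t v h1 h4 x h2
        have h6 : v ∈ (hfin x).toFinset := by simp [h1, h2]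
        exact h5.trans (Finset.le_sup (f := N) h6)
      · simpa using ih
  have hmono : ∀ x, Monotone fun t => r t x := by
    intro x
    refine monotone_nat_of_le_succ fun t => ?_
    rw [hstep]; omega
  have hst : ∀ x, ∃ m, (∃ t, r t x = m) ∧ ∀ t, r t x ≤ m := by
    intro x
    obtain ⟨M, hM⟩ := hbd x
    have hfinr : (range fun t => r t x).Finite :=
      (finite_Iic M).subset (by rintro _ ⟨t, rfl⟩; exact hM t)
    obtain ⟨m, ⟨t, ht⟩, hm⟩ := hfinr.exists_maximal (range_nonempty _)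
    refine ⟨m, ⟨t, ht⟩, fun t' => ?_⟩
    by_contra hcon
    push Not at hcon
    have := hm ⟨t', rfl⟩ hcon.le
    simp only at this
    omega
  choose ri hri1 hri2 using hst
  have hrim : Measurable ri := by
    refine measurable_to_countable' fun m => ?_
    have e : ri ⁻¹' {m} = (⋃ t, {x | r t x = m}) ∩ ⋂ t, {x | r t x ≤ m} := by
      ext x
      simp only [mem_preimage, mem_singleton_iff, mem_inter_iff, mem_iUnion, mem_iInter,
        mem_ofPred_eq]
      constructor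
      · rintro rfl
        exact ⟨hri1 x, hri2 x⟩
      · rintro ⟨⟨t, ht⟩, h2⟩
        obtain ⟨t', ht'⟩ := hri1 x
        refine le_antisymm ?_ ?_
        · rw [← ht']; exact h2 t'
        · rw [← ht]; exact hri2 x t
    rw [e]
    refine (MeasurableSet.iUnion fun t => ?_).inter (MeasurableSet.iInter fun t => ?_)
    · exact measurableSet_eq_fun (hrm t) measurable_const
    · exact measurableSet_le (hrm t) measurable_const
  refine ⟨fun x => T (x, ri x), hT.comp (measurable_id.prodMk hrim), fun v hv hvi => ?_⟩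
  choose tt htt using hri1
  obtain ⟨t₀, ht₀⟩ : ∃ t₀, ∀ x ∈ dm v, tt x ≤ t₀ :=
    ⟨(dm v).sup tt, fun x hx => Finset.le_sup (f := tt) hx⟩
  obtain ⟨t, ht1, ht2⟩ : ∃ t, t₀ ≤ t ∧ (Nat.unpair t).1 = c v :=
    ⟨Nat.pair (c v) t₀, Nat.right_le_pair _ _, by simp⟩
  have heq : ∀ x ∈ dm v, r t x = ri x := by
    intro x hx
    refine le_antisymm (hri2 x t) ?_
    rw [← htt x]
    exact hmono x ((ht₀ x hx).trans ht1)
  have hvi' : viol v (fun y => T (y, r t y)) := by
    refine (hloc v _ _ fun x hx => ?_).1 hvi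
    rw [heq x hx]
  obtain ⟨x, hx⟩ := hne v hv
  have h1 := hstep t x
  rw [if_pos ⟨v, ⟨hv, hx⟩, ht2.symm, hvi'⟩, heq x hx] at h1
  have h2 := hri2 x (t + 1)
  omega

end meas

end Pool.Agent.Helper105
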