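import Mathlib
import Pool.Agent.Helper105_Sub.Run

set_option autoImplicit false

namespace Pool.Agent.Helper105

open MeasureTheory Set
open scoped Classical

section comb
variable {X V : Type*} {dm : V → Finset X} {𝓑 : Set V}

/-- `w` is at distance at most `n` from `v`. -/
def Bl (dm : V → Finset X) (𝓑 : Set V) : ℕ → V → V → Prop
  | 0 => fun v w => w = v
  | n + 1 => fun v w => w ∈ 𝓑 ∧ ∃ u, Bl dm 𝓑 n v u ∧ meets dm w u

theorem bl_mem {n : ℕ} {v w : V} (hv : v ∈ 𝓑) (h : Bl dm 𝓑 n v w) : w ∈ 𝓑 := by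
  cases n with
  | zero => rw [Bl] at h; rw [h]; exact hv
  | succ n => exact h.1

theorem bl_trans {m n : ℕ} {u v w : V} (h1 : Bl dm 𝓑 m v u) (h2 : Bl dm 𝓑 n u w) :
    Bl dm 𝓑 (m + n) v w := by
  induction n generalizing w with
  | zero => rw [Bl] at h2; rw [h2]; exact h1
  | succ n ih =>
    obtain ⟨h3, z, h4, h5⟩ := h2
    exact ⟨h3, z, ih h4, h5⟩

theorem bl_one {v w : V} (hw : w ∈ 𝓑) (h : meets dm w v) : Bl dm 𝓑 1 v w :=
  ⟨hw, v, rfl, h⟩

theorem bl_symm {n : ℕ} {v w : V} (hv : v ∈ 𝓑) (h : Bl dm 𝓑 n v w) : Bl dm 𝓑 n w v := by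
  induction n generalizing w with
  | zero => rw [Bl] at h ⊢; exact h.symm
  | succ n ih =>
    obtain ⟨h1, u, h2, h3⟩ := h
    have h4 : Bl dm 𝓑 1 w u := bl_one (bl_mem hv h2) (meets_symm h3)
    have := bl_trans h4 (ih h2)
    rwa [Nat.add_comm] at this

theorem bl_mono (hne : ∀ v ∈ 𝓑, (dm v).Nonempty) {m n : ℕ} (hmn : m ≤ n) {v w : V}
    (hv : v ∈ 𝓑) (h : Bl dm 𝓑 m v w) : Bl dm 𝓑 n v w := by
  induction hmn with
  | refl => exact h
  | step _ ih =>
    have hw := bl_mem hv ih
    exact ⟨hw, w, ih, meets_refl (hne w hw)⟩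

theorem bl_fin (hfin : ∀ x, {v | v ∈ 𝓑 ∧ x ∈ dm v}.Finite) (n : ℕ) (v : V) :
    {w | Bl dm 𝓑 n v w}.Finite := by
  induction n with
  | zero => exact (finite_singleton v).subset fun w hw => hw
  | succ n ih =>
    refine (ih.biUnion (t := fun u => {w | w ∈ 𝓑 ∧ meets dm w u}) fun u _ => ?_).subset ?_
    · refine ((dm u).finite_toSet.biUnion (t := fun x => {w | w ∈ 𝓑 ∧ x ∈ dm w})
        fun x _ => hfin x).subset ?_
      rintro w ⟨h1, x, h2, h3⟩
      simp only [mem_iUnion]
      exact ⟨x, h3, h1, h2⟩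
    · rintro w ⟨h1, u, h2, h3⟩
      simp only [mem_iUnion]
      exact ⟨u, h2, h1, h3⟩

theorem pyr_bl (hne : ∀ v ∈ 𝓑, (dm v).Nonempty) {v : V} {l : List V} (h : Pyr dm v l)
    (hl : ∀ u ∈ l, u ∈ 𝓑) : ∀ u ∈ l, Bl dm 𝓑 l.length v u := by
  have hv : v ∈ 𝓑 := hl v (pyr_mem h)
  induction l with
  | nil => exact h.elim
  | cons w l ih =>
    have hl' : ∀ u ∈ l, u ∈ 𝓑 := fun u hu => hl u (List.mem_cons_of_mem _ hu)
    rcases h with ⟨rfl, rfl⟩ | ⟨h1, u', hu', hm⟩
    · intro u hu
      rw [List.mem_singleton] at hu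
      subst hu
      exact bl_mono hne (Nat.zero_le _) hv rfl
    · intro u hu
      rw [List.mem_cons] at hu
      rw [List.length_cons]
      rcases hu with rfl | hu
      · exact ⟨hl u (by simp), u', ih h1 hl' u' hu', hm⟩
      · exact bl_mono hne (Nat.le_succ _) hv (ih h1 hl' u hu)

end comb

section meas
universe u
variable {X V : Type u} [MeasurableSpace X] [StandardBorelSpace X] [MeasurableSpace V]
  [StandardBorelSpace V] {k : ℕ} {dm : V → Finset X} {viol : V → (X → Fin k) → Prop}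
  {𝓑 : Set V}

theorem bl_meas (h𝓑 : MeasurableSet 𝓑) (hdm : MeasurableSet {p : V × X | p.2 ∈ dm p.1})
    (hfin : ∀ x, {v | v ∈ 𝓑 ∧ x ∈ dm v}.Finite) (n : ℕ) :
    MeasurableSet {p : V × V | Bl dm 𝓑 n p.1 p.2} := by
  induction n with
  | zero => exact measurableSet_eq_fun measurable_snd measurable_fst
  | succ n ih =>
    have e : {p : V × V | Bl dm 𝓑 (n + 1) p.1 p.2} = Prod.snd ⁻¹' 𝓑 ∩
        {p | ∃ u, (p, u) ∈ {r : (V × V) × V | Bl dm 𝓑 n r.1.1 r.2 ∧ meets dm r.1.2 r.2}} := by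
      ext ⟨v, w⟩
      rfl
    rw [e]
    refine (measurable_snd h𝓑).inter (proj (MeasurableSet.inter ?_ ?_) ?_)
    · exact (by fun_prop : Measurable fun r : (V × V) × V => (r.1.1, r.2)) ih
    · exact (by fun_prop : Measurable fun r : (V × V) × V => (r.1.2, r.2)) (meets_meas hdm)
    · rintro ⟨v, w⟩
      exact ((bl_fin hfin n v).subset fun u hu => hu.1).countable

/-- the number of members at distance at most `n`. -/
noncomputable def be (dm : V → Finset X) (𝓑 : Set V) (n : ℕ) (v : V) : ℝ :=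
  ({w | Bl dm 𝓑 n v w}.ncard : ℝ)

theorem be_meas (h𝓑 : MeasurableSet 𝓑) (hdm : MeasurableSet {p : V × X | p.2 ∈ dm p.1})
    (hfin : ∀ x, {v | v ∈ 𝓑 ∧ x ∈ dm v}.Finite) (n : ℕ) : Measurable (be dm 𝓑 n) := by
  have e : be dm 𝓑 n = fun v => ∑ _w ∈ (bl_fin hfin n v).toFinset, (1 : ℝ) := by
    funext v
    rw [be, Set.ncard_eq_toFinset_card _ (bl_fin hfin n v)]
    simp
  rw [e]
  refine measurable_fsum (fun v => (bl_fin hfin n v).toFinset) ?_ (fun _ _ => (1 : ℝ))
    measurable_const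
  have e2 : {p : V × V | p.2 ∈ (bl_fin hfin n p.1).toFinset} =
      {p : V × V | Bl dm 𝓑 n p.1 p.2} := by
    ext p
    simp
  rw [e2]
  exact bl_meas h𝓑 hdm hfin n

theorem pyr_meas (hdm : MeasurableSet {p : V × X | p.2 ∈ dm p.1}) (m : ℕ) :
    MeasurableSet {p : V × (Fin m → V) | Pyr dm p.1 (List.ofFn p.2)} := by
  induction m with
  | zero =>
    have e : {p : V × (Fin 0 → V) | Pyr dm p.1 (List.ofFn p.2)} = ∅ := by
      ext p
      simp [Pyr]
    rw [e]; exact MeasurableSet.empty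
  | succ m ih =>
    have e : {p : V × (Fin (m + 1) → V) | Pyr dm p.1 (List.ofFn p.2)} =
        ({p | m = 0} ∩ {p | p.2 0 = p.1}) ∪
        (((fun p : V × (Fin (m + 1) → V) => (p.1, fun i : Fin m => p.2 i.succ)) ⁻¹'
          {p | Pyr dm p.1 (List.ofFn p.2)}) ∩
          ⋃ i : Fin m, (fun p : V × (Fin (m + 1) → V) => (p.2 0, p.2 i.succ)) ⁻¹'
            {p : V × V | meets dm p.1 p.2}) := by
      ext ⟨v, w⟩
      simp only [mem_ofPred_eq, List.ofFn_succ, Pyr, mem_union, mem_inter_iff, mem_preimage,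
        mem_iUnion]
      refine or_congr (and_congr ?_ Iff.rfl) (and_congr Iff.rfl ?_)
      · constructor
        · intro h
          have := congrArg List.length h
          simpa using this
        · rintro rfl
          simp
      · constructor
        · rintro ⟨u, hu, hm⟩
          rw [List.mem_ofFn] at hu
          obtain ⟨i, rfl⟩ := hu
          exact ⟨i, hm⟩
        · rintro ⟨i, hm⟩
          exact ⟨_, List.mem_ofFn.2 ⟨i, rfl⟩, hm⟩
    rw [e]
    refine ((MeasurableSet.const _).inter ?_).union (MeasurableSet.inter ?_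
      (MeasurableSet.iUnion fun i => ?_))
    · exact measurableSet_eq_fun ((measurable_pi_apply 0).comp measurable_snd) measurable_fst
    · refine (measurable_fst.prodMk (measurable_pi_lambda _ fun i => ?_)) ih
      exact (measurable_pi_apply i.succ).comp measurable_snd
    · exact (((measurable_pi_apply 0).comp measurable_snd).prodMk
        ((measurable_pi_apply i.succ).comp measurable_snd)) (meets_meas hdm)

theorem cons_meas (h𝓑 : MeasurableSet 𝓑) (hdm : MeasurableSet {p : V × X | p.2 ∈ dm p.1})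
    (hvm : ∀ (Z : Type u) [MeasurableSpace Z] [StandardBorelSpace Z] (f : Z → X → Fin k),
      Measurable (fun p : Z × X => f p.1 p.2) →
        MeasurableSet {p : Z × V | p.2 ∈ 𝓑 ∧ viol p.2 (f p.1)}) (m : ℕ) :
    ∀ (Z : Type u) [MeasurableSpace Z] [StandardBorelSpace Z] (T : Z → X × ℕ → Fin k),
      Measurable (fun p : Z × (X × ℕ) => T p.1 p.2) →
      MeasurableSet {p : Z × (Fin m → V) | (∀ i, p.2 i ∈ 𝓑) ∧
        Cons dm viol (List.ofFn p.2) (T p.1)} := by
  induction m with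
  | zero =>
    intro Z _ _ T hT
    have e : {p : Z × (Fin 0 → V) | (∀ i, p.2 i ∈ 𝓑) ∧
        Cons dm viol (List.ofFn p.2) (T p.1)} = univ := by
      ext p
      simp [Cons]
    rw [e]; exact MeasurableSet.univ
  | succ m ih =>
    intro Z _ _ T hT
    have hT' : Measurable fun p : (Z × V) × (X × ℕ) => sh dm p.1.2 (T p.1.1) p.2 := by
      have hix : Measurable fun p : (Z × V) × (X × ℕ) => ix dm p.1.2 p.2.1 := by
        refine Measurable.ite ?_ measurable_const measurable_const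
        exact (by fun_prop : Measurable fun p : (Z × V) × (X × ℕ) => (p.1.2, p.2.1)) hdm
      have : Measurable fun p : (Z × V) × (X × ℕ) =>
          (p.1.1, (p.2.1, p.2.2 + ix dm p.1.2 p.2.1)) :=
        (measurable_fst.comp measurable_fst).prodMk ((measurable_fst.comp measurable_snd).prodMk
          ((measurable_snd.comp measurable_snd).add hix))
      exact hT.comp this
    have h1 := ih (Z × V) (fun z => sh dm z.2 (T z.1)) hT'
    have h2 := hvm Z (fun z x => T z (x, 0)) (by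
      have : Measurable fun p : Z × X => (p.1, (p.2, (0 : ℕ))) :=
        measurable_fst.prodMk (measurable_snd.prodMk measurable_const)
      exact hT.comp this)
    have e : {p : Z × (Fin (m + 1) → V) | (∀ i, p.2 i ∈ 𝓑) ∧
        Cons dm viol (List.ofFn p.2) (T p.1)} =
        ((fun p : Z × (Fin (m + 1) → V) => (p.1, p.2 0)) ⁻¹'
          {p : Z × V | p.2 ∈ 𝓑 ∧ viol p.2 (fun x => T p.1 (x, 0))}) ∩
        ((fun p : Z × (Fin (m + 1) → V) => ((p.1, p.2 0), fun i : Fin m => p.2 i.succ)) ⁻¹'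
          {p : (Z × V) × (Fin m → V) | (∀ i, p.2 i ∈ 𝓑) ∧
            Cons dm viol (List.ofFn p.2) (sh dm p.1.2 (T p.1.1))}) := by
      ext ⟨z, w⟩
      simp only [mem_ofPred_eq, List.ofFn_succ, Cons, mem_inter_iff, mem_preimage,
        Fin.forall_fin_succ]
      tauto
    rw [e]
    refine MeasurableSet.inter ?_ ?_
    · exact (measurable_fst.prodMk ((measurable_pi_apply 0).comp measurable_snd)) h2
    · refine Measurable.prodMk ?_ ?_ h1
      · exact measurable_fst.prodMk ((measurable_pi_apply 0).comp measurable_snd)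
      · exact measurable_pi_lambda _ fun i => (measurable_pi_apply i.succ).comp measurable_snd

end meas

end Pool.Agent.Helper105
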