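import Mathlib
import Pool.Agent.Helper105_Sub.Two

set_option autoImplicit false

namespace Pool.Agent.Helper105

open MeasureTheory Set Filter
open scoped Classical ENNReal

/-- two coordinates that share an event. -/
def Adj {Y V : Type*} (D : V → Finset Y) (y z : Y) : Prop := ∃ v, y ∈ D v ∧ z ∈ D v

/-- at distance at most `j`. -/
def Near {Y V : Type*} (D : V → Finset Y) : ℕ → Y → Y → Prop
  | 0 => fun y z => y = z
  | j + 1 => fun y z => Near D j y z ∨ ∃ w, Adj D y w ∧ Near D j w z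

theorem near_mono {Y V : Type*} (D : V → Finset Y) {i j : ℕ} (hij : i ≤ j) {y z : Y}
    (h : Near D i y z) : Near D j y z := by
  induction hij with
  | refl => exact h
  | step _ ih => exact Or.inl ih

theorem adj_fin {Y V : Type*} {D : V → Finset Y} (hfin : ∀ y, {v | y ∈ D v}.Finite) (y : Y) :
    {z | Adj D y z}.Finite := by
  refine ((hfin y).biUnion (t := fun v => (D v : Set Y)) fun v _ => (D v).finite_toSet).subset ?_
  rintro z ⟨v, h1, h2⟩
  simp only [mem_iUnion]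
  exact ⟨v, h1, h2⟩

theorem near_fin {Y V : Type*} {D : V → Finset Y} (hfin : ∀ y, {v | y ∈ D v}.Finite) (j : ℕ)
    (y : Y) : {z | Near D j y z}.Finite := by
  induction j generalizing y with
  | zero => exact (finite_singleton y).subset fun z hz => hz.symm
  | succ j ih =>
    refine ((ih y).union ((adj_fin hfin y).biUnion (t := fun w => {z | Near D j w z})
      fun w _ => ih w)).subset ?_
    rintro z (hz | ⟨w, h1, h2⟩)
    · exact Or.inl hz
    · refine Or.inr ?_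
      simp only [mem_iUnion]
      exact ⟨w, h1, h2⟩

section
variable {Y V : Type*} [MeasurableSpace Y] [StandardBorelSpace Y] [MeasurableSpace V]
    [StandardBorelSpace V] {D : V → Finset Y}

theorem adj_meas (hD : MeasurableSet {p : V × Y | p.2 ∈ D p.1})
    (hfin : ∀ y, {v | y ∈ D v}.Finite) : MeasurableSet {p : Y × Y | Adj D p.1 p.2} := by
  have e : {p : Y × Y | Adj D p.1 p.2} = {p | ∃ v, (p, v) ∈ {r : (Y × Y) × V |
      r.1.1 ∈ D r.2 ∧ r.1.2 ∈ D r.2}} := by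
    ext ⟨y, z⟩
    rfl
  rw [e]
  refine proj ?_ ?_
  · refine MeasurableSet.inter ?_ ?_
    · exact (by fun_prop : Measurable fun r : (Y × Y) × V => (r.2, r.1.1)) hD
    · exact (by fun_prop : Measurable fun r : (Y × Y) × V => (r.2, r.1.2)) hD
  · rintro ⟨y, z⟩
    exact ((hfin y).subset fun v hv => hv.1).countable

theorem near_meas (hD : MeasurableSet {p : V × Y | p.2 ∈ D p.1})
    (hfin : ∀ y, {v | y ∈ D v}.Finite) (j : ℕ) : MeasurableSet {p : Y × Y | Near D j p.1 p.2} := by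
  induction j with
  | zero => exact measurableSet_eq_fun measurable_fst measurable_snd
  | succ j ih =>
    have e : {p : Y × Y | Near D (j + 1) p.1 p.2} = {p : Y × Y | Near D j p.1 p.2} ∪
        {p | ∃ w, (p, w) ∈ {r : (Y × Y) × Y | Adj D r.1.1 r.2 ∧ Near D j r.2 r.1.2}} := by
      ext ⟨y, z⟩
      rfl
    rw [e]
    refine ih.union (proj ?_ ?_)
    · refine MeasurableSet.inter ?_ ?_
      · exact (by fun_prop : Measurable fun r : (Y × Y) × Y => (r.1.1, r.2)) (adj_meas hD hfin)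
      · exact (by fun_prop : Measurable fun r : (Y × Y) × Y => (r.2, r.1.2)) ih
    · rintro ⟨y, z⟩
      exact ((adj_fin hfin y).subset fun w hw => hw.1).countable

/-- the `j`-neighbourhood of a set. -/
def Nb {Y V : Type*} (D : V → Finset Y) (j : ℕ) (S : Set Y) : Set Y :=
  {y | ∃ z, Near D j y z ∧ z ∈ S}

theorem nb_meas (hD : MeasurableSet {p : V × Y | p.2 ∈ D p.1})
    (hfin : ∀ y, {v | y ∈ D v}.Finite) (j : ℕ) {S : Set Y} (hS : MeasurableSet S) :
    MeasurableSet (Nb D j S) := by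
  have : MeasurableSet {y | ∃ z, (y, z) ∈ {p : Y × Y | Near D j p.1 p.2 ∧ p.2 ∈ S}} := by
    refine proj ((near_meas hD hfin j).inter (measurable_snd hS)) fun y => ?_
    exact ((near_fin hfin j y).subset fun z hz => hz.1).countable
  exact this

/-- Partition into two pieces with finite clusters. -/
theorem partition (hD : MeasurableSet {p : V × Y | p.2 ∈ D p.1})
    (hfin : ∀ y, {v | y ∈ D v}.Finite) (μ : Measure Y) [IsFiniteMeasure μ]
    (F : ℕ → Y → Y → Prop) (hF : ∀ n, Equivalence (F n))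
    (hFm : ∀ n, MeasurableSet {p : Y × Y | F n p.1 p.2}) (hFf : ∀ n y, {z | F n y z}.Finite)
    (hFi : ∀ n y z, F n y z → F (n + 1) y z) (hFD : ∀ v, ∀ y ∈ D v, ∀ z ∈ D v, ∃ n, F n y z) :
    ∃ (Z U : Set Y) (C : Y → Y → Prop), MeasurableSet Z ∧ μ Z = 0 ∧
      (∀ v, ∀ y ∈ D v, ∀ z ∈ D v, y ∈ Z → z ∈ Z) ∧ MeasurableSet U ∧ Equivalence C ∧
      MeasurableSet {p : Y × Y | C p.1 p.2} ∧ (∀ y, {z | C y z}.Finite) ∧
      ∀ v, (∀ y ∈ D v, y ∉ Z) → ∀ y ∈ D v, ∀ z ∈ D v, (y ∈ U ↔ z ∈ U) → C y z := by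
  obtain ⟨bd, hbd⟩ : ∃ bd : ℕ → Set Y, ∀ n y, y ∈ bd n ↔ ∃ z, Adj D y z ∧ ¬ F n y z :=
    ⟨fun n => {y | ∃ z, Adj D y z ∧ ¬ F n y z}, fun _ _ => Iff.rfl⟩
  have hbm : ∀ n, MeasurableSet (bd n) := by
    intro n
    have e : bd n = {y | ∃ z, (y, z) ∈ {p : Y × Y | Adj D p.1 p.2 ∧ ¬ F n p.1 p.2}} := by
      ext y
      exact hbd n y
    rw [e]
    refine proj ((adj_meas hD hfin).inter (hFm n).compl) fun y => ?_
    exact ((adj_fin hfin y).subset fun z hz => hz.1).countable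
  have hFmono : ∀ m n y z, m ≤ n → F m y z → F n y z := by
    intro m n y z hmn h
    induction hmn with
    | refl => exact h
    | step _ ih => exact hFi _ _ _ ih
  have hbanti : ∀ m n, m ≤ n → bd n ⊆ bd m := by
    intro m n hmn y hy
    rw [hbd] at hy ⊢
    obtain ⟨z, h1, h2⟩ := hy
    exact ⟨z, h1, fun h => h2 (hFmono m n y z hmn h)⟩
  have hbe : ∀ y, ∃ n, y ∉ bd n := by
    intro y
    have h1 : ∀ z ∈ (adj_fin hfin y).toFinset, ∃ n, F n y z := by
      intro z hz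
      simp only [Finite.mem_toFinset, mem_ofPred_eq] at hz
      obtain ⟨v, hv1, hv2⟩ := hz
      exact hFD v y hv1 z hv2
    choose! nz hnz using h1
    refine ⟨(adj_fin hfin y).toFinset.sup nz, ?_⟩
    rw [hbd]
    rintro ⟨z, hz1, hz2⟩
    have hz : z ∈ (adj_fin hfin y).toFinset := by simpa using hz1
    exact hz2 (hFmono _ _ y z (Finset.le_sup (f := nz) hz) (hnz z hz))
  have hlim : ∀ j, ∃ n, μ (Nb D j (bd n)) ≤ (1 / 2 : ℝ≥0∞) ^ j := by
    intro j
    have hanti : Antitone fun n => Nb D j (bd n) := by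
      intro m n hmn y hy
      obtain ⟨z, h1, h2⟩ := hy
      exact ⟨z, h1, hbanti m n hmn h2⟩
    have h1 := tendsto_measure_iInter_atTop (μ := μ) (s := fun n => Nb D j (bd n))
      (fun n => (nb_meas hD hfin j (hbm n)).nullMeasurableSet) hanti ⟨0, measure_ne_top _ _⟩
    have h2 : ⋂ n, Nb D j (bd n) = ∅ := by
      rw [eq_empty_iff_forall_notMem]
      intro y hy
      rw [mem_iInter] at hy
      choose nz hnz using hbe
      obtain ⟨z, hz1, hz2⟩ := hy ((near_fin hfin j y).toFinset.sup nz)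
      have hz : z ∈ (near_fin hfin j y).toFinset := by simpa using hz1
      exact hnz z (hbanti _ _ (Finset.le_sup (f := nz) hz) hz2)
    rw [h2, measure_empty] at h1
    have h3 : (0 : ℝ≥0∞) < (1 / 2 : ℝ≥0∞) ^ j := by
      apply ENNReal.pow_pos
      simp
    have h4 := (h1.eventually (gt_mem_nhds h3)).exists
    obtain ⟨n, hn⟩ := h4
    exact ⟨n, hn.le⟩
  choose nn hnn using hlim
  obtain ⟨Vk, hVk⟩ : ∃ Vk : ℕ → Set Y, ∀ κ y, y ∈ Vk κ ↔ ∃ j, κ ≤ j ∧
      y ∈ Nb D (j - κ) (bd (nn j)) :=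
    ⟨fun κ => {y | ∃ j, κ ≤ j ∧ y ∈ Nb D (j - κ) (bd (nn j))}, fun _ _ => Iff.rfl⟩
  have hVm : ∀ κ, MeasurableSet (Vk κ) := by
    intro κ
    have e : Vk κ = ⋃ j, ⋃ (_ : κ ≤ j), Nb D (j - κ) (bd (nn j)) := by
      ext y
      simp only [hVk, mem_iUnion, exists_prop]
    rw [e]
    exact MeasurableSet.iUnion fun j => MeasurableSet.iUnion fun _ => nb_meas hD hfin _ (hbm _)
  have hVadj : ∀ κ y z, Adj D y z → z ∈ Vk (κ + 1) → y ∈ Vk κ := by
    intro κ y z hyz hz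
    rw [hVk] at hz ⊢
    obtain ⟨j, hj, w, hw1, hw2⟩ := hz
    refine ⟨j, by omega, w, ?_, hw2⟩
    have : j - κ = (j - (κ + 1)) + 1 := by omega
    rw [this]
    exact Or.inr ⟨z, hyz, hw1⟩
  have hVbd : ∀ κ y, y ∉ Vk κ → ∀ z, Adj D y z → F (nn κ) y z := by
    intro κ y hy z hyz
    by_contra hF'
    apply hy
    rw [hVk]
    refine ⟨κ, le_rfl, y, ?_, ?_⟩
    · rw [Nat.sub_self]; rfl
    · rw [hbd]
      exact ⟨z, hyz, hF'⟩
  obtain ⟨Z, hZ⟩ : ∃ Z : Set Y, Z = ⋂ κ, Vk κ := ⟨_, rfl⟩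
  have hZm : MeasurableSet Z := by rw [hZ]; exact MeasurableSet.iInter hVm
  have hZ0 : μ Z = 0 := by
    have h1 : μ {y | ∃ᶠ j in atTop, y ∈ Nb D j (bd (nn j))} = 0 := by
      apply measure_setOf_frequently_eq_zero
      refine ne_top_of_le_ne_top ?_ (ENNReal.tsum_le_tsum hnn)
      rw [ENNReal.tsum_geometric]
      simp
    refine measure_mono_null ?_ h1
    intro y hy
    rw [hZ, mem_iInter] at hy
    simp only [mem_ofPred_eq]
    rw [frequently_atTop]
    intro κ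
    obtain ⟨j, hj, w, hw1, hw2⟩ := (hVk κ y).1 (hy κ)
    exact ⟨j, hj, w, near_mono D (Nat.sub_le _ _) hw1, hw2⟩
  have hex : ∀ y, ∃ κ, y ∉ Vk κ ∨ y ∈ Z := by
    intro y
    by_cases hy : y ∈ Z
    · exact ⟨0, Or.inr hy⟩
    · have : ∃ κ, y ∉ Vk κ := by
        by_contra hcon
        push Not at hcon
        apply hy
        rw [hZ, mem_iInter]
        exact hcon
      obtain ⟨κ, hκ⟩ := this
      exact ⟨κ, Or.inl hκ⟩
  have hlm := measurable_find hex (fun κ => (hVm κ).compl.union hZm)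
  obtain ⟨lv, hlv⟩ : ∃ lv : Y → ℕ, lv = fun y => Nat.find (hex y) := ⟨_, rfl⟩
  rw [← hlv] at hlm
  have hl1 : ∀ y, y ∉ Z → y ∉ Vk (lv y) := by
    intro y hy
    have := Nat.find_spec (hex y)
    rw [hlv]
    exact this.resolve_right hy
  have hl2 : ∀ y κ, y ∉ Vk κ → lv y ≤ κ := by
    intro y κ h
    rw [hlv]
    exact Nat.find_min' (hex y) (Or.inl h)
  have hadj : ∀ y z, Adj D y z → y ∉ Z → lv z ≤ lv y + 1 := by
    intro y z hyz hy
    refine hl2 z _ fun h => ?_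
    exact hl1 y hy (hVadj _ _ _ hyz h)
  refine ⟨Z, {y | Even (lv y)}, fun y z => lv y = lv z ∧ F (nn (lv y)) y z, hZm, hZ0,
    ?_, ?_, ?_, ?_, ?_, ?_⟩
  · intro v y hy z hz hyZ
    rw [hZ, mem_iInter] at hyZ ⊢
    intro κ
    exact hVadj κ z y ⟨v, hz, hy⟩ (hyZ (κ + 1))
  · exact hlm (MeasurableSet.of_discrete (s := {n : ℕ | Even n}))
  · refine ⟨fun y => ⟨rfl, (hF _).refl y⟩, ?_, ?_⟩
    · rintro y z ⟨h1, h2⟩
      exact ⟨h1.symm, h1 ▸ (hF _).symm h2⟩
    · rintro y z w ⟨h1, h2⟩ ⟨h3, h4⟩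
      refine ⟨h1.trans h3, (hF _).trans h2 ?_⟩
      rw [h1]; exact h4
  · have e : {p : Y × Y | lv p.1 = lv p.2 ∧ F (nn (lv p.1)) p.1 p.2} =
        ⋃ κ, (({p : Y × Y | lv p.1 = κ} ∩ {p | lv p.2 = κ}) ∩ {p | F (nn κ) p.1 p.2}) := by
      ext ⟨y, z⟩
      simp only [mem_ofPred_eq, mem_iUnion, mem_inter_iff]
      constructor
      · rintro ⟨h1, h2⟩
        exact ⟨lv y, ⟨rfl, h1.symm⟩, h2⟩
      · rintro ⟨κ, ⟨h1, h2⟩, h3⟩
        exact ⟨h1.trans h2.symm, by rw [h1]; exact h3⟩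
    show MeasurableSet {p : Y × Y | lv p.1 = lv p.2 ∧ F (nn (lv p.1)) p.1 p.2}
    rw [e]
    refine MeasurableSet.iUnion fun κ => (MeasurableSet.inter ?_ ?_).inter (hFm _)
    · exact measurableSet_eq_fun (hlm.comp measurable_fst) measurable_const
    · exact measurableSet_eq_fun (hlm.comp measurable_snd) measurable_const
  · intro y
    exact (hFf _ y).subset fun z hz => hz.2
  · intro v hv y hy z hz hyz
    simp only [mem_ofPred_eq] at hyz
    have h1 := hadj y z ⟨v, hy, hz⟩ (hv y hy)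
    have h2 := hadj z y ⟨v, hz, hy⟩ (hv z hz)
    have h3 : lv y = lv z := by
      rcases Nat.lt_trichotomy (lv y) (lv z) with h | h | h
      · exfalso
        have : lv z = lv y + 1 := by omega
        rw [this, Nat.even_add_one] at hyz
        tauto
      · exact h
      · exfalso
        have : lv y = lv z + 1 := by omega
        rw [this, Nat.even_add_one] at hyz
        tauto
    exact ⟨h3, hVbd _ y (hl1 y (hv y hy)) z ⟨v, hy, hz⟩⟩

/-- The squared local lemma for hyperfinite Borel families of events, off a null set. -/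
theorem twoPhase_hyp {k : ℕ} (hk : 0 < k) (hD : MeasurableSet {p : V × Y | p.2 ∈ D p.1})
    (hfin : ∀ y, {v | y ∈ D v}.Finite) (μ : Measure Y) [IsFiniteMeasure μ]
    (F : ℕ → Y → Y → Prop) (hF : ∀ n, Equivalence (F n))
    (hFm : ∀ n, MeasurableSet {p : Y × Y | F n p.1 p.2}) (hFf : ∀ n y, {z | F n y z}.Finite)
    (hFi : ∀ n y z, F n y z → F (n + 1) y z) (hFD : ∀ v, ∀ y ∈ D v, ∀ z ∈ D v, ∃ n, F n y z)
    (Bad : V → (Y → Fin k) → Prop)
    (hloc : ∀ v T T', (∀ y ∈ D v, T y = T' y) → (Bad v T ↔ Bad v T'))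
    (hBm : ∀ T, Measurable T → MeasurableSet {v | Bad v T})
    (ω θ : V → ℝ) (hω0 : ∀ v, 0 ≤ ω v)
    (hω1 : ∀ v, ω v < 1) (hθ0 : ∀ v, 0 < θ v) (hθ1 : ∀ v, θ v < 1) (hθm : Measurable θ)
    (hθ : ∀ v, ∀ J : Finset V, (∀ u ∈ J, u ≠ v ∧ ¬ Disjoint (D v) (D u)) →
      θ v ≤ ω v * ∏ u ∈ J, (1 - ω u))
    (hprob : ∀ v T, (((Tab (D v) T).filter (Bad v)).card : ℝ) ≤
      θ v ^ 2 * (k : ℝ) ^ (D v).card) :
    ∃ (Z : Set Y) (T : Y → Fin k), MeasurableSet Z ∧ μ Z = 0 ∧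
      (∀ v, ∀ y ∈ D v, ∀ z ∈ D v, y ∈ Z → z ∈ Z) ∧ Measurable T ∧
      ∀ v, (∀ y ∈ D v, y ∉ Z) → ¬ Bad v T := by
  obtain ⟨Z, U, C, hZm, hZ0, hZi, hU, hC, hCm, hCf, hCU⟩ :=
    partition hD hfin μ F hF hFm hFf hFi hFD
  obtain ⟨G, hG⟩ : ∃ G : Set V, ∀ v, v ∈ G ↔ ∀ y ∈ D v, y ∉ Z :=
    ⟨{v | ∀ y ∈ D v, y ∉ Z}, fun _ => Iff.rfl⟩
  have hGm : MeasurableSet G := by
    have e : G = {v | ∃ y, (v, y) ∈ {p : V × Y | p.2 ∈ D p.1 ∧ p.2 ∈ Z}}ᶜ := by
      ext v
      simp only [mem_ofPred_eq, mem_compl_iff, not_exists, not_and, hG]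
    rw [e]
    refine MeasurableSet.compl (proj (hD.inter (measurable_snd hZm)) fun v => ?_)
    exact ((D v).finite_toSet.subset fun y hy => hy.1).countable
  obtain ⟨D', hD'⟩ : ∃ D' : V → Finset Y, ∀ v, D' v = if v ∈ G then D v else ∅ :=
    ⟨_, fun _ => rfl⟩
  have hmem : ∀ v y, y ∈ D' v ↔ v ∈ G ∧ y ∈ D v := by
    intro v y
    rw [hD']
    split_ifs with h
    · simp [h]
    · simp [h]
  obtain ⟨T, hT, hT'⟩ := twoPhase hk D' (by
      have e : {p : V × Y | p.2 ∈ D' p.1} = Prod.fst ⁻¹' G ∩ {p : V × Y | p.2 ∈ D p.1} := by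
        ext ⟨v, y⟩
        simp only [mem_ofPred_eq, hmem, mem_inter_iff, mem_preimage]
      rw [e]
      exact (measurable_fst hGm).inter hD)
    (fun y => (hfin y).subset fun v hv => ((hmem v y).1 hv).2) U hU C hC hCm hCf
    (fun v y hy z hz h => by
      rw [hmem] at hy hz
      exact hCU v ((hG v).1 hy.1) y hy.2 z hz.2 h)
    (fun v T => v ∈ G ∧ Bad v T)
    (fun v T T' h => by
      by_cases hv : v ∈ G
      · simp only [hv, true_and]
        exact hloc v T T' fun y hy => h y ((hmem v y).2 ⟨hv, hy⟩)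
      · simp [hv])
    (fun T hT => hGm.inter (hBm T hT)) ω θ hω0 hω1 hθ0 hθ1 hθm
    (fun v J hJ => hθ v J fun u hu => by
      obtain ⟨h1, h2⟩ := hJ u hu
      refine ⟨h1, fun hd => h2 ?_⟩
      rw [Finset.disjoint_left] at hd ⊢
      intro y hy1 hy2
      exact hd ((hmem v y).1 hy1).2 ((hmem u y).1 hy2).2)
    (fun v T => by
      by_cases hv : v ∈ G
      · have e : D' v = D v := by rw [hD', if_pos hv]
        simp only [hv, true_and, e]
        exact hprob v T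
      · simp only [hv, false_and, Finset.filter_false, Finset.card_empty, Nat.cast_zero]
        positivity)
  exact ⟨Z, T, hZm, hZ0, hZi, hT, fun v hv hb => hT' v ⟨(hG v).2 hv, hb⟩⟩

end

end Pool.Agent.Helper105
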