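import Mathlib
import Pool.Agent.Helper105_Sub.Ball
import Pool.Agent.Helper105_Sub.Lay
import Pool.Agent.Helper105_Sub.Part

set_option autoImplicit false

namespace Pool.Agent.Helper105

open MeasureTheory Set
open scoped Classical

universe u

section
variable {X V : Type u} {dm : V → Finset X} {𝓑 : Set V}

theorem be_le (hfin : ∀ x, {v | v ∈ 𝓑 ∧ x ∈ dm v}.Finite) {j R : ℕ} {v w : V}
    (h : Bl dm 𝓑 j v w) : be dm 𝓑 R w ≤ be dm 𝓑 (j + R) v := by
  unfold be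
  rw [Nat.cast_le]
  exact Set.ncard_le_ncard (fun z hz => bl_trans h hz) (bl_fin hfin _ _)

/-- the condition defining the scale of `v`. -/
def PN (dm : V → Finset X) (𝓑 : Set V) (A : ℕ) (η : ℝ) (v : V) (N : ℕ) : Prop :=
  v ∈ 𝓑 → ∀ j R w, Bl dm 𝓑 j v w → N + j ≤ A * R → be dm 𝓑 R w * η ^ R ≤ 1

theorem pn_exists (hfin : ∀ x, {v | v ∈ 𝓑 ∧ x ∈ dm v}.Finite) {A : ℕ} (hA : 0 < A) {η : ℝ}
    (hη0 : 0 < η) (N₀ : ℕ) {v : V}
    (hgrow : v ∈ 𝓑 → ∃ C G : ℝ, 1 ≤ G ∧ η * G ^ (A + 1) < 1 ∧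
      ∀ n, be dm 𝓑 n v ≤ C * G ^ n) :
    ∃ N, N₀ ≤ N ∧ PN dm 𝓑 A η v N := by
  by_cases hv : v ∈ 𝓑
  · obtain ⟨C, G, hG, hηG, hC⟩ := hgrow hv
    have hq0 : 0 ≤ η * G ^ (A + 1) := by positivity
    have hC0 : 0 ≤ C := by
      have := hC 0
      have h2 : 0 ≤ be dm 𝓑 0 v := Nat.cast_nonneg _
      simp only [pow_zero, mul_one] at this
      linarith
    obtain ⟨R₀, hR₀⟩ : ∃ R₀, (η * G ^ (A + 1)) ^ R₀ < 1 / (C + 1) :=
      exists_pow_lt_of_lt_one (by positivity) hηG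
    refine ⟨max N₀ (A * R₀), le_max_left _ _, fun _ j R w hw hR => ?_⟩
    have h1 : A * R₀ ≤ A * R := (le_max_right N₀ _).trans (le_trans (Nat.le_add_right _ _) hR)
    have h2 : R₀ ≤ R := Nat.le_of_mul_le_mul_left h1 hA
    have h3 : j + R ≤ (A + 1) * R := by
      have : j ≤ A * R := le_trans (Nat.le_add_left _ _) hR
      linarith
    calc be dm 𝓑 R w * η ^ R ≤ (C * G ^ (j + R)) * η ^ R :=
          mul_le_mul_of_nonneg_right ((be_le hfin hw).trans (hC _)) (by positivity)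
      _ ≤ (C * G ^ ((A + 1) * R)) * η ^ R := by
          refine mul_le_mul_of_nonneg_right ?_ (by positivity)
          exact mul_le_mul_of_nonneg_left (pow_le_pow_right₀ hG h3) hC0
      _ = C * (η * G ^ (A + 1)) ^ R := by rw [mul_pow, ← pow_mul]; ring
      _ ≤ C * (η * G ^ (A + 1)) ^ R₀ :=
          mul_le_mul_of_nonneg_left (pow_le_pow_of_le_one hq0 hηG.le h2) hC0
      _ ≤ C * (1 / (C + 1)) := mul_le_mul_of_nonneg_left hR₀.le hC0
      _ ≤ 1 := by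
          rw [mul_one_div, div_le_one (by linarith)]
          linarith
  · exact ⟨N₀, le_rfl, fun h => absurd h hv⟩

theorem pn_shift {A : ℕ} {η : ℝ} {v w : V} (hv : v ∈ 𝓑) {i N : ℕ} (hw : Bl dm 𝓑 i v w)
    (h : PN dm 𝓑 A η v N) : PN dm 𝓑 A η w (N + i) := by
  intro _ j R z hz hR
  exact h hv (i + j) R z (bl_trans hw hz) (by omega)

variable [MeasurableSpace X] [StandardBorelSpace X] [MeasurableSpace V]
  [StandardBorelSpace V] {k : ℕ} {viol : V → (X → Fin k) → Prop}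

theorem pn_meas (h𝓑 : MeasurableSet 𝓑) (hdm : MeasurableSet {p : V × X | p.2 ∈ dm p.1})
    (hfin : ∀ x, {v | v ∈ 𝓑 ∧ x ∈ dm v}.Finite) (A : ℕ) (η : ℝ) (N : ℕ) :
    MeasurableSet {v | PN dm 𝓑 A η v N} := by
  have e : {v | PN dm 𝓑 A η v N} = 𝓑ᶜ ∪ ⋂ j, ⋂ R, {v | ∃ w, (v, w) ∈ {p : V × V |
      (Bl dm 𝓑 j p.1 p.2 ∧ N + j ≤ A * R) ∧ 1 < be dm 𝓑 R p.2 * η ^ R}}ᶜ := by
    ext v
    simp only [mem_ofPred_eq, PN, mem_union, mem_compl_iff, mem_iInter, not_exists, not_and,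
      not_lt]
    constructor
    · intro h
      by_cases hv : v ∈ 𝓑
      · exact Or.inr fun j R w h1 => h hv j R w h1.1 h1.2
      · exact Or.inl hv
    · rintro (h | h) hv j R w h1 h2
      · exact absurd hv h
      · exact h j R w ⟨h1, h2⟩
  rw [e]
  refine h𝓑.compl.union (MeasurableSet.iInter fun j => MeasurableSet.iInter fun R =>
    MeasurableSet.compl (proj (MeasurableSet.inter (MeasurableSet.inter ?_ ?_) ?_) fun v => ?_))
  · exact bl_meas h𝓑 hdm hfin j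
  · exact MeasurableSet.const _
  · exact measurableSet_lt measurable_const
      (((be_meas h𝓑 hdm hfin R).comp measurable_snd).mul_const _)
  · exact ((bl_fin hfin j v).subset fun w hw => hw.1.1).countable

theorem pyr_fin_lists (hfin : ∀ x, {v | v ∈ 𝓑 ∧ x ∈ dm v}.Finite)
    (hne : ∀ v ∈ 𝓑, (dm v).Nonempty) (v : V) (n : ℕ) :
    {l : List V | Pyr dm v l ∧ (∀ u ∈ l, u ∈ 𝓑) ∧ l.length ≤ n}.Finite := by
  refine ((finite_Iic n).biUnion (t := fun m => List.ofFn '' {w : Fin m → V | ∀ i,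
    w i ∈ {u | Bl dm 𝓑 m v u}}) fun m _ => Set.Finite.image _ ?_).subset ?_
  · exact Set.Finite.pi' fun _ => bl_fin hfin m v
  · rintro l ⟨h1, h2, h3⟩
    simp only [mem_iUnion]
    refine ⟨l.length, h3, l.get, fun i => ?_, List.ofFn_get l⟩
    exact pyr_bl hne h1 h2 _ (List.get_mem l i)

/-- there is a legal pyramid at `v` whose size lies in the window of `v`. -/
def BadEv (dm : V → Finset X) (viol : V → (X → Fin k) → Prop) (𝓑 : Set V) (A : ℕ) (N : V → ℕ)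
    (v : V) (T : X × ℕ → Fin k) : Prop :=
  v ∈ 𝓑 ∧ ∃ l, (Pyr dm v l ∧ ∀ u ∈ l, u ∈ 𝓑) ∧ (N v ≤ A * l.length ∧ 4 * l.length ≤ N v) ∧
    Cons dm viol l T

theorem badEv_meas (h𝓑 : MeasurableSet 𝓑) (hdm : MeasurableSet {p : V × X | p.2 ∈ dm p.1})
    (hfin : ∀ x, {v | v ∈ 𝓑 ∧ x ∈ dm v}.Finite) (hne : ∀ v ∈ 𝓑, (dm v).Nonempty)
    (hvm : ∀ (Z : Type u) [MeasurableSpace Z] [StandardBorelSpace Z] (f : Z → X → Fin k),
      Measurable (fun p : Z × X => f p.1 p.2) →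
        MeasurableSet {p : Z × V | p.2 ∈ 𝓑 ∧ viol p.2 (f p.1)}) (A : ℕ) {N : V → ℕ}
    (hN : Measurable N) {T : X × ℕ → Fin k} (hT : Measurable T) :
    MeasurableSet {v | BadEv dm viol 𝓑 A N v T} := by
  have e : {v | BadEv dm viol 𝓑 A N v T} = 𝓑 ∩ ⋃ m : ℕ, (({v | N v ≤ A * m} ∩
      {v | 4 * m ≤ N v}) ∩ {v | ∃ w : Fin m → V, (v, w) ∈ {p : V × (Fin m → V) |
        Pyr dm p.1 (List.ofFn p.2) ∧ ((∀ i, p.2 i ∈ 𝓑) ∧ Cons dm viol (List.ofFn p.2) T)}}) := by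
    ext v
    simp only [mem_ofPred_eq, BadEv, mem_inter_iff, mem_iUnion]
    refine and_congr Iff.rfl ?_
    constructor
    · rintro ⟨l, ⟨h1, h2⟩, h3, h4⟩
      refine ⟨l.length, h3, l.get, ?_, ?_, ?_⟩
      · rw [List.ofFn_get]; exact h1
      · exact fun i => h2 _ (List.get_mem l i)
      · rw [List.ofFn_get]; exact h4
    · rintro ⟨m, h3, w, h1, h2, h4⟩
      refine ⟨List.ofFn w, ⟨h1, ?_⟩, by simpa using h3, h4⟩
      intro u hu
      rw [List.mem_ofFn] at hu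
      obtain ⟨i, rfl⟩ := hu
      exact h2 i
  rw [e]
  refine h𝓑.inter (MeasurableSet.iUnion fun m => MeasurableSet.inter (MeasurableSet.inter ?_ ?_)
    (proj (MeasurableSet.inter ?_ ?_) fun v => ?_))
  · exact measurableSet_le hN measurable_const
  · exact measurableSet_le measurable_const hN
  · exact pyr_meas hdm m
  · exact cons_meas h𝓑 hdm hvm m V (fun _ => T) (hT.comp measurable_snd)
  · refine (Set.Finite.subset (Set.Finite.pi' fun _ : Fin m => bl_fin hfin m v) ?_).countable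
    rintro w ⟨h1, h2, -⟩ i
    have := pyr_bl hne h1 (by
      intro u hu
      rw [List.mem_ofFn] at hu
      obtain ⟨i, rfl⟩ := hu
      exact h2 i) (w i) (List.mem_ofFn.2 ⟨i, rfl⟩)
    simpa using this

end

end Pool.Agent.Helper105
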