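import Mathlib
import Pool.Agent.Helper105_Sub.Core

set_option autoImplicit false

namespace Pool.Agent.Helper105

open MeasureTheory Set
open scoped Classical

universe u

theorem one_sub_sum_le' {ι : Type*} (J : Finset ι) (x : ι → ℝ) (h0 : ∀ i ∈ J, 0 ≤ x i)
    (h1 : ∀ i ∈ J, x i ≤ 1) : 1 - ∑ i ∈ J, x i ≤ ∏ i ∈ J, (1 - x i) := by
  induction J using Finset.induction_on with
  | empty => simp
  | @insert i J hi ih =>
    have ih' := ih (fun j hj => h0 j (Finset.mem_insert_of_mem hj))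
      (fun j hj => h1 j (Finset.mem_insert_of_mem hj))
    have h2 : ∏ i ∈ J, (1 - x i) ≤ 1 :=
      Finset.prod_le_one (fun j hj => by linarith [h1 j (Finset.mem_insert_of_mem hj)])
        (fun j hj => by linarith [h0 j (Finset.mem_insert_of_mem hj)])
    rw [Finset.sum_insert hi, Finset.prod_insert hi]
    have h3 := h0 i (Finset.mem_insert_self _ _)
    nlinarith

/-- The abstract core: a hyperfinite Borel family of events of bounded degree, correct for the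
symmetric local lemma with the slack `η ^ (50 * (d + 1))`, whose balls have growth rates `G` with
`η * G ^ 2 < 1`, is avoided by a Borel map off a null set. -/
theorem core {X V : Type u} [MeasurableSpace X] [StandardBorelSpace X] [MeasurableSpace V]
    [StandardBorelSpace V] {k : ℕ} (hk : 0 < k) {dm : V → Finset X}
    {viol : V → (X → Fin k) → Prop} {𝓑 : Set V} (h𝓑 : MeasurableSet 𝓑)
    (hdm : MeasurableSet {p : V × X | p.2 ∈ dm p.1})
    (hfin : ∀ x, {v | v ∈ 𝓑 ∧ x ∈ dm v}.Finite) (hne : ∀ v ∈ 𝓑, (dm v).Nonempty)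
    (hvm : ∀ (Z : Type u) [MeasurableSpace Z] [StandardBorelSpace Z] (f : Z → X → Fin k),
      Measurable (fun p : Z × X => f p.1 p.2) →
        MeasurableSet {p : Z × V | p.2 ∈ 𝓑 ∧ viol p.2 (f p.1)})
    (hloc : ∀ v f g, (∀ x ∈ dm v, f x = g x) → (viol v f ↔ viol v g))
    {d : ℕ} (hdeg : ∀ v ∈ 𝓑, ∃ U : Finset V, U.card ≤ d + 1 ∧ ∀ w ∈ 𝓑, meets dm w v → w ∈ U)
    {w s p η : ℝ} (hw : 0 ≤ w) (hs : 0 ≤ s) (hp : 0 ≤ p) (hη0 : 0 < η) (hη1 : η < 1)
    (hws : w * (1 + s) ^ (d + 1) ≤ s) (hpw : p ≤ w * (η ^ 10) ^ (5 * (d + 1)))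
    (hviol : ∀ w ∈ 𝓑, ∀ f₀, (((Tab (dm w) f₀).filter (viol w)).card : ℝ) ≤
      p * (k : ℝ) ^ (dm w).card)
    (hgrow : ∀ v ∈ 𝓑, ∃ C G : ℝ, 1 ≤ G ∧ η * G ^ 2 < 1 ∧ ∀ n, be dm 𝓑 n v ≤ C * G ^ n)
    (μ : Measure X) [IsFiniteMeasure μ] (F : ℕ → X → X → Prop) (hF : ∀ n, Equivalence (F n))
    (hFm : ∀ n, MeasurableSet {q : X × X | F n q.1 q.2}) (hFf : ∀ n x, {y | F n x y}.Finite)
    (hFi : ∀ n x y, F n x y → F (n + 1) x y)
    (hFE : ∀ v ∈ 𝓑, ∀ x ∈ dm v, ∀ y ∈ dm v, ∃ n, F n x y) :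
    ∃ f : X → Fin k, Measurable f ∧ ∃ Z₀ : Set X, μ Z₀ = 0 ∧
      ∀ v ∈ 𝓑, viol v f → ∀ x ∈ dm v, x ∈ Z₀ := by
  obtain ⟨A, hA⟩ : ∃ A, A = 5 * (d + 1) := ⟨_, rfl⟩
  rw [← hA] at hpw
  -- the least scale
  obtain ⟨N₀, hN16, hNh, hNs⟩ : ∃ N₀ : ℕ, 16 ≤ N₀ ∧ η ^ N₀ ≤ 1 / 2 ∧ 4 * s * η ^ (2 * N₀) ≤ 1 := by
    obtain ⟨n₁, hn₁⟩ : ∃ n, η ^ n < 1 / 2 := exists_pow_lt_of_lt_one (by norm_num) hη1
    obtain ⟨n₂, hn₂⟩ : ∃ n, η ^ n < 1 / (4 * s + 1) :=
      exists_pow_lt_of_lt_one (by positivity) hη1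
    refine ⟨max 16 (max n₁ n₂), le_max_left _ _, ?_, ?_⟩
    · refine le_trans (pow_le_pow_of_le_one hη0.le hη1.le ?_) hn₁.le
      exact (le_max_left n₁ n₂).trans (le_max_right _ _)
    · have h1 : η ^ (2 * max 16 (max n₁ n₂)) ≤ 1 / (4 * s + 1) := by
        refine le_trans (pow_le_pow_of_le_one hη0.le hη1.le ?_) hn₂.le
        have : n₂ ≤ max 16 (max n₁ n₂) := (le_max_right n₁ n₂).trans (le_max_right _ _)
        omega
      calc 4 * s * η ^ (2 * max 16 (max n₁ n₂)) ≤ 4 * s * (1 / (4 * s + 1)) :=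
            mul_le_mul_of_nonneg_left h1 (by positivity)
        _ ≤ 1 := by
            rw [mul_one_div, div_le_one (by positivity)]
            linarith
  have hex : ∀ v, ∃ N, N₀ ≤ N ∧ PN dm 𝓑 1 η v N := fun v =>
    pn_exists hfin one_pos hη0 N₀ (hgrow v)
  obtain ⟨N, hNdef⟩ : ∃ N : V → ℕ, N = fun v => Nat.find (hex v) := ⟨_, rfl⟩
  have hNm : Measurable N := by
    rw [hNdef]
    exact measurable_find hex fun n =>
      (MeasurableSet.const _).inter (pn_meas h𝓑 hdm hfin 1 η n)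
  have hN1 : ∀ v, N₀ ≤ N v ∧ PN dm 𝓑 1 η v (N v) := by
    intro v; rw [hNdef]; exact Nat.find_spec (hex v)
  have hN2 : ∀ v n, N₀ ≤ n → PN dm 𝓑 1 η v n → N v ≤ n := by
    intro v n h1 h2; rw [hNdef]; exact Nat.find_min' (hex v) ⟨h1, h2⟩
  have hLip : ∀ v ∈ 𝓑, ∀ i u, Bl dm 𝓑 i v u → N u ≤ N v + i := by
    intro v hv i u hu
    exact hN2 u _ ((hN1 v).1.trans (Nat.le_add_right _ _)) (pn_shift hv hu (hN1 v).2)
  have hN16' : ∀ v, 16 ≤ N v := fun v => hN16.trans (hN1 v).1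
  -- the cells
  obtain ⟨D, hD⟩ : ∃ D : V → Finset (X × ℕ), ∀ v c, c ∈ D v ↔ v ∈ 𝓑 ∧
      (∃ u, Bl dm 𝓑 (N v / 4) v u ∧ c.1 ∈ dm u) ∧ c.2 < N v := by
    refine ⟨fun v => if v ∈ 𝓑 then ((bl_fin hfin (N v / 4) v).toFinset.biUnion dm) ×ˢ
      Finset.range (N v) else ∅, fun v c => ?_⟩
    beta_reduce
    split_ifs with h
    · simp only [Finset.mem_product, Finset.mem_biUnion, Finite.mem_toFinset, mem_ofPred_eq,
        Finset.mem_range, h, true_and]
    · simp [h]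
  have hDm : MeasurableSet {q : V × (X × ℕ) | q.2 ∈ D q.1} := by
    have e : {q : V × (X × ℕ) | q.2 ∈ D q.1} = ⋃ n : ℕ, ((Prod.fst ⁻¹' (𝓑 ∩ {v | N v = n})) ∩
        {q | ∃ u, (q, u) ∈ {r : (V × (X × ℕ)) × V | Bl dm 𝓑 (n / 4) r.1.1 r.2 ∧
          r.1.2.1 ∈ dm r.2}}) ∩ {q | q.2.2 < n} := by
      ext ⟨v, c⟩
      simp only [mem_ofPred_eq, hD, mem_iUnion, mem_inter_iff, mem_preimage]
      constructor
      · rintro ⟨h1, h2, h3⟩
        exact ⟨N v, ⟨⟨h1, rfl⟩, h2⟩, h3⟩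
      · rintro ⟨n, ⟨⟨h1, rfl⟩, h2⟩, h3⟩
        exact ⟨h1, h2, h3⟩
    rw [e]
    refine MeasurableSet.iUnion fun n => MeasurableSet.inter (MeasurableSet.inter ?_
      (proj (MeasurableSet.inter ?_ ?_) ?_)) ?_
    · exact measurable_fst (h𝓑.inter (measurableSet_eq_fun hNm measurable_const))
    · exact (by fun_prop : Measurable fun r : (V × (X × ℕ)) × V => (r.1.1, r.2))
        (bl_meas h𝓑 hdm hfin (n / 4))
    · exact (by fun_prop : Measurable fun r : (V × (X × ℕ)) × V => (r.2, r.1.2.1)) hdm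
    · rintro ⟨v, c⟩
      exact ((bl_fin hfin (n / 4) v).subset fun u hu => hu.1).countable
    · exact measurableSet_lt (measurable_snd.comp measurable_snd) measurable_const
  have hDfin : ∀ c, {v | c ∈ D v}.Finite := by
    intro c
    refine ((hfin c.1).biUnion (t := fun u => {v | Bl dm 𝓑 (N u) u v})
      fun u _ => bl_fin hfin _ _).subset ?_
    intro v hv
    obtain ⟨h1, ⟨u, h2, h3⟩, -⟩ := (hD v c).1 hv
    simp only [mem_iUnion]
    have hu := bl_mem h1 h2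
    refine ⟨u, ⟨hu, h3⟩, ?_⟩
    have h4 := bl_symm h1 h2
    have h5 := hLip u hu _ v h4
    exact bl_mono hne (by omega) hu h4
  -- hyperfiniteness of the cells
  have hFmono : ∀ m n x y, m ≤ n → F m x y → F n x y := by
    intro m n x y hmn h
    induction hmn with
    | refl => exact h
    | step _ ih => exact hFi _ _ _ ih
  have hFB : ∀ j, ∀ v ∈ 𝓑, ∀ u, Bl dm 𝓑 j v u → ∀ x ∈ dm v, ∀ y ∈ dm u, ∃ n, F n x y := by
    intro j v hv
    induction j with
    | zero =>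
      intro u hu x hx y hy
      rw [Bl] at hu
      subst hu
      exact hFE u hv x hx y hy
    | succ j ih =>
      rintro u ⟨hu, z, hz, a, ha1, ha2⟩ x hx y hy
      obtain ⟨n₁, hn₁⟩ := ih z hz x hx a ha2
      obtain ⟨n₂, hn₂⟩ := hFE u hu a ha1 y hy
      exact ⟨max n₁ n₂, (hF _).trans (hFmono _ _ _ _ (le_max_left _ _) hn₁)
        (hFmono _ _ _ _ (le_max_right _ _) hn₂)⟩
  obtain ⟨F', hF'⟩ : ∃ F' : ℕ → X × ℕ → X × ℕ → Prop, ∀ n a b, F' n a b ↔
      a = b ∨ (F n a.1 b.1 ∧ a.2 ≤ n ∧ b.2 ≤ n) := ⟨_, fun _ _ _ => Iff.rfl⟩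
  have hF'e : ∀ n, Equivalence (F' n) := by
    intro n
    refine ⟨fun a => (hF' n a a).2 (Or.inl rfl), ?_, ?_⟩
    · intro a b h
      rw [hF'] at h ⊢
      rcases h with rfl | ⟨h1, h2, h3⟩
      · exact Or.inl rfl
      · exact Or.inr ⟨(hF n).symm h1, h3, h2⟩
    · intro a b c h h'
      rw [hF'] at h h' ⊢
      rcases h with rfl | ⟨h1, h2, h3⟩
      · exact h'
      · rcases h' with rfl | ⟨h4, h5, h6⟩
        · exact Or.inr ⟨h1, h2, h3⟩
        · exact Or.inr ⟨(hF n).trans h1 h4, h2, h6⟩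
  have hF'm : ∀ n, MeasurableSet {q : (X × ℕ) × (X × ℕ) | F' n q.1 q.2} := by
    intro n
    have e : {q : (X × ℕ) × (X × ℕ) | F' n q.1 q.2} = {q | q.1 = q.2} ∪
        ((fun q : (X × ℕ) × (X × ℕ) => (q.1.1, q.2.1)) ⁻¹' {q : X × X | F n q.1 q.2} ∩
        ({q | q.1.2 ≤ n} ∩ {q | q.2.2 ≤ n})) := by
      ext q
      simp only [mem_ofPred_eq, hF', mem_union, mem_inter_iff, mem_preimage]
    rw [e]
    refine (measurableSet_eq_fun measurable_fst measurable_snd).union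
      (MeasurableSet.inter ?_ (MeasurableSet.inter ?_ ?_))
    · exact (by fun_prop : Measurable fun q : (X × ℕ) × (X × ℕ) => (q.1.1, q.2.1)) (hFm n)
    · exact measurableSet_le (measurable_snd.comp measurable_fst) measurable_const
    · exact measurableSet_le (measurable_snd.comp measurable_snd) measurable_const
  have hF'f : ∀ n a, {b | F' n a b}.Finite := by
    intro n a
    refine ((finite_singleton a).union ((hFf n a.1).prod (finite_Iic n))).subset ?_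
    intro b hb
    rcases (hF' n a b).1 hb with rfl | ⟨h1, h2, h3⟩
    · exact Or.inl rfl
    · exact Or.inr ⟨h1, h3⟩
  have hF'i : ∀ n a b, F' n a b → F' (n + 1) a b := by
    intro n a b h
    rw [hF'] at h ⊢
    rcases h with rfl | ⟨h1, h2, h3⟩
    · exact Or.inl rfl
    · exact Or.inr ⟨hFi _ _ _ h1, by omega, by omega⟩
  have hF'D : ∀ v, ∀ a ∈ D v, ∀ b ∈ D v, ∃ n, F' n a b := by
    intro v a ha b hb
    obtain ⟨h1, ⟨u, h2, h3⟩, h4⟩ := (hD v a).1 ha
    obtain ⟨-, ⟨u', h5, h6⟩, h7⟩ := (hD v b).1 hb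
    obtain ⟨x, hx⟩ := hne v h1
    obtain ⟨n₁, hn₁⟩ := hFB _ v h1 u h2 x hx a.1 h3
    obtain ⟨n₂, hn₂⟩ := hFB _ v h1 u' h5 x hx b.1 h6
    refine ⟨max (max n₁ n₂) (N v), (hF' _ _ _).2 (Or.inr ⟨?_, ?_, ?_⟩)⟩
    · exact (hF _).trans ((hF _).symm (hFmono _ _ _ _
        ((le_max_left n₁ n₂).trans (le_max_left _ _)) hn₁))
        (hFmono _ _ _ _ ((le_max_right n₁ n₂).trans (le_max_left _ _)) hn₂)
    · exact h4.le.trans (le_max_right _ _)
    · exact h7.le.trans (le_max_right _ _)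
  -- distance between events sharing a cell
  have hdist : ∀ u v, ¬ Disjoint (D v) (D u) → u ∈ 𝓑 ∧ v ∈ 𝓑 ∧ Bl dm 𝓑 (N v) v u ∧
      N v ≤ 2 * N u := by
    intro u v h
    rw [Finset.not_disjoint_iff] at h
    obtain ⟨c, hc1, hc2⟩ := h
    obtain ⟨hv, ⟨v₁, h1, h2⟩, -⟩ := (hD v c).1 hc1
    obtain ⟨hu, ⟨u₁, h3, h4⟩, -⟩ := (hD u c).1 hc2
    have h5 : Bl dm 𝓑 1 v₁ u₁ := bl_one (bl_mem hu h3) ⟨c.1, h4, h2⟩
    have h6 := bl_trans (bl_trans h1 h5) (bl_symm hu h3)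
    have h7 := hLip v hv _ u h6
    have h8 := hLip u hu _ v (bl_symm hv h6)
    have h9 := hN16' u
    have h10 := hN16' v
    exact ⟨hu, hv, bl_mono hne (by omega) hv h6, by omega⟩
  -- probabilities
  have hprob : ∀ v T, (((Tab (D v) T).filter fun T => BadEv dm viol 𝓑 A N v T).card : ℝ) ≤
      (η ^ (4 * N v) / 2) ^ 2 * (k : ℝ) ^ (D v).card := by
    intro v T
    by_cases hv : v ∈ 𝓑
    · have hLf : {l : List V | (Pyr dm v l ∧ ∀ u ∈ l, u ∈ 𝓑) ∧
          (N v ≤ A * l.length ∧ 4 * l.length ≤ N v)}.Finite := by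
        refine (pyr_fin_lists hfin hne v (N v)).subset ?_
        rintro l ⟨⟨h1, h2⟩, h3, h4⟩
        exact ⟨h1, h2, by omega⟩
      have h1 := pyr_prob hloc hne (d := d) (by
        intro I hI
        choose! U hU1 hU2 using hdeg
        refine ⟨I.biUnion U, ?_, ?_⟩
        · refine Finset.card_biUnion_le.trans ?_
          refine (Finset.sum_le_sum fun v hv => hU1 v (hI v hv)).trans ?_
          rw [Finset.sum_const, smul_eq_mul, Nat.mul_comm]
        · intro w hw v hv hm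
          exact Finset.mem_biUnion.2 ⟨v, hv, hU2 v (hI v hv) w hw hm⟩) hw hs hp
        (pow_nonneg hη0.le 10) (pow_le_one₀ hη0.le hη1.le) hws A (N v) hpw hviol v hv
        hLf.toFinset (D v) (by
          intro l hl
          simp only [Finite.mem_toFinset, mem_ofPred_eq] at hl
          obtain ⟨⟨h1, h2⟩, h3, h4⟩ := hl
          refine ⟨h1, h2, h3, ?_⟩
          intro c hc
          rw [mem_cells] at hc
          obtain ⟨u, hu1, hu2⟩ := cnt_pos (lt_of_le_of_lt (Nat.zero_le _) hc)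
          rw [hD]
          have h5 := pyr_bl hne h1 h2 u hu1
          refine ⟨hv, ⟨u, bl_mono hne (by omega) hv h5, hu2⟩, ?_⟩
          have := cnt_le (dm := dm) l c.1
          have := hN16' v
          omega) T
      have e1 : (Tab (D v) T).filter (fun T => BadEv dm viol 𝓑 A N v T) =
          (Tab (D v) T).filter (fun T => ∃ l ∈ hLf.toFinset, Cons dm viol l T) := by
        apply Finset.filter_congr
        intro S _
        simp only [BadEv, Finite.mem_toFinset, mem_ofPred_eq, hv, true_and, and_assoc]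
      rw [e1]
      refine h1.trans (mul_le_mul_of_nonneg_right ?_ (by positivity))
      have h2 : η ^ (2 * N v) ≤ η ^ (2 * N₀) :=
        pow_le_pow_of_le_one hη0.le hη1.le (Nat.mul_le_mul_left _ (hN1 v).1)
      have h3 : 4 * s * η ^ (2 * N v) ≤ 1 :=
        (mul_le_mul_of_nonneg_left h2 (by positivity)).trans hNs
      have h4 : (0 : ℝ) ≤ η ^ (8 * N v) := by positivity
      have e2 : (η ^ 10) ^ N v = η ^ (2 * N v) * η ^ (8 * N v) := by
        rw [← pow_mul, ← pow_add]; congr 1; ring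
      have e3 : (η ^ (4 * N v) / 2) ^ 2 = η ^ (8 * N v) / 4 := by
        rw [div_pow, ← pow_mul]; norm_num; congr 1; ring
      rw [e2, e3]
      nlinarith
    · rw [Finset.filter_false_of_mem (fun S _ h => hv h.1)]
      simp only [Finset.card_empty, Nat.cast_zero]
      positivity
  -- the local lemma condition
  have hθ : ∀ v, ∀ J : Finset V, (∀ u ∈ J, u ≠ v ∧ ¬ Disjoint (D v) (D u)) →
      η ^ (4 * N v) / 2 ≤ η ^ (4 * N v) * ∏ u ∈ J, (1 - η ^ (4 * N u)) := by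
    intro v J hJ
    have h0 : (0 : ℝ) ≤ η ^ (4 * N v) := by positivity
    by_cases hJe : J = ∅
    · rw [hJe, Finset.prod_empty]; linarith
    obtain ⟨u₀, hu₀⟩ := Finset.nonempty_iff_ne_empty.2 hJe
    have hv : v ∈ 𝓑 := (hdist u₀ v (hJ u₀ hu₀).2).2.1
    have h1 : ∀ u ∈ J, η ^ (4 * N u) ≤ η ^ (2 * N v) := by
      intro u hu
      have := (hdist u v (hJ u hu).2).2.2.2
      exact pow_le_pow_of_le_one hη0.le hη1.le (by omega)
    have h2 : (J.card : ℝ) ≤ be dm 𝓑 (N v) v := by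
      unfold be
      rw [Nat.cast_le, Set.ncard_eq_toFinset_card _ (bl_fin hfin _ _)]
      refine Finset.card_le_card fun u hu => ?_
      simp only [Finite.mem_toFinset, mem_ofPred_eq]
      exact (hdist u v (hJ u hu).2).2.2.1
    have h3 : be dm 𝓑 (N v) v * η ^ N v ≤ 1 := by
      refine (hN1 v).2 hv 0 (N v) v rfl ?_
      rw [Nat.add_zero, Nat.one_mul]
    have h4 : η ^ N v ≤ 1 / 2 :=
      (pow_le_pow_of_le_one hη0.le hη1.le (hN1 v).1).trans hNh
    have h5 : ∑ u ∈ J, η ^ (4 * N u) ≤ 1 / 2 := by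
      calc ∑ u ∈ J, η ^ (4 * N u) ≤ ∑ u ∈ J, η ^ (2 * N v) := Finset.sum_le_sum h1
        _ = J.card * (η ^ N v * η ^ N v) := by
            rw [Finset.sum_const, nsmul_eq_mul, ← pow_add]; congr 2; ring
        _ ≤ be dm 𝓑 (N v) v * (η ^ N v * η ^ N v) :=
            mul_le_mul_of_nonneg_right h2 (by positivity)
        _ = (be dm 𝓑 (N v) v * η ^ N v) * η ^ N v := by ring
        _ ≤ 1 * η ^ N v := mul_le_mul_of_nonneg_right h3 (by positivity)
        _ ≤ 1 / 2 := by rw [one_mul]; exact h4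
    have h6 := one_sub_sum_le' J (fun u => η ^ (4 * N u)) (fun u _ => by positivity)
      (fun u _ => pow_le_one₀ hη0.le hη1.le)
    have h7 : (1 : ℝ) / 2 ≤ ∏ u ∈ J, (1 - η ^ (4 * N u)) := by
      linarith
    calc η ^ (4 * N v) / 2 = η ^ (4 * N v) * (1 / 2) := by ring
      _ ≤ _ := mul_le_mul_of_nonneg_left h7 h0
  have hωlt : ∀ v, η ^ (4 * N v) < 1 := by
    intro v
    have := hN16' v
    exact pow_lt_one₀ hη0.le hη1 (by omega)
  obtain ⟨Z, T, hZm, hZ0, hZi, hT, hT'⟩ := twoPhase_hyp hk hDm hDfin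
    (μ.map fun x => ((x, 0) : X × ℕ)) F' hF'e hF'm hF'f hF'i hF'D
    (fun v T => BadEv dm viol 𝓑 A N v T)
    (by
      intro v S S' hSS
      refine and_congr_right fun hv => exists_congr fun l => and_congr_right fun hl =>
        and_congr_right fun hlen => cons_congr hloc fun x r hr => hSS _ ?_
      obtain ⟨u, hu1, hu2⟩ := cnt_pos (lt_of_le_of_lt (Nat.zero_le _) hr)
      rw [hD]
      have h5 := pyr_bl hne hl.1 hl.2 u hu1
      refine ⟨hv, ⟨u, bl_mono hne (by omega) hv h5, hu2⟩, ?_⟩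
      have := cnt_le (dm := dm) l x
      have := hN16' v
      omega)
    (fun T hT => badEv_meas h𝓑 hdm hfin hne hvm A hNm hT)
    (fun v => η ^ (4 * N v)) (fun v => η ^ (4 * N v) / 2) (fun v => by positivity) hωlt
    (fun v => by positivity) (fun v => by linarith [hωlt v])
    ((measurable_of_countable (fun n : ℕ => η ^ (4 * n) / 2)).comp hNm) hθ hprob
  obtain ⟨𝓑₂, h𝓑₂⟩ : ∃ 𝓑₂ : Set V, ∀ v, v ∈ 𝓑₂ ↔ v ∈ 𝓑 ∧ ∀ y ∈ D v, y ∉ Z :=
    ⟨{v | v ∈ 𝓑 ∧ ∀ y ∈ D v, y ∉ Z}, fun _ => Iff.rfl⟩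
  have h𝓑₂m : MeasurableSet 𝓑₂ := by
    have e : 𝓑₂ = 𝓑 ∩ {v | ∃ y, (v, y) ∈ {q : V × (X × ℕ) | q.2 ∈ D q.1 ∧ q.2 ∈ Z}}ᶜ := by
      ext v
      simp only [h𝓑₂, mem_inter_iff, mem_compl_iff, mem_ofPred_eq, not_exists, not_and]
    rw [e]
    refine h𝓑.inter (MeasurableSet.compl (proj (hDm.inter (measurable_snd hZm)) fun v => ?_))
    exact ((D v).finite_toSet.subset fun y hy => hy.1).countable
  have hsub : ∀ v ∈ 𝓑₂, v ∈ 𝓑 := fun v hv => ((h𝓑₂ v).1 hv).1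
  have hsmall := local_to_global (dm := dm) (viol := viol) hloc (𝓑 := 𝓑₂)
    (fun v hv => hne v (hsub v hv)) (T := T) N (d := d) (fun v _ => hN16' v) (by
      intro v hv
      obtain ⟨U, hU1, hU2⟩ := hdeg v (hsub v hv)
      refine ⟨U.filter fun w => w ∈ 𝓑₂ ∧ meets dm w v, (Finset.card_filter_le _ _).trans hU1,
        ?_, ?_⟩
      · intro w hw hm
        exact Finset.mem_filter.2 ⟨hU2 w (hsub w hw) hm, hw, hm⟩
      · intro w hw
        obtain ⟨-, h1, h2⟩ := Finset.mem_filter.1 hw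
        exact ⟨h1, hLip v (hsub v hv) 1 w (bl_one (hsub w h1) h2)⟩) (by
      intro v l h1 h2 h3 h4
      have hv : v ∈ 𝓑₂ := h2 v (pyr_mem h1)
      refine hT' v ((h𝓑₂ v).1 hv).2 ⟨hsub v hv, l, ⟨h1, fun u hu => hsub u (h2 u hu)⟩, ?_, h3⟩
      rw [hA]
      exact h4)
  obtain ⟨f, hf, hf'⟩ := run h𝓑₂m hdm
    (fun x => (hfin x).subset fun v hv => ⟨hsub v hv.1, hv.2⟩)
    (by
      intro f hf
      have h1 := hvm V (fun _ => f) (hf.comp measurable_snd)
      have e : {v | v ∈ 𝓑₂ ∧ viol v f} = 𝓑₂ ∩ (fun v : V => (v, v)) ⁻¹'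
          {q : V × V | q.2 ∈ 𝓑 ∧ viol q.2 f} := by
        ext v
        simp only [mem_ofPred_eq, mem_inter_iff, mem_preimage]
        constructor
        · rintro ⟨h1, h2⟩
          exact ⟨h1, hsub v h1, h2⟩
        · rintro ⟨h1, -, h2⟩
          exact ⟨h1, h2⟩
      rw [e]
      exact h𝓑₂m.inter ((measurable_id.prodMk measurable_id) h1)) hloc
    (fun v hv => hne v (hsub v hv)) hT N (by
      intro v l h1 h2 h3
      have h4 := hsmall v l h1 h2 h3
      have h5 : l.length ≤ 5 * (d + 1) * l.length := Nat.le_mul_of_pos_left _ (by omega)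
      omega)
  refine ⟨f, hf, {x | (x, 0) ∈ Z}, ?_, ?_⟩
  · have h1 : Measurable fun x : X => ((x, 0) : X × ℕ) := measurable_id.prodMk measurable_const
    rw [Measure.map_apply h1 hZm] at hZ0
    exact hZ0
  · intro v hv hvi x hx
    have hv2 : v ∉ 𝓑₂ := fun h => hf' v h hvi
    rw [h𝓑₂, not_and] at hv2
    have h3 := hv2 hv
    push Not at h3
    obtain ⟨y, hy1, hy2⟩ := h3
    refine hZi v y hy1 (x, 0) ?_ hy2
    rw [hD]
    have := hN16' v
    exact ⟨hv, ⟨v, bl_mono hne (Nat.zero_le _) hv rfl, hx⟩, by simp only; omega⟩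

end Pool.Agent.Helper105
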