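import Mathlib
import Pool.Agent.Helper105_Tree.Num
import Pool.Agent.Helper105_Tree.Meas
import Pool.Agent.Helper105_Sub.Core2

set_option autoImplicit false

namespace Pool.Agent.Helper105

open MeasureTheory Set
open scoped Classical ENNReal

attribute [-instance] Finset.instMeasurableSpace
attribute [local instance] finsetBorel sb_finset

/-- `reach 𝓑 n x` is the set of the points equal to `x` or reachable from `x` by a chain of at most
`n` members of `𝓑`, consecutive domains intersecting. -/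
def reach {X : Type*} {k : ℕ} (𝓑 : Set (Finset (Finset (X × Fin k)))) : ℕ → X → Set X
  | 0 => fun x => {x}
  | n + 1 => fun x => {y | y ∈ reach 𝓑 n x ∨ ∃ B ∈ 𝓑, y ∈ dom B ∧ ∃ z ∈ reach 𝓑 n x, z ∈ dom B}

/-- The growth rate allowed: `log (1 / (e * p * (d + 1))) / (100 * (d + 1))`. -/
noncomputable def rate {X : Type*} {k : ℕ} (𝓑 : Set (Finset (Finset (X × Fin k)))) : ℝ :=
  Real.log (1 / (Real.exp 1 * (pSup 𝓑).toReal * ((dSup 𝓑).toReal + 1))) /
    (100 * ((dSup 𝓑).toReal + 1))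

/-- The growth condition at a point: the exponential growth rate of `n ↦ |reach 𝓑 n x|` is less
than `rate 𝓑`. -/
def SlowGrowth {X : Type*} {k : ℕ} (𝓑 : Set (Finset (Finset (X × Fin k)))) (x : X) : Prop :=
  ∃ c < rate 𝓑, ∃ C : ℝ, ∀ n : ℕ,
    ((reach 𝓑 n x).encard : ℝ≥0∞) ≤ ENNReal.ofReal (C * Real.exp (c * n))

/-- the event `B` happens at `f`. -/
def vio {X : Type*} {k : ℕ} (B : Finset (Finset (X × Fin k))) (f : X → Fin k) : Prop :=
  ∃ φ ∈ B, ∀ q ∈ φ, f q.1 = q.2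

theorem vio_loc {X : Type*} {k : ℕ} (B : Finset (Finset (X × Fin k))) (f g : X → Fin k)
    (h : ∀ x ∈ dom B, f x = g x) : vio B f ↔ vio B g := by
  refine exists_congr fun φ => and_congr_right fun hφ => forall₂_congr fun q hq => ?_
  rw [h q.1 (fst_mem_dom hφ hq)]

theorem vio_card {X : Type*} {k : ℕ} {B : Finset (Finset (X × Fin k))}
    (hB : IsBadEvent B) (f₀ : X → Fin k) :
    ((Tab (dom B) f₀).filter (vio B)).card ≤ B.card := by
  have hch : ∀ f : X → Fin k, ∃ φ : Finset (X × Fin k), vio B f → φ ∈ B ∧ ∀ q ∈ φ, f q.1 = q.2 := by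
    intro f
    by_cases h : vio B f
    · obtain ⟨φ, h1, h2⟩ := h
      exact ⟨φ, fun _ => ⟨h1, h2⟩⟩
    · exact ⟨∅, fun h' => absurd h' h⟩
  choose c hc using hch
  refine Finset.card_le_card_of_injOn c ?_ ?_
  · intro f hf
    exact (hc f (Finset.mem_filter.1 hf).2).1
  · intro f hf g hg hfg
    have hf' := Finset.mem_filter.1 hf
    have hg' := Finset.mem_filter.1 hg
    obtain ⟨h1, h2⟩ := hc f hf'.2
    obtain ⟨h3, h4⟩ := hc g hg'.2
    funext x
    by_cases hx : x ∈ dom B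
    · obtain ⟨a, ha⟩ := val_exists hB hx h1
      have h5 := h2 _ ha
      rw [hfg] at ha
      have h6 := h4 _ ha
      exact h5.trans h6.symm
    · rw [mem_Tab.1 hf'.1 x hx, mem_Tab.1 hg'.1 x hx]

theorem vio_prob {X : Type*} {k : ℕ} (hk : 0 < k) {B : Finset (Finset (X × Fin k))}
    (hB : IsBadEvent B) {p : ℝ} (hp : prob B ≤ p) (f₀ : X → Fin k) :
    (((Tab (dom B) f₀).filter (vio B)).card : ℝ) ≤ p * (k : ℝ) ^ (dom B).card := by
  have hk' : (0 : ℝ) < k := by exact_mod_cast hk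
  have h1 : (((Tab (dom B) f₀).filter (vio B)).card : ℝ) ≤ B.card := by
    exact_mod_cast vio_card hB f₀
  refine h1.trans ?_
  unfold prob at hp
  rwa [div_le_iff₀ (by positivity)] at hp

section
universe u
variable {X : Type u} [MeasurableSpace X] [StandardBorelSpace X] {k : ℕ}

theorem vio_meas {𝓑 : Set (Finset (Finset (X × Fin k)))} (h𝓑 : MeasurableSet 𝓑)
    (Z : Type u) [MeasurableSpace Z] [StandardBorelSpace Z] (f : Z → X → Fin k)
    (hf : Measurable fun p : Z × X => f p.1 p.2) :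
    MeasurableSet {p : Z × Finset (Finset (X × Fin k)) | p.2 ∈ 𝓑 ∧ vio p.2 (f p.1)} := by
  refine (measurable_snd h𝓑).inter ?_
  have h1 : MeasurableSet {r : Z × Finset (X × Fin k) | ∃ q, (r, q) ∈
      {t : (Z × Finset (X × Fin k)) × (X × Fin k) | t.2 ∈ t.1.2 ∧ f t.1.1 t.2.1 ≠ t.2.2}} := by
    refine proj (MeasurableSet.inter ?_ (MeasurableSet.compl ?_)) ?_
    · exact (by fun_prop : Measurable fun t : (Z × Finset (X × Fin k)) × (X × Fin k) =>
        (t.1.2, t.2)) (measurableSet_mem _)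
    · refine measurableSet_eq_fun ?_ (measurable_snd.comp measurable_snd)
      exact hf.comp (by fun_prop : Measurable fun t : (Z × Finset (X × Fin k)) × (X × Fin k) =>
        (t.1.1, t.2.1))
    · rintro ⟨z, φ⟩
      exact (φ.finite_toSet.subset fun q hq => hq.1).countable
  have e : {p : Z × Finset (Finset (X × Fin k)) | vio p.2 (f p.1)} =
      {p | ∃ φ, (p, φ) ∈ {t : (Z × Finset (Finset (X × Fin k))) × Finset (X × Fin k) |
        t.2 ∈ t.1.2 ∧ (t.1.1, t.2) ∈ {r : Z × Finset (X × Fin k) | ∃ q, (r, q) ∈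
      {t : (Z × Finset (X × Fin k)) × (X × Fin k) |
        t.2 ∈ t.1.2 ∧ f t.1.1 t.2.1 ≠ t.2.2}}ᶜ}} := by
    ext ⟨z, B⟩
    simp only [mem_ofPred_eq, vio, mem_compl_iff, not_exists, not_and, ne_eq, not_not]
  show MeasurableSet {p : Z × Finset (Finset (X × Fin k)) | vio p.2 (f p.1)}
  rw [e]
  refine proj (MeasurableSet.inter ?_ ?_) ?_
  · exact (by fun_prop : Measurable fun t : (Z × Finset (Finset (X × Fin k))) ×
      Finset (X × Fin k) => (t.1.2, t.2)) (measurableSet_mem _)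
  · exact (by fun_prop : Measurable fun t : (Z × Finset (Finset (X × Fin k))) ×
      Finset (X × Fin k) => (t.1.1, t.2)) h1.compl
  · rintro ⟨z, B⟩
    exact (B.finite_toSet.subset fun φ hφ => hφ.1).countable

variable {𝓑 : Set (Finset (Finset (X × Fin k)))}

theorem reach_mono {m n : ℕ} (hmn : m ≤ n) (x : X) : reach 𝓑 m x ⊆ reach 𝓑 n x := by
  induction hmn with
  | refl => exact subset_rfl
  | step _ ih => exact fun y hy => Or.inl (ih hy)

theorem reach_trans {m n : ℕ} {x y z : X} (h1 : y ∈ reach 𝓑 m x) (h2 : z ∈ reach 𝓑 n y) :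
    z ∈ reach 𝓑 (m + n) x := by
  induction n generalizing z with
  | zero =>
    have : z = y := h2
    rw [this]; exact h1
  | succ n ih =>
    rcases h2 with h2 | ⟨B, hB, hz, w, hw, hwB⟩
    · exact Or.inl (ih h2)
    · exact Or.inr ⟨B, hB, hz, w, ih hw, hwB⟩

theorem reach_one {B : Finset (Finset (X × Fin k))} (hB : B ∈ 𝓑) {x y : X} (hx : x ∈ dom B)
    (hy : y ∈ dom B) : y ∈ reach 𝓑 1 x :=
  Or.inr ⟨B, hB, hy, x, rfl, hx⟩

theorem reach_fin (hfin : ∀ x : X, {B | B ∈ 𝓑 ∧ x ∈ dom B}.Finite) (n : ℕ) (x : X) :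
    (reach 𝓑 n x).Finite := by
  induction n with
  | zero => exact finite_singleton x
  | succ n ih =>
    refine (ih.union (ih.biUnion (t := fun z => ⋃ B ∈ {B | B ∈ 𝓑 ∧ z ∈ dom B}, (dom B : Set X))
      fun z _ => (hfin z).biUnion fun B _ => (dom B).finite_toSet)).subset ?_
    rintro y (hy | ⟨B, hB, hy, z, hz, hzB⟩)
    · exact Or.inl hy
    · refine Or.inr ?_
      simp only [mem_iUnion]
      exact ⟨z, hz, B, ⟨hB, hzB⟩, hy⟩

theorem reach_meas (h𝓑 : MeasurableSet 𝓑) (hfin : ∀ x : X, {B | B ∈ 𝓑 ∧ x ∈ dom B}.Finite)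
    (n : ℕ) : MeasurableSet {p : X × X | p.2 ∈ reach 𝓑 n p.1} := by
  induction n with
  | zero => exact measurableSet_eq_fun measurable_snd measurable_fst
  | succ n ih =>
    have e : {p : X × X | p.2 ∈ reach 𝓑 (n + 1) p.1} = {p : X × X | p.2 ∈ reach 𝓑 n p.1} ∪
        {p | ∃ t : Finset (Finset (X × Fin k)) × X, (p, t) ∈
          {r : (X × X) × (Finset (Finset (X × Fin k)) × X) |
            ((r.2.1 ∈ 𝓑 ∧ r.1.2 ∈ dom r.2.1) ∧ r.2.2 ∈ reach 𝓑 n r.1.1) ∧
              (r.2.1 ∈ 𝓑 ∧ r.2.2 ∈ dom r.2.1)}} := by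
      ext ⟨x, y⟩
      simp only [mem_ofPred_eq, reach, mem_union, Prod.exists]
      refine or_congr Iff.rfl ?_
      constructor
      · rintro ⟨B, h1, h2, z, h3, h4⟩
        exact ⟨B, z, ⟨⟨h1, h2⟩, h3⟩, h1, h4⟩
      · rintro ⟨B, z, ⟨⟨h1, h2⟩, h3⟩, -, h4⟩
        exact ⟨B, h1, h2, z, h3, h4⟩
    rw [e]
    refine ih.union (proj (MeasurableSet.inter (MeasurableSet.inter ?_ ?_) ?_) ?_)
    · exact (by fun_prop : Measurable fun r : (X × X) × (Finset (Finset (X × Fin k)) × X) =>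
        (r.1.2, r.2.1)) (inc_meas h𝓑)
    · exact (by fun_prop : Measurable fun r : (X × X) × (Finset (Finset (X × Fin k)) × X) =>
        (r.1.1, r.2.2)) ih
    · exact (by fun_prop : Measurable fun r : (X × X) × (Finset (Finset (X × Fin k)) × X) =>
        (r.2.2, r.2.1)) (inc_meas h𝓑)
    · rintro ⟨x, y⟩
      refine (((hfin y).prod (reach_fin hfin n x)).subset ?_).countable
      rintro ⟨B, z⟩ h
      exact ⟨h.1.1, h.1.2⟩

theorem reach_card_meas (h𝓑 : MeasurableSet 𝓑)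
    (hfin : ∀ x : X, {B | B ∈ 𝓑 ∧ x ∈ dom B}.Finite) (n : ℕ) :
    Measurable fun x => ((reach 𝓑 n x).ncard : ℝ) := by
  have e : (fun x => ((reach 𝓑 n x).ncard : ℝ)) =
      fun x => ∑ _y ∈ (reach_fin hfin n x).toFinset, (1 : ℝ) := by
    funext x
    rw [Set.ncard_eq_toFinset_card _ (reach_fin hfin n x)]
    simp
  rw [e]
  refine measurable_fsum (fun x => (reach_fin hfin n x).toFinset) ?_ (fun _ _ => (1 : ℝ))
    measurable_const
  have e2 : {p : X × X | p.2 ∈ (reach_fin hfin n p.1).toFinset} =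
      {p : X × X | p.2 ∈ reach 𝓑 n p.1} := by
    ext p
    simp
  rw [e2]
  exact reach_meas h𝓑 hfin n

/-- Numbers extracted from correctness. -/
theorem slll_data (hk : 0 < k) (hbad : ∀ B ∈ 𝓑, IsBadEvent B) (h : CorrectSLLL 𝓑)
    (hne : 𝓑.Nonempty) : ∃ (p : ℝ) (d : ℕ), p = (pSup 𝓑).toReal ∧ (d : ℝ) = (dSup 𝓑).toReal ∧
      0 < p ∧ Real.exp 1 * p * (d + 1) < 1 ∧ (∀ B ∈ 𝓑, prob B ≤ p) ∧
      ∀ B ∈ 𝓑, (nbhd 𝓑 B).Finite ∧ (nbhd 𝓑 B).ncard ≤ d := by
  obtain ⟨B0, hB0⟩ := hne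
  have hple : ∀ B ∈ 𝓑, ENNReal.ofReal (prob B) ≤ pSup 𝓑 := fun B hB =>
    le_iSup₂ (f := fun B (_ : B ∈ 𝓑) => ENNReal.ofReal (prob B)) B hB
  have hdle : ∀ B ∈ 𝓑, ((nbhd 𝓑 B).encard : ℝ≥0∞) ≤ dSup 𝓑 := fun B hB =>
    le_iSup₂ (f := fun B (_ : B ∈ 𝓑) => ((nbhd 𝓑 B).encard : ℝ≥0∞)) B hB
  have hp0 : 0 < pSup 𝓑 :=
    lt_of_lt_of_le (ENNReal.ofReal_pos.2 (prob_pos hk (hbad B0 hB0))) (hple B0 hB0)
  unfold CorrectSLLL at h
  have he : ENNReal.ofReal (Real.exp 1) ≠ 0 := by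
    have := ENNReal.ofReal_pos.2 (Real.exp_pos 1)
    exact this.ne'
  have hdtop : dSup 𝓑 ≠ ⊤ := by
    intro hd
    rw [hd, top_add, ENNReal.mul_top (mul_ne_zero he hp0.ne')] at h
    exact absurd h (by simp)
  have hptop : pSup 𝓑 ≠ ⊤ := by
    intro hd
    rw [hd, ENNReal.mul_top he, ENNReal.top_mul (by simp)] at h
    exact absurd h (by simp)
  have hmain : Real.exp 1 * (pSup 𝓑).toReal * ((dSup 𝓑).toReal + 1) < 1 := by
    have h1 := (ENNReal.toReal_lt_toReal (ne_of_lt (h.trans ENNReal.one_lt_top))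
      ENNReal.one_ne_top).2 h
    rw [ENNReal.toReal_mul, ENNReal.toReal_mul, ENNReal.toReal_ofReal (Real.exp_pos 1).le,
      ENNReal.toReal_add hdtop ENNReal.one_ne_top, ENNReal.toReal_one] at h1
    exact h1
  have hpB : ∀ B ∈ 𝓑, prob B ≤ (pSup 𝓑).toReal := fun B hB =>
    (ENNReal.ofReal_le_iff_le_toReal hptop).1 (hple B hB)
  have hnB : ∀ B ∈ 𝓑, (nbhd 𝓑 B).Finite ∧ ((nbhd 𝓑 B).ncard : ℝ) ≤ (dSup 𝓑).toReal := by
    intro B hB
    have hfin : (nbhd 𝓑 B).Finite := by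
      by_contra hinf
      have h1 : (nbhd 𝓑 B).encard = ⊤ := Set.encard_eq_top_iff.2 hinf
      have h2 := hdle B hB
      rw [h1] at h2
      exact hdtop (top_le_iff.1 (by simpa using h2))
    refine ⟨hfin, ?_⟩
    have h2 := hdle B hB
    rw [← hfin.cast_ncard_eq] at h2
    have h3 := ENNReal.toReal_mono hdtop h2
    simpa using h3
  obtain ⟨d, hd⟩ : ∃ d : ℕ, d = ⌊(dSup 𝓑).toReal⌋₊ := ⟨_, rfl⟩
  have hnd : ∀ B ∈ 𝓑, (nbhd 𝓑 B).ncard ≤ d := by
    intro B hB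
    rw [hd]
    exact Nat.le_floor (hnB B hB).2
  have hdd : (d : ℝ) = (dSup 𝓑).toReal := by
    refine le_antisymm ?_ ?_
    · rw [hd]; exact Nat.floor_le ENNReal.toReal_nonneg
    · have h1 : dSup 𝓑 ≤ (d : ℝ≥0∞) := by
        refine iSup₂_le fun B hB => ?_
        rw [← (hnB B hB).1.cast_ncard_eq]
        exact_mod_cast hnd B hB
      have h2 := ENNReal.toReal_mono (by simp) h1
      simpa using h2
  refine ⟨(pSup 𝓑).toReal, d, rfl, hdd, ENNReal.toReal_pos hp0.ne' hptop, ?_, hpB,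
    fun B hB => ⟨(hnB B hB).1, hnd B hB⟩⟩
  rw [hdd]; exact hmain

end

end Pool.Agent.Helper105
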