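import Mathlib
import Pool.Agent.Helper105_Sub.Growth

set_option autoImplicit false

namespace Pool.Agent.Helper105

open MeasureTheory Set
open scoped Classical ENNReal

attribute [-instance] Finset.instMeasurableSpace
attribute [local instance] finsetBorel sb_finset

theorem one_add_inv_pow (d : ℕ) (hd : 0 < d) : (1 + 1 / (d : ℝ)) ^ d ≤ Real.exp 1 := by
  have hd' : (0 : ℝ) < d := by exact_mod_cast hd
  calc (1 + 1 / (d : ℝ)) ^ d ≤ (Real.exp (1 / (d : ℝ))) ^ d := by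
        refine pow_le_pow_left₀ (by positivity) ?_ _
        have := Real.add_one_le_exp (1 / (d : ℝ))
        linarith
    _ = Real.exp 1 := by
        rw [← Real.exp_nat_mul]
        congr 1
        field_simp

theorem exists_s (d : ℕ) : ∃ s : ℝ, 0 < s ∧
    (1 + s) ^ (d + 1) ≤ s * (Real.exp 1 * (d + 1)) := by
  rcases Nat.eq_zero_or_pos d with rfl | hd
  · refine ⟨1, one_pos, ?_⟩
    have := Real.add_one_le_exp (1 : ℝ)
    norm_num
    linarith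
  · have hd' : (0 : ℝ) < d := by exact_mod_cast hd
    refine ⟨1 / d, by positivity, ?_⟩
    have h1 := one_add_inv_pow d hd
    calc (1 + 1 / (d : ℝ)) ^ (d + 1) = (1 + 1 / (d : ℝ)) ^ d * (1 + 1 / (d : ℝ)) := pow_succ _ _
      _ ≤ Real.exp 1 * (1 + 1 / (d : ℝ)) := mul_le_mul_of_nonneg_right h1 (by positivity)
      _ = _ := by field_simp

section
universe u
variable {X : Type u} [MeasurableSpace X] [StandardBorelSpace X] {k : ℕ}
  {𝓑 : Set (Finset (Finset (X × Fin k)))}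

theorem dom_nonempty (hk : 0 < k) (hbad : ∀ B ∈ 𝓑, IsBadEvent B) {p : ℝ} {d : ℕ}
    (hlt : Real.exp 1 * p * (d + 1) < 1) (hpB : ∀ B ∈ 𝓑, prob B ≤ p) :
    ∀ B ∈ 𝓑, (dom B).Nonempty := by
  intro B hB
  by_contra hcon
  rw [Finset.not_nonempty_iff_eq_empty] at hcon
  have h1 := hpB B hB
  have h2 : 1 ≤ prob B := by
    unfold prob
    rw [hcon, Finset.card_empty, pow_zero, div_one]
    have := Finset.card_pos.2 (hbad B hB).nonempty
    exact_mod_cast this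
  have h3 := Real.add_one_le_exp (1 : ℝ)
  have hd : (0 : ℝ) ≤ d := Nat.cast_nonneg d
  have h4 : 2 ≤ Real.exp 1 * p := by nlinarith
  nlinarith

theorem events_at (hdeg : ∀ B ∈ 𝓑, (nbhd 𝓑 B).Finite) (x : X) :
    {B | B ∈ 𝓑 ∧ x ∈ dom B}.Finite := by
  by_cases hx : ∃ B, B ∈ 𝓑 ∧ x ∈ dom B
  · obtain ⟨B0, hB0, hx0⟩ := hx
    refine ((hdeg B0 hB0).insert B0).subset ?_
    rintro B ⟨h1, h2⟩
    by_cases h : B = B0
    · exact Or.inl h
    · exact Or.inr ⟨h1, h, x, h2, hx0⟩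
  · have : {B | B ∈ 𝓑 ∧ x ∈ dom B} = ∅ := by
      ext B
      simp only [mem_ofPred_eq, mem_empty_iff_false, iff_false]
      exact fun h => hx ⟨B, h⟩
    rw [this]
    exact finite_empty

theorem events_at_card {d : ℕ} (hdeg : ∀ B ∈ 𝓑, (nbhd 𝓑 B).Finite ∧ (nbhd 𝓑 B).ncard ≤ d)
    (x : X) : {B | B ∈ 𝓑 ∧ x ∈ dom B}.ncard ≤ d + 1 := by
  by_cases hx : ∃ B, B ∈ 𝓑 ∧ x ∈ dom B
  · obtain ⟨B0, hB0, hx0⟩ := hx
    have h1 : {B | B ∈ 𝓑 ∧ x ∈ dom B} ⊆ insert B0 (nbhd 𝓑 B0) := by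
      rintro B ⟨h1, h2⟩
      by_cases h : B = B0
      · exact Or.inl h
      · exact Or.inr ⟨h1, h, x, h2, hx0⟩
    refine (Set.ncard_le_ncard h1 ((hdeg B0 hB0).1.insert B0)).trans ?_
    exact (Set.ncard_insert_le _ _).trans (Nat.add_le_add_right (hdeg B0 hB0).2 1)
  · have : {B | B ∈ 𝓑 ∧ x ∈ dom B} = ∅ := by
      ext B
      simp only [mem_ofPred_eq, mem_empty_iff_false, iff_false]
      exact fun h => hx ⟨B, h⟩
    rw [this, ncard_empty]
    omega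

theorem bl_reach {𝓑' : Set (Finset (Finset (X × Fin k)))} (hsub : 𝓑' ⊆ 𝓑) {v : _} (hv : v ∈ 𝓑')
    {x : X} (hx : x ∈ dom v) (n : ℕ) {w : _} (hw : Bl dom 𝓑' n v w) :
    ∀ y ∈ dom w, y ∈ reach 𝓑 (n + 1) x := by
  induction n generalizing w with
  | zero =>
    intro y hy
    rw [Bl] at hw
    subst hw
    exact reach_one (hsub hv) hx hy
  | succ n ih =>
    obtain ⟨h1, u, h2, z, h3, h4⟩ := hw
    intro y hy
    exact Or.inr ⟨w, hsub h1, hy, z, ih h2 z h4, h3⟩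

theorem be_reach {d : ℕ} (hdeg : ∀ B ∈ 𝓑, (nbhd 𝓑 B).Finite ∧ (nbhd 𝓑 B).ncard ≤ d)
    (hne : ∀ B ∈ 𝓑, (dom B).Nonempty)
    {𝓑' : Set (Finset (Finset (X × Fin k)))} (hsub : 𝓑' ⊆ 𝓑) {v : _} (hv : v ∈ 𝓑')
    {x : X} (hx : x ∈ dom v) (n : ℕ) :
    be dom 𝓑' n v ≤ (d + 1) * (reach 𝓑 (n + 1) x).ncard := by
  have hfin := events_at (𝓑 := 𝓑) fun B hB => (hdeg B hB).1
  have hrf := reach_fin hfin (n + 1) x
  have h1 : {w | Bl dom 𝓑' n v w} ⊆
      (⋃ y ∈ hrf.toFinset, {B | B ∈ 𝓑 ∧ y ∈ dom B}) := by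
    intro w hw
    have hw' : w ∈ 𝓑' := bl_mem hv hw
    obtain ⟨y, hy⟩ := hne w (hsub hw')
    simp only [Finite.mem_toFinset, mem_iUnion]
    exact ⟨y, bl_reach hsub hv hx n hw y hy, hsub hw', hy⟩
  have hfinU : (⋃ y ∈ hrf.toFinset, {B | B ∈ 𝓑 ∧ y ∈ dom B}).Finite :=
    Set.Finite.biUnion (Finset.finite_toSet _) fun y _ => hfin y
  have h2 := Set.ncard_le_ncard h1 hfinU
  have h3 : (⋃ y ∈ hrf.toFinset, {B | B ∈ 𝓑 ∧ y ∈ dom B}).ncard ≤
      ∑ _y ∈ hrf.toFinset, (d + 1) := by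
    refine (Finset.set_ncard_biUnion_le _ _).trans ?_
    exact Finset.sum_le_sum fun y _ => events_at_card hdeg y
  have h4 : {w | Bl dom 𝓑' n v w}.ncard ≤ (d + 1) * (reach 𝓑 (n + 1) x).ncard := by
    refine h2.trans (h3.trans (le_of_eq ?_))
    rw [Finset.sum_const, smul_eq_mul, Set.ncard_eq_toFinset_card _ hrf, Nat.mul_comm]
  unfold be
  exact_mod_cast h4

theorem slow_iff (hfin : ∀ x : X, {B | B ∈ 𝓑 ∧ x ∈ dom B}.Finite) (x : X) :
    SlowGrowth 𝓑 x ↔ ∃ c : ℚ, (c : ℝ) < rate 𝓑 ∧ ∃ C : ℕ, ∀ n : ℕ,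
      ((reach 𝓑 n x).ncard : ℝ) ≤ C * Real.exp (c * n) := by
  have hcast : ∀ n : ℕ, ((reach 𝓑 n x).encard : ℝ≥0∞) = ((reach 𝓑 n x).ncard : ℝ≥0∞) := by
    intro n
    rw [← (reach_fin hfin n x).cast_ncard_eq]
    simp
  constructor
  · rintro ⟨c, hc, C, hC⟩
    obtain ⟨q, hq1, hq2⟩ := exists_rat_btwn hc
    obtain ⟨N, hN⟩ := exists_nat_ge C
    refine ⟨q, hq2, N, fun n => ?_⟩
    have h1 := hC n
    rw [hcast] at h1
    have hpos : 0 < (reach 𝓑 n x).ncard := by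
      rw [Set.ncard_pos (reach_fin hfin n x)]
      exact ⟨x, reach_mono (Nat.zero_le n) x rfl⟩
    have h2 : ((reach 𝓑 n x).ncard : ℝ) ≤ C * Real.exp (c * n) := by
      have h3 := ENNReal.toReal_mono ENNReal.ofReal_ne_top h1
      rw [ENNReal.toReal_natCast, ENNReal.toReal_ofReal'] at h3
      rcases le_max_iff.1 h3 with h | h
      · exact h
      · have : (0 : ℝ) < (reach 𝓑 n x).ncard := by exact_mod_cast hpos
        linarith
    refine h2.trans ?_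
    have h4 : Real.exp (c * n) ≤ Real.exp (q * n) :=
      Real.exp_le_exp.2 (mul_le_mul_of_nonneg_right hq1.le (Nat.cast_nonneg n))
    calc C * Real.exp (c * n) ≤ N * Real.exp (c * n) :=
          mul_le_mul_of_nonneg_right hN (Real.exp_pos _).le
      _ ≤ N * Real.exp (q * n) := mul_le_mul_of_nonneg_left h4 (Nat.cast_nonneg _)
  · rintro ⟨c, hc, C, hC⟩
    refine ⟨c, hc, C, fun n => ?_⟩
    rw [hcast]
    have := ENNReal.ofReal_le_ofReal (hC n)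
    rwa [ENNReal.ofReal_natCast] at this

theorem slow_meas (h𝓑 : MeasurableSet 𝓑) (hfin : ∀ x : X, {B | B ∈ 𝓑 ∧ x ∈ dom B}.Finite) :
    MeasurableSet {x : X | SlowGrowth 𝓑 x} := by
  have e : {x : X | SlowGrowth 𝓑 x} = ⋃ c : ℚ, ⋃ (_ : (c : ℝ) < rate 𝓑), ⋃ C : ℕ, ⋂ n : ℕ,
      {x | ((reach 𝓑 n x).ncard : ℝ) ≤ C * Real.exp (c * n)} := by
    ext x
    simp only [mem_ofPred_eq, slow_iff hfin, mem_iUnion, mem_iInter, exists_prop]
  rw [e]
  exact MeasurableSet.iUnion fun c => MeasurableSet.iUnion fun _ => MeasurableSet.iUnion fun C =>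
    MeasurableSet.iInter fun n => measurableSet_le (reach_card_meas h𝓑 hfin n) measurable_const

theorem slow_inv (hfin : ∀ x : X, {B | B ∈ 𝓑 ∧ x ∈ dom B}.Finite) {B : _} (hB : B ∈ 𝓑) {x y : X}
    (hx : x ∈ dom B) (hy : y ∈ dom B) (h : SlowGrowth 𝓑 x) : SlowGrowth 𝓑 y := by
  rw [slow_iff hfin] at h ⊢
  obtain ⟨c, hc, C, hC⟩ := h
  obtain ⟨N, hN⟩ := exists_nat_ge (C * Real.exp c)
  refine ⟨c, hc, N, fun n => ?_⟩
  have h1 : reach 𝓑 n y ⊆ reach 𝓑 (1 + n) x := fun z hz => reach_trans (reach_one hB hx hy) hz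
  have h2 : ((reach 𝓑 n y).ncard : ℝ) ≤ (reach 𝓑 (1 + n) x).ncard := by
    exact_mod_cast Set.ncard_le_ncard h1 (reach_fin hfin _ _)
  calc ((reach 𝓑 n y).ncard : ℝ) ≤ C * Real.exp (c * ((1 + n : ℕ) : ℝ)) := h2.trans (hC _)
    _ = (C * Real.exp c) * Real.exp (c * n) := by
        push_cast
        rw [mul_add, Real.exp_add]; ring
    _ ≤ N * Real.exp (c * n) := mul_le_mul_of_nonneg_right hN (Real.exp_pos _).le

/-- Hyperfinite instances of slow growth. -/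
theorem main_growth (hk : 0 < k) (h𝓑 : MeasurableSet 𝓑) (hbad : ∀ B ∈ 𝓑, IsBadEvent B)
    (hcor : CorrectSLLL 𝓑) (μ : Measure X) [IsProbabilityMeasure μ]
    (hH : MuHyperfinite μ (Joined 𝓑)) (hgrow : ∀ᵐ x ∂μ, SlowGrowth 𝓑 x) :
    ∃ f : X → Fin k, Measurable f ∧ μ (defect f 𝓑) = 0 := by
  by_cases hne0 : 𝓑.Nonempty
  swap
  · refine ⟨fun _ => ⟨0, hk⟩, measurable_const, ?_⟩
    have : defect (fun _ => (⟨0, hk⟩ : Fin k)) 𝓑 = ∅ := by
      ext x
      simp only [defect, mem_ofPred_eq, mem_empty_iff_false, iff_false]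
      rintro ⟨B, hB, -⟩
      exact hne0 ⟨B, hB⟩
    rw [this, measure_empty]
  obtain ⟨p, d, hp, hd, hp0, hlt, hpB, hdeg⟩ := slll_data hk hbad hcor hne0
  have hne := dom_nonempty hk hbad hlt hpB
  have hfin := events_at (𝓑 := 𝓑) fun B hB => (hdeg B hB).1
  obtain ⟨Y, hYm, hYμ, hYi, F, hF, hFm, hFf, hFi, hFE⟩ := hH
  obtain ⟨G, hG⟩ : ∃ G : Set X, G = Y ∩ {x | SlowGrowth 𝓑 x} := ⟨_, rfl⟩
  have hGm : MeasurableSet G := by rw [hG]; exact hYm.inter (slow_meas h𝓑 hfin)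
  have hGμ : μ Gᶜ = 0 := by
    rw [hG, compl_inter]
    exact measure_union_null hYμ (by rw [ae_iff] at hgrow; exact hgrow)
  have hGi : ∀ B ∈ 𝓑, ∀ x ∈ dom B, ∀ y ∈ dom B, x ∈ G → y ∈ G := by
    intro B hB x hx y hy hxG
    rw [hG] at hxG ⊢
    exact ⟨hYi x y (Relation.EqvGen.rel _ _ ⟨B, hB, hx, hy⟩) hxG.1,
      slow_inv hfin hB hx hy hxG.2⟩
  obtain ⟨𝓑', h𝓑'⟩ : ∃ 𝓑' : Set (Finset (Finset (X × Fin k))), ∀ B, B ∈ 𝓑' ↔
      B ∈ 𝓑 ∧ ∀ x ∈ dom B, x ∈ G := ⟨{B | B ∈ 𝓑 ∧ ∀ x ∈ dom B, x ∈ G}, fun _ => Iff.rfl⟩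
  have hsub : 𝓑' ⊆ 𝓑 := fun B hB => ((h𝓑' B).1 hB).1
  have h𝓑'm : MeasurableSet 𝓑' := by
    have e : 𝓑' = 𝓑 ∩ {B | ∃ x, (B, x) ∈ {p : Finset (Finset (X × Fin k)) × X |
        p.2 ∈ dom p.1 ∧ p.2 ∈ Gᶜ}}ᶜ := by
      ext B
      simp only [h𝓑', mem_ofPred_eq, mem_inter_iff, mem_compl_iff, not_exists, not_and, not_not]
    rw [e]
    refine h𝓑.inter (MeasurableSet.compl (proj ?_ ?_))
    · exact dom_meas.inter (measurable_snd hGm.compl)
    · intro B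
      exact ((dom B).finite_toSet.subset fun x hx => hx.1).countable
  -- the constants
  obtain ⟨s, hs0, hs⟩ := exists_s d
  obtain ⟨Λ, hΛ⟩ : ∃ Λ : ℝ, Λ = 1 / (Real.exp 1 * p * (d + 1)) := ⟨_, rfl⟩
  have hexp := Real.exp_pos 1
  have hd1 : (0 : ℝ) < d + 1 := by positivity
  have hden : 0 < Real.exp 1 * p * (d + 1) := by positivity
  have hΛ1 : 1 < Λ := by rw [hΛ, lt_div_iff₀ hden]; linarith
  have hΛ0 : 0 < Λ := by linarith
  have hlog : 0 < Real.log Λ := Real.log_pos hΛ1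
  have hrate : rate 𝓑 = Real.log Λ / (100 * (d + 1)) := by
    unfold rate
    rw [← hp, ← hd, ← hΛ]
  obtain ⟨η, hη⟩ : ∃ η : ℝ, η = Real.exp (-(Real.log Λ / (50 * (d + 1)))) := ⟨_, rfl⟩
  have hη0 : 0 < η := by rw [hη]; exact Real.exp_pos _
  have hη1 : η < 1 := by
    rw [hη]
    refine lt_of_lt_of_eq (Real.exp_lt_exp.2 ?_) Real.exp_zero
    have : 0 < Real.log Λ / (50 * (d + 1)) := by positivity
    linarith
  have hηΛ : (η ^ 10) ^ (5 * (d + 1)) = 1 / Λ := by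
    rw [← pow_mul, hη, ← Real.exp_nat_mul]
    have : ((10 * (5 * (d + 1)) : ℕ) : ℝ) * -(Real.log Λ / (50 * (d + 1))) = -Real.log Λ := by
      push_cast
      field_simp
      ring
    rw [this, Real.exp_neg, Real.exp_log hΛ0, one_div]
  have hspos : (0 : ℝ) < (1 + s) ^ (d + 1) := by positivity
  obtain ⟨f, hf, Z₀, hZ₀, hf'⟩ := core (dm := dom) (viol := vio) hk h𝓑'm dom_meas
    (fun x => (hfin x).subset fun B hB => ⟨hsub hB.1, hB.2⟩)
    (fun B hB => hne B (hsub hB)) (fun Z _ _ f hf => vio_meas h𝓑'm Z f hf) vio_loc (d := d)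
    (by
      intro B hB
      have h1 := hdeg B (hsub hB)
      refine ⟨insert B h1.1.toFinset, ?_, ?_⟩
      · refine (Finset.card_insert_le _ _).trans ?_
        rw [← Set.ncard_eq_toFinset_card _ h1.1]
        exact Nat.add_le_add_right h1.2 1
      · intro B' hB' hm
        rw [Finset.mem_insert]
        by_cases h : B' = B
        · exact Or.inl h
        · refine Or.inr ?_
          rw [Finite.mem_toFinset]
          exact ⟨hsub hB', h, hm⟩)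
    (w := s / (1 + s) ^ (d + 1)) (s := s) (p := p) (η := η) (by positivity) hs0.le hp0.le hη0 hη1
    (by rw [div_mul_cancel₀ _ hspos.ne'])
    (by
      rw [hηΛ, hΛ, one_div_one_div, div_mul_eq_mul_div, le_div_iff₀ hspos]
      calc p * (1 + s) ^ (d + 1) ≤ p * (s * (Real.exp 1 * (d + 1))) :=
            mul_le_mul_of_nonneg_left hs hp0.le
        _ = _ := by ring)
    (fun B hB f₀ => vio_prob hk (hbad B (hsub hB)) (hpB B (hsub hB)) f₀)
    (by
      intro B hB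
      obtain ⟨x, hx⟩ := hne B (hsub hB)
      have hxG := ((h𝓑' B).1 hB).2 x hx
      rw [hG] at hxG
      obtain ⟨c, hc, C, hC⟩ := (slow_iff hfin x).1 hxG.2
      obtain ⟨c', hc'⟩ : ∃ c' : ℝ, c' = max (c : ℝ) 0 := ⟨_, rfl⟩
      have hc'0 : 0 ≤ c' := by rw [hc']; exact le_max_right _ _
      have hcc' : (c : ℝ) ≤ c' := by rw [hc']; exact le_max_left _ _
      have hc'r : c' < Real.log Λ / (100 * (d + 1)) := by
        rw [hc', max_lt_iff, ← hrate]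
        refine ⟨hc, ?_⟩
        rw [hrate]; positivity
      refine ⟨(d + 1) * (C * Real.exp c'), Real.exp c', Real.one_le_exp hc'0, ?_, fun n => ?_⟩
      · rw [hη, ← Real.exp_nat_mul, ← Real.exp_add]
        refine lt_of_lt_of_eq (Real.exp_lt_exp.2 ?_) Real.exp_zero
        push_cast
        have h1 : Real.log Λ / (50 * (d + 1)) = 2 * (Real.log Λ / (100 * (d + 1))) := by
          field_simp
          ring
        rw [h1]
        linarith
      · have h1 := be_reach hdeg hne hsub hB hx n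
        have h2 := hC (n + 1)
        have h3 : Real.exp (c * ((n + 1 : ℕ) : ℝ)) ≤ Real.exp c' * Real.exp c' ^ n := by
          rw [← Real.exp_nat_mul, ← Real.exp_add]
          apply Real.exp_le_exp.2
          push_cast
          nlinarith [(Nat.cast_nonneg n : (0 : ℝ) ≤ n)]
        calc be dom 𝓑' n B ≤ (d + 1) * (reach 𝓑 (n + 1) x).ncard := h1
          _ ≤ (d + 1) * (C * Real.exp (c * ((n + 1 : ℕ) : ℝ))) :=
              mul_le_mul_of_nonneg_left h2 hd1.le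
          _ ≤ (d + 1) * (C * (Real.exp c' * Real.exp c' ^ n)) :=
              mul_le_mul_of_nonneg_left (mul_le_mul_of_nonneg_left h3 (Nat.cast_nonneg _)) hd1.le
          _ = _ := by ring)
    μ F hF hFm hFf hFi
    (by
      intro B hB x hx y hy
      have hxG := ((h𝓑' B).1 hB).2 x hx
      rw [hG] at hxG
      exact (hFE x hxG.1 y).1 (Relation.EqvGen.rel _ _ ⟨B, hsub hB, hx, hy⟩))
  refine ⟨f, hf, measure_mono_null ?_ (measure_union_null hZ₀ hGμ)⟩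
  rintro x ⟨B, hB, φ, hφ, hx, hall⟩
  by_cases hxG : x ∈ G
  · refine Or.inl ?_
    have hxB : x ∈ dom B := by
      rw [Finset.mem_image] at hx
      obtain ⟨q, hq, rfl⟩ := hx
      exact fst_mem_dom hφ hq
    exact hf' B ((h𝓑' B).2 ⟨hB, fun y hy => hGi B hB x hxB y hy hxG⟩) ⟨φ, hφ, hall⟩ x hxB
  · exact Or.inr hxG

end

end Pool.Agent.Helper105
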